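import Pool.Agent.Run7.h260.VX.X10
import Pool.Agent.Run7.h260.VC.G4
import Pool.Agent.Y497.PH.Chix
import Pool.Agent.Y814.PH.Exp

/-!
# The Kashaev invariant to all orders
-/

set_option autoImplicit false

namespace Run7.h260.VX

open Filter Topology Metric Function Finset
open Pool.Agent.W711.HT hiding bb
open Pool.Agent.Y472 Pool.Agent.Y472.K
open Pool.Agent.W719.AX (UX EXY)
open Run7.h260.VC
open Pool.Agent.Y482.Ph (GXc nearS pz SB)
open Pool.Agent.Y852.PH.MX (exy_near exy_phase exy_congr pz_eq)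
open scoped Real Nat

lemma wts_wd (n : ℕ) : (Pool.Agent.Y481.wts (wd n)).sum = 0 := by
  unfold wd Pool.Agent.Y481.wts
  induction n with
  | zero => simp
  | succ n ih =>
    rw [List.replicate_succ, List.map_cons, List.flatten_cons, List.sum_append, ih]
    simp

/-- the critical value -/
noncomputable def vv (n : ℕ) [NeZero n] (m : ℤ) (z : ℂ) : ℂ :=
  Complex.I * m * z ^ 2 / (2 * π) + Complex.I * z + Gv n z

/-- the expansion of the Kashaev invariants -/
theorem main_exy (n : ℕ) [NeZero n] : ∃ C M : ℝ, 0 < C ∧ 0 < M ∧ ∀ m : ℤ, M ≤ |(m : ℝ)| →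
    ∃ (z : ℂ) (y : ℕ → ℂ), 0 < z.im ∧ ‖z‖ ≤ C / |(m : ℝ)| ∧
      Complex.I * m * z / π + Complex.I + deriv (Gv n) z = 0 ∧ ‖vv n m z - Gv n 0‖ ≤ C / |(m : ℝ)| ∧
      y 0 ≠ 0 ∧ EXY (fun N => Pool.Agent.H550R3.Jones.cjones N 2 (ftw m ++ bw (wd n)) (vN N))
        (vv n m z) y := by
  obtain ⟨R, c, B, A, hR, hR1, hc, hGd, hGe, hGb, hGX⟩ := exists_RX n
  have hG0 : 0 < G0 n := by have := Gv_pos (n := n); rwa [Gv_zero_re] at this
  obtain ⟨C, M, hC, hM, H⟩ := Pool.Agent.Y497.PH.chix R c B (G0 n / 2) hR hR1 hc (half_pos hG0)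
  obtain ⟨κ, hκ, herr⟩ := err_bd (n := n) hR hR1
  refine ⟨C, max M (C / (κ / 4) + 1), hC, lt_of_lt_of_le hM (le_max_left _ _), fun m hm => ?_⟩
  have hmM : M ≤ |(m : ℝ)| := (le_max_left _ _).trans hm
  have hm0 : 0 < |(m : ℝ)| := lt_of_lt_of_le hM hmM
  have hmC : C / |(m : ℝ)| ≤ κ / 4 := by
    have h1 : C / (κ / 4) + 1 ≤ |(m : ℝ)| := (le_max_right _ _).trans hm
    have h2 : C / (κ / 4) ≤ |(m : ℝ)| := by linarith
    rw [div_le_iff₀ (by positivity)] at h2
    rw [div_le_iff₀ hm0]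
    linarith
  obtain ⟨z, hz, hzim, hzn, hcrit, hval, y, hy0, hexy⟩ := H (fun N => Tf N (wd n)) (Gv n) A
    (fun N => Pool.Agent.Y833.CB.Tf_diff N _)
    (fun N z => Pool.Agent.Y833.CB.Tf_congr N _ (Complex.cos_neg z)) hGd hGe hGb hGX m hmM
  have hV1 : |(vv n m z).re - G0 n| ≤ κ / 4 := by
    have h2 := Complex.abs_re_le_norm (vv n m z - Gv n 0)
    rw [Complex.sub_re, Gv_zero_re] at h2
    exact h2.trans (hval.trans hmC)
  have hVlo := (abs_le.1 hV1).1
  obtain ⟨A₀, hA₀, herr⟩ := herr m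
  have hne : wd n ≠ [] := by
    rw [Ne, List.replicate_eq_nil_iff]
    exact NeZero.ne n
  have h1 : EXY (fun N => SB N (wd n) m) (vv n m z) (fun k => 1 * y k) := by
    refine exy_near 1 (show 0 < κ / 4 by positivity) hexy ?_
    have hbig : ∀ᶠ N : ℕ in atTop, A₀ * (N : ℝ) ^ 2 ≤ Real.exp (N * (κ / 4)) := by
      have h1 := (isLittleO_pow_exp_pos_mul_atTop 2 (show 0 < κ / 4 by positivity)).bound
        (show (0 : ℝ) < 1 / A₀ by positivity)
      have h2 := tendsto_natCast_atTop_atTop (R := ℝ) |>.eventually h1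
      filter_upwards [h2] with N hN
      rw [Real.norm_of_nonneg (by positivity), Real.norm_of_nonneg (by positivity), one_div,
        ← div_eq_inv_mul, le_div_iff₀ hA₀] at hN
      rw [mul_comm (N : ℝ) (κ / 4), mul_comm A₀]
      exact hN
    filter_upwards [herr, hbig] with N herr hbig
    rw [one_mul]
    refine (le_of_eq ?_).trans (herr.trans ?_)
    · rfl
    · calc A₀ * N ^ 2 * Real.exp (N * (G0 n - κ))
          ≤ Real.exp (N * (κ / 4)) * Real.exp (N * (G0 n - κ)) := by gcongr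
        _ = Real.exp (N * (G0 n - κ + κ / 4)) := by
            rw [← Real.exp_add]; congr 1; ring
        _ ≤ Real.exp (N * ((vv n m z).re - κ / 4)) := by
            refine Real.exp_le_exp.2 (mul_le_mul_of_nonneg_left ?_ (Nat.cast_nonneg N))
            linarith
  obtain ⟨y', hy', h2⟩ := exy_phase (a := fun N => Pool.Agent.H550R3.Jones.cjones N 2
      (ftw m ++ bw (wd n)) (vN N)) h1 (by simpa using hy0)
    (K0 := (-1) ^ n) (pow_ne_zero _ (by norm_num)) 0 (4 * π * Complex.I * m) (by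
      filter_upwards [eventually_ge_atTop 2] with N hN
      rw [Pool.Agent.Y814.PH.exp_formula N (wd n) m hN hne, pz_eq N (by omega), wts_wd]
      have : (wd n).length = n := by simp [wd]
      rw [this]
      simp)
  rw [add_zero] at h2
  exact ⟨z, y', hzim, hzn, hcrit, hval, hy', h2⟩

end Run7.h260.VX
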