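import Pool.Agent.Run7.h260.VX.Z4
import Pool.Agent.Run7.h260.VX.X11

/-!
# The exponent is the complex volume
-/

set_option autoImplicit false

namespace Run7.h260.VX

open Filter Topology Metric Function Finset
open Run7.h260.VC
open GapVol (lob)
open Pool.Agent.TH563.CV (rog)
open Pool.Agent.W719.AX (UX EXY)
open scoped Real

variable {a b c u : ℂ}

/-- the sum of the dilogarithms -/
noncomputable def cs (n : ℕ) (x y z x' y' z' : ℕ → ℝ) (L : ℕ → Lb) : ℂ :=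
  ∑ k ∈ range (2 * n), if Even k then
    evenT (x k) (y k) (z k) (x' k) (y' k) (z' k) (L k).a (L k).b (L k).c (L k).a' (L k).b' (L k).c'
  else
    oddT (x k) (y k) (z k) (x' k) (y' k) (z' k) (L k).a (L k).b (L k).c (L k).a' (L k).b' (L k).c'

theorem cs_eq (h : Shp a b c u) (h1 : Shp.Pos a b c u) (h2 : Shp.Pos a b c (-u)) (n : ℕ) [NeZero n] :
    cs n (alt (tB c u) (tB c (-u))) (alt (tA a u) (tA a (-u))) (alt (tB b u) (tB b (-u)))
      (alt (tB b u) (tB b (-u))) (alt (tB c u) (tB c (-u))) (alt (tA a u) (tA a (-u))) (lab n) =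
    2 * n * (rog (Complex.exp (lA a u)) + rog (Complex.exp (lA a (-u)))) +
      (π : ℂ) ^ 2 * (n * a - (b - c)) := by
  have hn : 1 ≤ n := Nat.one_le_iff_ne_zero.2 (NeZero.ne n)
  unfold cs
  rw [sum_pair]
  have hE : ∀ t : ℕ, Even (2 * t) := fun t => even_two_mul t
  have hO : ∀ t : ℕ, ¬ Even (2 * t + 1) := fun t => by
    rw [Nat.not_even_iff_odd]
    exact odd_two_mul_add_one t
  have key : ∀ t : ℕ, ((if Even (2 * t) then
    evenT (alt (tB c u) (tB c (-u)) (2 * t)) (alt (tA a u) (tA a (-u)) (2 * t))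
      (alt (tB b u) (tB b (-u)) (2 * t)) (alt (tB b u) (tB b (-u)) (2 * t))
      (alt (tB c u) (tB c (-u)) (2 * t)) (alt (tA a u) (tA a (-u)) (2 * t))
      (lab n (2 * t)).a (lab n (2 * t)).b (lab n (2 * t)).c (lab n (2 * t)).a' (lab n (2 * t)).b'
      (lab n (2 * t)).c'
  else
    oddT (alt (tB c u) (tB c (-u)) (2 * t)) (alt (tA a u) (tA a (-u)) (2 * t))
      (alt (tB b u) (tB b (-u)) (2 * t)) (alt (tB b u) (tB b (-u)) (2 * t))
      (alt (tB c u) (tB c (-u)) (2 * t)) (alt (tA a u) (tA a (-u)) (2 * t))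
      (lab n (2 * t)).a (lab n (2 * t)).b (lab n (2 * t)).c (lab n (2 * t)).a' (lab n (2 * t)).b'
      (lab n (2 * t)).c') + (if Even (2 * t + 1) then
    evenT (alt (tB c u) (tB c (-u)) (2 * t + 1)) (alt (tA a u) (tA a (-u)) (2 * t + 1))
      (alt (tB b u) (tB b (-u)) (2 * t + 1)) (alt (tB b u) (tB b (-u)) (2 * t + 1))
      (alt (tB c u) (tB c (-u)) (2 * t + 1)) (alt (tA a u) (tA a (-u)) (2 * t + 1))
      (lab n (2 * t + 1)).a (lab n (2 * t + 1)).b (lab n (2 * t + 1)).c (lab n (2 * t + 1)).a'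
      (lab n (2 * t + 1)).b' (lab n (2 * t + 1)).c'
  else
    oddT (alt (tB c u) (tB c (-u)) (2 * t + 1)) (alt (tA a u) (tA a (-u)) (2 * t + 1))
      (alt (tB b u) (tB b (-u)) (2 * t + 1)) (alt (tB b u) (tB b (-u)) (2 * t + 1))
      (alt (tB c u) (tB c (-u)) (2 * t + 1)) (alt (tA a u) (tA a (-u)) (2 * t + 1))
      (lab n (2 * t + 1)).a (lab n (2 * t + 1)).b (lab n (2 * t + 1)).c (lab n (2 * t + 1)).a'
      (lab n (2 * t + 1)).b' (lab n (2 * t + 1)).c')) =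
      (2 * (rog (Complex.exp (lA a u)) + rog (Complex.exp (lA a (-u)))) + (π : ℂ) ^ 2 * a) +
      ((ee n t : ℤ) : ℂ) * (π * Complex.I / 2 * (-u + Complex.I * π * (2 * b - c))) +
      ((ee n (t + n - 1) : ℤ) : ℂ) * (π * Complex.I / 2 * (u - Complex.I * π * c)) := by
    intro t
    rw [if_pos (hE t), if_neg (hO t)]
    simp only [alt_even, alt_odd]
    rw [even_eq h h1 (lab_local n (2 * t)).1.1 (lab_local n (2 * t)).1.2,
      odd_eq h h2 (lab_local n (2 * t + 1)).1.1 (lab_local n (2 * t + 1)).1.2, lab_even, lab_odd]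
    push_cast
    unfold lA lB
    linear_combination (-(π : ℂ) ^ 2 * a) * Complex.I_sq
  rw [sum_congr rfl fun t _ => key t, sum_add_distrib, sum_add_distrib, ← sum_mul, ← sum_mul,
    ← Int.cast_sum, ← Int.cast_sum, ee_sum n hn, ee_sum' n hn, sum_const, card_range, nsmul_eq_mul]
  push_cast
  linear_combination ((π : ℂ) ^ 2 * (b - c)) * Complex.I_sq

/-- the main theorem: the exponent is the complex volume -/
theorem main_cs (n : ℕ) [NeZero n] : ∃ C M : ℝ, 0 < C ∧ 0 < M ∧ ∀ m : ℤ, M ≤ |(m : ℝ)| →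
    ∃ x y z x' y' z' : ℕ → ℝ, AngC n m x y z x' y' z' ∧
      (∀ a b c a' b' c' : ℕ → ℝ, AngC n m a b c a' b' c' →
        volC n a b c a' b' c' ≤ volC n x y z x' y' z') ∧
      |volC n x y z x' y' z' - 12 * n * lob (π / 3)| ≤ C / |(m : ℝ)| ∧
      ∃ (v : ℂ) (w : ℕ → ℂ), 2 * π * v.re = volC n x y z x' y' z' ∧
        cs n x y z x' y' z' (lab n) = 2 * π * Complex.I * v ∧ w 0 ≠ 0 ∧
        EXY (fun N => Pool.Agent.H550R3.Jones.cjones N 2
          (Pool.Agent.Y472.ftw m ++ Pool.Agent.Y472.bw (wd n)) (Pool.Agent.W711.HT.vN N)) v w := by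
  have hpi := Real.pi_pos
  have hpiC : (π : ℂ) ≠ 0 := by exact_mod_cast hpi.ne'
  obtain ⟨C, M, hC, hM, H⟩ := main_exy n
  obtain ⟨r, hr, hgeo⟩ := Metric.eventually_nhds_iff_ball.1 ((nearD n).and (S2_eq n))
  refine ⟨2 * π * C, max M (C / r + 1), by positivity, lt_of_lt_of_le hM (le_max_left _ _), fun m hm => ?_⟩
  have hmM : M ≤ |(m : ℝ)| := (le_max_left _ _).trans hm
  have hm0 : 0 < |(m : ℝ)| := lt_of_lt_of_le hM hmM
  obtain ⟨χ, w, -, hχn, hcrit, hval, hw, hE⟩ := H m hmM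
  have hχr : χ ∈ Metric.ball (0 : ℂ) r := by
    rw [mem_ball_zero_iff]
    refine hχn.trans_lt ?_
    have h1 : C / r + 1 ≤ |(m : ℝ)| := (le_max_right _ _).trans hm
    have h2 : C / r < |(m : ℝ)| := by linarith
    rw [div_lt_iff₀ hr] at h2
    rw [div_lt_iff₀ hm0]
    linarith
  obtain ⟨hN, hS⟩ := hgeo χ hχr
  have hu := hN.hu m hcrit
  have hχ : fb χ - fc χ = χ / π := by
    rw [fb, fc]
    field_simp
    ring
  have hv := hN.shp.value hχ hu
  have hre : 2 * π * (vv n m χ).re = volC n (alt (tB (fc χ) (fu χ)) (tB (fc χ) (-fu χ)))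
      (alt (tA (fa χ) (fu χ)) (tA (fa χ) (-fu χ))) (alt (tB (fb χ) (fu χ)) (tB (fb χ) (-fu χ)))
      (alt (tB (fb χ) (fu χ)) (tB (fb χ) (-fu χ))) (alt (tB (fc χ) (fu χ)) (tB (fc χ) (-fu χ)))
      (alt (tA (fa χ) (fu χ)) (tA (fa χ) (-fu χ))) := by
    rw [hN.shp.volC_eq hN.pos hN.pos' n, ← hv]
    unfold vv
    rw [hN.hG]
    congr 2
  refine ⟨_, _, _, _, _, _, hN.shp.angC hN.pos hN.pos' hχ hu,
    fun a b c a' b' c' h => hN.shp.max hN.pos hN.pos' hχ hu h, ?_, vv n m χ, w, hre, ?_, hw, hE⟩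
  · rw [← hre]
    have h4 := Complex.abs_re_le_norm (vv n m χ - Gv n 0)
    rw [Complex.sub_re, Gv_zero_re] at h4
    have h5 := h4.trans hval
    have e : 2 * π * (vv n m χ).re - 12 * n * lob (π / 3) = 2 * π * ((vv n m χ).re - G0 n) := by
      unfold G0
      field_simp
      ring
    rw [e, abs_mul, abs_of_pos (by positivity)]
    refine (mul_le_mul_of_nonneg_left h5 (by positivity)).trans (le_of_eq ?_)
    ring
  · rw [cs_eq hN.shp hN.pos hN.pos' n]
    have hS' : rog (Complex.exp (lA (fa χ) (fu χ))) + rog (Complex.exp (lA (fa χ) (-fu χ))) = R2 χ := hS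
    rw [hS']
    unfold R2 vv
    rw [hN.hG, hχ]
    have h6 : (n : ℂ) * fu χ = Complex.I * (m * χ + π) / 2 := by linear_combination hu / 2
    obtain ⟨q, hq⟩ : ∃ q : ℂ, q = χ / π := ⟨_, rfl⟩
    have hq' : χ = π * q := by rw [hq]; field_simp
    have e1 : Complex.I * m * χ ^ 2 / (2 * π) = Complex.I * m * π * q ^ 2 / 2 := by
      rw [hq]; field_simp
    rw [e1, ← hq]
    linear_combination 2 * Complex.I * χ * h6 +
      (Complex.I ^ 2 * m * (χ + π * q) + π) * hq' - π * χ * Complex.I_sq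

end Run7.h260.VX
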