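import Pool.Agent.Run7.h260.VC.E5
import Pool.Agent.W719.AX.Gen
import Pool.Agent.W762.AX.Lx
import Pool.Agent.W303.AX.UX1
import Pool.Agent.W991.AX.Si

/-!
# Uniform expansions: small errors, contours
-/

set_option autoImplicit false

namespace Run7.h260.VX

open Filter Topology Metric Function
open Pool.Agent.W719.AX (UX)
open scoped Real

/-- `N ^ K e^{-κ N}` is bounded -/
lemma pow_exp_bd (K : ℕ) {κ : ℝ} (hκ : 0 < κ) : ∃ C : ℝ, 0 < C ∧ ∀ᶠ N : ℕ in atTop,
    (N : ℝ) ^ K * Real.exp (-(κ * N)) ≤ C := by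
  have h1 := (isLittleO_pow_exp_pos_mul_atTop K hκ).bound (show (0 : ℝ) < 1 by norm_num)
  have h2 := tendsto_natCast_atTop_atTop (R := ℝ) |>.eventually h1
  refine ⟨1, one_pos, ?_⟩
  filter_upwards [h2] with N hN
  rw [Real.norm_of_nonneg (by positivity), Real.norm_of_nonneg (by positivity), one_mul] at hN
  rw [Real.exp_neg, ← div_eq_mul_inv, div_le_one (Real.exp_pos _)]
  exact hN

/-- exponentially small errors -/
lemma ux_small {E : Type} {Y Z : ℕ → E → ℂ} {A : ℕ → E → ℂ} {S : Set E} (h : UX Y A S)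
    {κ C : ℝ} {m : ℕ} (hκ : 0 < κ) (hC : 0 ≤ C)
    (hZ : ∀ᶠ N : ℕ in atTop, ∀ p ∈ S, ‖Z N p - Y N p‖ ≤ C * N ^ m * Real.exp (-(κ * N))) :
    UX Z A S := by
  intro K
  obtain ⟨C₁, h1⟩ := h K
  obtain ⟨C₂, hC₂, h2⟩ := pow_exp_bd (m + K) hκ
  refine ⟨C₁ + C * C₂, ?_⟩
  filter_upwards [h1, h2, hZ, eventually_ge_atTop 1] with N h1 h2 hZ hN p hp
  have hN' : (0 : ℝ) < N := by exact_mod_cast hN
  have e : Z N p - ∑ k ∈ Finset.range K, A k p / (N : ℂ) ^ k =
      (Z N p - Y N p) + (Y N p - ∑ k ∈ Finset.range K, A k p / (N : ℂ) ^ k) := by ring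
  rw [e]
  refine (norm_add_le _ _).trans ?_
  rw [add_comm, add_div]
  refine add_le_add (h1 p hp) ((hZ p hp).trans ?_)
  rw [le_div_iff₀ (by positivity)]
  calc C * N ^ m * Real.exp (-(κ * N)) * (N : ℝ) ^ K =
      C * ((N : ℝ) ^ (m + K) * Real.exp (-(κ * N))) := by rw [pow_add]; ring
    _ ≤ C * C₂ := by gcongr

lemma ux_mono {E : Type} {Y : ℕ → E → ℂ} {A : ℕ → E → ℂ} {S T : Set E} (h : UX Y A S)
    (hT : T ⊆ S) : UX Y A T := by
  intro K
  obtain ⟨C, h⟩ := h K
  exact ⟨C, h.mono fun N h p hp => h p (hT hp)⟩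

lemma ux_congr {E : Type} {Y Z : ℕ → E → ℂ} {A : ℕ → E → ℂ} {S : Set E} (h : UX Y A S)
    (hZ : ∀ᶠ N : ℕ in atTop, ∀ p ∈ S, Z N p = Y N p) : UX Z A S := by
  intro K
  obtain ⟨C, h⟩ := h K
  refine ⟨C, ?_⟩
  filter_upwards [h, hZ] with N h hZ p hp
  rw [hZ p hp]
  exact h p hp

/-- a change of variables -/
lemma ux_comp {E E' : Type} {Y : ℕ → E → ℂ} {A : ℕ → E → ℂ} {S : Set E} {T : Set E'} (h : UX Y A S)
    (g : E' → E) (hg : ∀ p ∈ T, g p ∈ S) : UX (fun N p => Y N (g p)) (fun k p => A k (g p)) T := by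
  intro K
  obtain ⟨C, h⟩ := h K
  exact ⟨C, h.mono fun N h p hp => h (g p) (hg p hp)⟩

/-- boundedness -/
lemma ux_bd {E : Type} {Y : ℕ → E → ℂ} {A : ℕ → E → ℂ} {S : Set E} (h : UX Y A S) :
    ∃ C : ℝ, 0 < C ∧ ∀ᶠ N : ℕ in atTop, ∀ p ∈ S, ‖Y N p‖ ≤ C := by
  obtain ⟨C, h⟩ := h 0
  refine ⟨max C 1, by positivity, ?_⟩
  filter_upwards [h] with N h p hp
  have := h p hp
  simp only [Finset.range_zero, Finset.sum_empty, sub_zero, pow_zero, div_one] at this
  exact this.trans (le_max_left _ _)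

/-- the limit -/
lemma ux_lim {E : Type} {Y : ℕ → E → ℂ} {A : ℕ → E → ℂ} {S : Set E} (h : UX Y A S) :
    ∃ C : ℝ, 0 < C ∧ ∀ᶠ N : ℕ in atTop, ∀ p ∈ S, ‖Y N p - A 0 p‖ ≤ C / N := by
  obtain ⟨C, h⟩ := h 1
  refine ⟨max C 1, by positivity, ?_⟩
  filter_upwards [h, eventually_ge_atTop 1] with N h hN p hp
  have hN' : (0 : ℝ) < N := by exact_mod_cast hN
  have := h p hp
  simp only [Finset.range_one, Finset.sum_singleton, pow_zero, div_one, pow_one] at this
  exact this.trans (div_le_div_of_nonneg_right (le_max_left _ _) hN'.le)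

/-- from the interval to a parallel one through `z` -/
theorem contour {g : ℂ → ℂ} {s1 s2 η M : ℝ} {z : ℂ} (hη : 0 < η)
    (h1 : s1 ≤ z.re - η) (h2 : z.re + η ≤ s2)
    (hd : ∀ x y : ℝ, s1 ≤ x → x ≤ s2 → |y| ≤ |z.im| → DifferentiableAt ℂ g (x + y * Complex.I))
    (hs : ∀ y : ℝ, |y| ≤ |z.im| → ‖g (s1 + y * Complex.I)‖ ≤ M ∧ ‖g (s2 + y * Complex.I)‖ ≤ M)
    (hl : ∀ x : ℝ, s1 ≤ x → x ≤ s2 → η ≤ |x - z.re| → ‖g (x + z.im * Complex.I)‖ ≤ M) :
    ‖(∫ x in s1..s2, g x) - ∫ t in (-η)..η, g (z + t)‖ ≤ M * (2 * |z.im| + (s2 - s1)) := by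
  have h12 : s1 ≤ s2 := by linarith
  have hM : 0 ≤ M := (norm_nonneg _).trans (hs 0 (by simp)).1
  set y₀ := z.im with hy₀
  -- Cauchy
  have hrect := Complex.integral_boundary_rect_eq_zero_of_differentiableOn g (s1 : ℂ)
    ((s2 : ℂ) + y₀ * Complex.I) (by
      intro w hw
      have hw' := Complex.mem_reProdIm.1 hw
      have e1 : ((s1 : ℂ)).re = s1 := Complex.ofReal_re _
      have e2 : ((s2 : ℂ) + y₀ * Complex.I).re = s2 := by simp
      have e3 : ((s1 : ℂ)).im = 0 := Complex.ofReal_im _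
      have e4 : ((s2 : ℂ) + y₀ * Complex.I).im = y₀ := by simp
      rw [e1, e2, e3, e4, Set.uIcc_of_le h12] at hw'
      have h3 : |w.im| ≤ |y₀| := by
        have := hw'.2
        rw [Set.mem_uIcc] at this
        rcases this with ⟨a, b⟩ | ⟨a, b⟩
        · rw [abs_of_nonneg a, abs_of_nonneg (a.trans b)]; exact b
        · rw [abs_of_nonpos b, abs_of_nonpos (a.trans b)]; linarith
      have h4 := hd w.re w.im hw'.1.1 hw'.1.2 h3
      rw [Complex.re_add_im] at h4
      exact h4.differentiableWithinAt)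
  have e1 : ((s1 : ℂ)).re = s1 := Complex.ofReal_re _
  have e2 : ((s2 : ℂ) + y₀ * Complex.I).re = s2 := by simp
  have e3 : ((s1 : ℂ)).im = 0 := Complex.ofReal_im _
  have e4 : ((s2 : ℂ) + y₀ * Complex.I).im = y₀ := by simp
  rw [e1, e2, e3, e4] at hrect
  simp only [Complex.ofReal_zero, zero_mul, add_zero, smul_eq_mul] at hrect
  -- the sides
  have hside : ∀ s : ℝ, (s = s1 ∨ s = s2) →
      ‖Complex.I * ∫ y in (0 : ℝ)..y₀, g (s + y * Complex.I)‖ ≤ M * |y₀| := by
    intro s hss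
    rw [norm_mul, Complex.norm_I, one_mul]
    have := intervalIntegral.norm_integral_le_of_norm_le_const (a := (0 : ℝ)) (b := y₀) (C := M)
      (f := fun y : ℝ => g (s + y * Complex.I)) (by
        intro y hy
        have h3 : |y| ≤ |y₀| := by
          rw [Set.mem_uIoc] at hy
          rcases hy with ⟨a, b⟩ | ⟨a, b⟩
          · rw [abs_of_nonneg a.le, abs_of_nonneg (a.le.trans b)]; exact b
          · rw [abs_of_nonpos b, abs_of_nonpos (a.le.trans b)]; linarith
        rcases hss with rfl | rfl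
        · exact (hs y h3).1
        · exact (hs y h3).2)
    rw [sub_zero] at this
    exact this
  -- the line
  set G : ℝ → ℂ := fun x => g (x + y₀ * Complex.I) with hG
  have hGc : ContinuousOn G (Set.Icc s1 s2) := by
    intro x hx
    have h3 := (hd x y₀ hx.1 hx.2 le_rfl).continuousAt
    have h4 : ContinuousAt (fun x : ℝ => (x : ℂ) + y₀ * Complex.I) x := by fun_prop
    exact (ContinuousAt.comp (g := g) (f := fun x : ℝ => (x : ℂ) + y₀ * Complex.I) h3 h4).continuousWithinAt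
  have hint : ∀ a b : ℝ, s1 ≤ a → a ≤ b → b ≤ s2 → IntervalIntegrable G MeasureTheory.volume a b := by
    intro a b h3 h4 h5
    exact (hGc.mono (Set.Icc_subset_Icc h3 h5)).intervalIntegrable_of_Icc h4
  have hsplit : ∫ x in s1..s2, G x = (∫ x in s1..(z.re - η), G x) +
      (∫ x in (z.re - η)..(z.re + η), G x) + ∫ x in (z.re + η)..s2, G x := by
    rw [intervalIntegral.integral_add_adjacent_intervals, intervalIntegral.integral_add_adjacent_intervals]
    · exact hint _ _ le_rfl (by linarith) (by linarith)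
    · exact hint _ _ (by linarith) (by linarith) le_rfl
    · exact hint _ _ le_rfl (by linarith) (by linarith)
    · exact hint _ _ (by linarith) (by linarith) (by linarith)
  have hmid : ∫ x in (z.re - η)..(z.re + η), G x = ∫ t in (-η)..η, g (z + t) := by
    have := intervalIntegral.integral_comp_add_left (a := -η) (b := η) G z.re
    rw [show z.re + -η = z.re - η by ring] at this
    rw [← this]
    refine intervalIntegral.integral_congr fun t _ => ?_
    simp only [hG]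
    congr 1
    apply Complex.ext <;> simp [hy₀]
  have hleft : ‖∫ x in s1..(z.re - η), G x‖ ≤ M * (z.re - η - s1) := by
    have := intervalIntegral.norm_integral_le_of_norm_le_const (a := s1) (b := z.re - η) (C := M)
      (f := G) (by
        intro x hx
        rw [Set.uIoc_of_le h1] at hx
        refine hl x hx.1.le (by linarith [hx.2]) ?_
        rw [abs_sub_comm, le_abs]
        left; linarith [hx.2])
    rwa [abs_of_nonneg (by linarith)] at this
  have hright : ‖∫ x in (z.re + η)..s2, G x‖ ≤ M * (s2 - (z.re + η)) := by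
    have := intervalIntegral.norm_integral_le_of_norm_le_const (a := z.re + η) (b := s2) (C := M)
      (f := G) (by
        intro x hx
        rw [Set.uIoc_of_le h2] at hx
        refine hl x (by linarith [hx.1]) hx.2 ?_
        rw [le_abs]
        left; linarith [hx.1])
    rwa [abs_of_nonneg (by linarith)] at this
  have h5 := hside s1 (Or.inl rfl)
  have h6 := hside s2 (Or.inr rfl)
  have key : (∫ x in s1..s2, g x) - ∫ t in (-η)..η, g (z + t) =
      (∫ x in s1..(z.re - η), G x) + (∫ x in (z.re + η)..s2, G x) +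
        (Complex.I * ∫ y in (0 : ℝ)..y₀, g (s1 + y * Complex.I)) -
        (Complex.I * ∫ y in (0 : ℝ)..y₀, g (s2 + y * Complex.I)) := by
    rw [← hmid]
    have h7 : (∫ x in s1..s2, g x) - (∫ x in s1..s2, G x) +
        (Complex.I * ∫ y in (0 : ℝ)..y₀, g (s2 + y * Complex.I)) -
        (Complex.I * ∫ y in (0 : ℝ)..y₀, g (s1 + y * Complex.I)) = 0 := hrect
    rw [hsplit] at h7
    linear_combination h7
  rw [key]
  refine (norm_sub_le _ _).trans ?_
  have h8 := norm_add_le ((∫ x in s1..(z.re - η), G x) + (∫ x in (z.re + η)..s2, G x))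
    (Complex.I * ∫ y in (0 : ℝ)..y₀, g (s1 + y * Complex.I))
  have h9 := norm_add_le (∫ x in s1..(z.re - η), G x) (∫ x in (z.re + η)..s2, G x)
  nlinarith

end Run7.h260.VX
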