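import Pool.Agent.Run7.h260.VX.X9
import Pool.Agent.Run7.h260.VC.F5
import Pool.Agent.Y482.Ph.Defs
import Pool.Agent.Y472.K.ExaC
import Pool.Agent.Y852.PH.MX

/-!
# The trace to all orders
-/

set_option autoImplicit false

namespace Run7.h260.VX

open Filter Topology Metric Function Finset
open Pool.Agent.W711.HT hiding bb
open Pool.Agent.Y472 Pool.Agent.Y472.K
open Pool.Agent.W719.AX (UX EXY)
open Run7.h260.VC
open Pool.Agent.Y482.Ph (GXc nearS pz SB)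
open scoped Real Nat

variable {n : ℕ}

lemma card_Sv (n : ℕ) : (Sv n).card = 2 * n := by
  unfold Sv
  rw [Finset.card_erase_of_mem (Finset.mem_univ _), Finset.card_univ, Fintype.card_option,
    Fintype.card_sum, Fintype.card_fin]
  omega

lemma ST_fX [NeZero n] (ρ : Ix n → ℝ) (N : ℕ) (x : Ix n → ℂ) :
    VC.ST (1 / 3) ρ (Sv n) (fX n) N x =
      (N * Md N (x none) / (Sd N ((N - 1) / 2) : ℂ) ^ 2) ^ n *
        VC.ST (1 / 3) ρ (Sv n) (f0 n mX DX) N x := by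
  unfold VC.ST
  rw [Finset.mul_sum]
  refine Finset.sum_congr rfl fun d _ => ?_
  unfold fX
  have : pt (1 / 3) (Sv n) N d x none = x none := by
    unfold pt
    rw [if_neg none_mem]
  rw [this]

/-- the sum over the configurations near the maximum, to all orders -/
theorem near_ord (n : ℕ) [NeZero n] : ∃ ρ : Ix n → ℝ, (∀ i, 0 < ρ i) ∧ ∃ R : ℝ, 0 < R ∧
    ∃ A : ℕ → ℂ → ℂ, UX (fun N χ => Complex.exp (-(N * Gv n χ)) *
      ∑ c ∈ NC n ρ N, co n N c.1 c.2 * Qc n N c.1 c.2 χ) A (ball 0 R) ∧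
      ∀ χ ∈ ball (0 : ℂ) R, A 0 χ ≠ 0 := by
  obtain ⟨A, hA⟩ := fX_ex n
  obtain ⟨ρ, QT, Ψ, E⟩ := elimX (S := Sv n) (k := 1) one_pos Qp_max (Qp_an n)
    (fun i hi => Dp_zero i (by unfold Sv at hi; simpa using hi)) hA (c := 1 / 3) (by norm_num)
    (ρ₀ := 1 / 80000 / 4) (by norm_num) (Sv n) (Finset.Subset.refl _)
  obtain ⟨R', A', E'⟩ := E.ex
  have c1 : ∀ᶠ χ₀ : ℂ in 𝓝 0, χ₀ / (2 * π) ∈ ball (0 : ℂ) (1 / 80000) := by
    have : Tendsto (fun χ : ℂ => χ / (2 * π)) (𝓝 0) (𝓝 0) := by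
      have := (tendsto_id (x := 𝓝 (0 : ℂ))).div_const (2 * π : ℂ)
      simpa using this
    exact this.eventually (ball_mem_nhds 0 (by norm_num))
  have hQ : ∀ᶠ χ : ℂ in 𝓝 0, AnalyticAt ℂ (Qp n) (Up n (bet χ) χ) :=
    Up_tend.eventually (Qp_an n).eventually_analyticAt
  have hU : ∀ᶠ χ : ℂ in 𝓝 0, Up n (bet χ) χ ∈ ball (0 : Ix n → ℂ) R' :=
    Up_tend.eventually (ball_mem_nhds 0 E'.pos)
  obtain ⟨R, hR, hall⟩ := Metric.eventually_nhds_iff_ball.1 (c1.and (hQ.and (hU.and (bet_mem.and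
    (bet_crit.and ((Up_tend.eventually E.ev).and (Up_tend.eventually E.uniq)))))))
  have hQT : ∀ χ ∈ ball (0 : ℂ) R, QT (Up n (bet χ) χ) = Gv n χ := by
    intro χ hχ
    obtain ⟨c1, hQ, hU, hm, hc, l2, l3⟩ := hall χ hχ
    have hcrit : ∀ i ∈ Sv n, Dp (Qp n) i (Up n (bet χ) χ) = 0 := by
      intro i hi
      have hi' : i ≠ none := by unfold Sv at hi; simpa using hi
      unfold Dp
      rw [fderiv_Up hm.1 hm.2.1 hm.2.2 hQ.differentiableAt, hc]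
      have : (Pi.single i (1 : ℂ) : Ix n → ℂ) none = 0 := by
        rw [Pi.single_eq_of_ne (Ne.symm hi')]
      rw [this]
      ring
    rw [l2.2.2.1, l3 hcrit]
    rfl
  refine ⟨ρ, fun i => (E.hρ i).1, R, hR, fun k χ => A' k (Up n (bet χ) χ), ?_, ?_⟩
  · refine ux_congr (ux_comp E'.ux (fun χ : ℂ => Up n (bet χ) χ) fun χ hχ => (hall χ hχ).2.2.1) ?_
    have c5 : ∀ᶠ N : ℕ in atTop, 1 / (N : ℝ) < 1 / 80000 / 4 :=
      (tendsto_one_div_atTop_nhds_zero_nat (𝕜 := ℝ)).eventually_lt_const (by norm_num)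
    filter_upwards [interpX, c5, eventually_ge_atTop 1000000] with N hI c5 hN χ hχ
    obtain ⟨c1, hQ, hU, hm, hc, l2, l3⟩ := hall χ hχ
    have hN' : (0 : ℝ) < N := by
      have : 0 < N := by omega
      exact_mod_cast this
    have hNc : (N : ℂ) ≠ 0 := by
      have : N ≠ 0 := by omega
      exact_mod_cast this
    have hx1 : Up n (bet χ) χ none = χ := by simp [Up]
    have hmm := (mX_bd hN).1
    have hns := near_sum (n := n) (mm := mX) (D := DX) (by omega) (by linarith) hI (by norm_num)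
      (by norm_num) c5 (ρ := ρ) (fun i => (E.hρ i).2) (x := Up n (bet χ) χ) (by rw [hx1]; exact c1)
    rw [hx1] at hns
    rw [hns, hQT χ hχ, ST_fX, hx1, card_Sv]
    have hsq : ((Real.sqrt N : ℝ) : ℂ) * ((Real.sqrt N : ℝ) : ℂ) = N := by
      rw [← Complex.ofReal_mul, Real.mul_self_sqrt hN'.le]; simp
    have h1 : ((Real.sqrt N : ℝ) : ℂ)⁻¹ ^ (2 * n) = ((N : ℂ)⁻¹) ^ n := by
      rw [pow_mul, sq, ← mul_inv, hsq]
    have h2 : (N : ℂ) * Md N χ / (Sd N ((N - 1) / 2) : ℂ) ^ 2 =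
        N * (Md N χ / (Sd N ((N - 1) / 2) : ℂ) ^ 2) := by ring
    have h3 : ((N : ℂ)⁻¹) ^ n * (N : ℂ) ^ n = 1 := by
      rw [← mul_pow, inv_mul_cancel₀ hNc, one_pow]
    rw [h1, h2, mul_pow]
    linear_combination (-(Complex.exp (-(N * Gv n χ)) * (Md N χ / (Sd N ((N - 1) / 2) : ℂ) ^ 2) ^ n *
      VC.ST (1 / 3) ρ (Sv n) (f0 n mX DX) N (Up n (bet χ) χ))) * h3
  · obtain ⟨c₁, hc₁, hnz⟩ := E'.nz
    intro χ hχ h0
    have := hnz _ (hall χ hχ).2.2.1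
    simp only at h0
    rw [h0, norm_zero] at this
    linarith

lemma cJC' : ∀ N : ℕ, 2 ≤ N → ∃ u u' : ℂ, u * u' = -1 ∧ CJC N u u' := fun N hN =>
  Pool.Agent.Y472.K.cj1c N hN

/-- the trace to all orders -/
theorem Tf_ord (n : ℕ) [NeZero n] : ∃ R : ℝ, 0 < R ∧ ∃ A : ℕ → ℂ → ℂ,
    UX (fun N χ => Complex.exp (-(N * Gv n χ)) * Tf N (wd n) χ) A (ball 0 R) ∧
      (∀ χ ∈ ball (0 : ℂ) R, A 0 χ ≠ 0) ∧ ∀ χ ∈ ball (0 : ℂ) R, AnalyticAt ℂ (Gv n) χ := by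
  obtain ⟨ρ, hρ, R₀, hR₀, A, hUX, hA⟩ := near_ord n
  obtain ⟨κ, τ, hκ, hτ, hrest⟩ := rest_far (n := n) hρ
  have hπ := Real.pi_pos
  have hG : Tendsto (fun χ : ℂ => (Gv n χ).re) (𝓝 0) (𝓝 (Gv n 0).re) :=
    (Complex.continuous_re.tendsto _).comp (Gv_an (n := n)).continuousAt.tendsto
  have c3 : ∀ᶠ χ₀ : ℂ in 𝓝 0, G0 n - κ / 2 < (Gv n χ₀).re :=
    hG.eventually_const_lt (by rw [Gv_zero_re]; linarith)
  obtain ⟨R₁, hR₁, hall⟩ := Metric.eventually_nhds_iff_ball.1 (c3.and (Gv_an (n := n)).eventually_analyticAt)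
  obtain ⟨R, hRd⟩ : ∃ R : ℝ, R = min (min R₀ R₁) (min π τ) := ⟨_, rfl⟩
  have hR : 0 < R := by rw [hRd]; positivity
  have r0 : R ≤ R₀ := by rw [hRd]; exact (min_le_left _ _).trans (min_le_left _ _)
  have r1 : R ≤ R₁ := by rw [hRd]; exact (min_le_left _ _).trans (min_le_right _ _)
  have r2 : R ≤ π := by rw [hRd]; exact (min_le_right _ _).trans (min_le_left _ _)
  have r3 : R ≤ τ := by rw [hRd]; exact (min_le_right _ _).trans (min_le_right _ _)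
  refine ⟨R, hR, fun k χ => (-1) ^ n * A k χ, ?_, ?_, ?_⟩
  · have hUX1 : UX (fun N χ => (-1) ^ n * (Complex.exp (-(N * Gv n χ)) *
        ∑ c ∈ NC n ρ N, co n N c.1 c.2 * Qc n N c.1 c.2 χ)) (fun k χ => (-1) ^ n * A k χ) (ball 0 R) := by
      intro K
      obtain ⟨C, hC⟩ := ux_mono hUX (ball_subset_ball r0) K
      refine ⟨C, ?_⟩
      filter_upwards [hC] with N hC χ hχ
      have h1 : ∑ k ∈ range K, (-1) ^ n * A k χ / (N : ℂ) ^ k = (-1) ^ n * ∑ k ∈ range K, A k χ / (N : ℂ) ^ k := by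
        rw [Finset.mul_sum]
        exact Finset.sum_congr rfl fun k _ => mul_div_assoc _ _ _
      rw [h1, ← mul_sub, norm_mul, norm_pow, norm_neg, norm_one, one_pow, one_mul]
      exact hC χ hχ
    refine ux_small hUX1 (κ := κ / 2) (C := 1) (m := 0) (half_pos hκ) zero_le_one ?_
    filter_upwards [hrest, eventually_ge_atTop 2] with N hrest hN χ hχ
    obtain ⟨u, u', huu, hc⟩ := cJC' N hN
    have hc3 := (hall χ (ball_subset_ball r1 hχ)).1
    rw [mem_ball_zero_iff] at hχ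
    have h1 := hrest χ ((Complex.abs_re_le_norm _).trans (hχ.le.trans r2))
      ((Complex.abs_im_le_norm _).trans (hχ.le.trans r3))
    have h2 := Tf_sum (n := n) hc χ
    rw [huu] at h2
    have h3 : Complex.exp (-(N * Gv n χ)) * Tf N (wd n) χ - (-1) ^ n * (Complex.exp (-(N * Gv n χ)) *
        ∑ c ∈ NC n ρ N, co n N c.1 c.2 * Qc n N c.1 c.2 χ) = (-1) ^ n * Complex.exp (-(N * Gv n χ)) *
        (∑ c ∈ cfg n N, co n N c.1 c.2 * Qc n N c.1 c.2 χ -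
          ∑ c ∈ NC n ρ N, co n N c.1 c.2 * Qc n N c.1 c.2 χ) := by
      rw [h2]; ring
    rw [h3, norm_mul, norm_mul, norm_pow, norm_neg, norm_one, one_pow, one_mul, Complex.norm_exp, pow_zero,
      mul_one, one_mul]
    have h4 : (-((N : ℂ) * Gv n χ)).re = -(N * (Gv n χ).re) := by simp
    rw [h4]
    calc Real.exp (-(N * (Gv n χ).re)) * _ ≤ Real.exp (-(N * (Gv n χ).re)) *
          Real.exp (N * (G0 n - κ)) := by gcongr
      _ = Real.exp (-(N * (Gv n χ).re) + N * (G0 n - κ)) := (Real.exp_add _ _).symm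
      _ ≤ Real.exp (-(κ / 2 * N)) := by
          refine Real.exp_le_exp.2 ?_
          have hN' : (0 : ℝ) ≤ N := by positivity
          nlinarith
  · intro χ hχ
    exact mul_ne_zero (pow_ne_zero _ (by norm_num)) (hA χ (ball_subset_ball r0 hχ))
  · exact fun χ hχ => (hall χ (ball_subset_ball r1 hχ)).2

lemma Rc_ball {R r : ℝ} (h : R ≤ r / 2) {z : ℂ} (hz : z ∈ Rc R R) : z ∈ ball (0 : ℂ) r := by
  rw [mem_ball_zero_iff]
  have := Complex.norm_le_abs_re_add_abs_im z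
  have h1 := hz.1
  have h2 := hz.2
  linarith

/-- all the conditions for the sum over the values of the variable of the axis -/
theorem exists_RX (n : ℕ) [NeZero n] : ∃ (R c B : ℝ) (A : ℕ → ℂ → ℂ), 0 < R ∧ R ≤ 1 ∧ 0 < c ∧
    DifferentiableOn ℂ (Gv n) (Rc R R) ∧ (∀ z ∈ Rc R R, Gv n (-z) = Gv n z) ∧
    (∀ z ∈ Rc R R, ‖Gv n z‖ ≤ B ∧ (deriv (deriv (Gv n)) z).re ≤ -c ∧ G0 n / 2 ≤ (Gv n z).re) ∧
    GXc R (fun N => Tf N (wd n)) (Gv n) A := by
  obtain ⟨R, c, B, hR, hR1, hc, hGd, hGe, hGb, -, hGa⟩ := exists_R n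
  obtain ⟨R₂, hR₂, A, hUX, hA, hGa2⟩ := Tf_ord n
  obtain ⟨R', hR'd⟩ : ∃ R' : ℝ, R' = min R (R₂ / 2) := ⟨_, rfl⟩
  have hR' : 0 < R' := by rw [hR'd]; positivity
  have hRR : R' ≤ R := by rw [hR'd]; exact min_le_left _ _
  have hRR2 : R' ≤ R₂ / 2 := by rw [hR'd]; exact min_le_right _ _
  have hsub : Rc R' R' ⊆ Rc R R := Pool.Agent.W293.HT.Rc_mono hRR hRR
  refine ⟨R', c, B, A, hR', hRR.trans hR1, hc, hGd.mono hsub, fun z hz => hGe z (hsub hz),
    fun z hz => hGb z (hsub hz), ⟨ux_mono hUX fun z hz => Rc_ball hRR2 hz, ?_,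
      fun z hz => hA z (Rc_ball hRR2 hz)⟩⟩
  intro k
  have h1 := Pool.Agent.W303.AX.uxan (fun N χ => Complex.exp (-(N * Gv n χ)) * Tf N (wd n) χ) A
    (ball 0 R₂) isOpen_ball (by
      refine Eventually.of_forall fun N => ?_
      refine DifferentiableOn.mul ?_ (Pool.Agent.Y833.CB.Tf_diff N (wd n)).differentiableOn
      intro z hz
      exact (((hGa2 z hz).differentiableAt.const_mul (N : ℂ)).fun_neg.cexp).differentiableWithinAt) hUX k
  exact h1.mono fun z hz => Rc_ball hRR2 hz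

end Run7.h260.VX
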