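import Pool.Agent.Run7.h260.VX.X11

/-!
# The expansions and the volume
-/

set_option autoImplicit false

namespace Run7.h260.VX

open Filter Topology Metric Function Finset
open Pool.Agent.W719.AX (UX EXY)
open Run7.h260.VC
open GapVol (lob)
open scoped Real

/-- the growth rate of an expansion -/
lemma exy_re {a : ℕ → ℂ} {v : ℂ} {y : ℕ → ℂ} (h : EXY a v y) (hy : y 0 ≠ 0) :
    Tendsto (fun N : ℕ => 2 * π * (Real.log ‖a N‖ / N)) atTop (𝓝 (2 * π * v.re)) :=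
  (Pool.Agent.W460.AX.rat _ _ _ hy h).2.2.2.1

/-- the main theorem: the angle structure of greatest volume, and the expansions -/
theorem main_full (n : ℕ) [NeZero n] : ∃ C M : ℝ, 0 < C ∧ 0 < M ∧ ∀ m : ℤ, M ≤ |(m : ℝ)| →
    ∃ x y z x' y' z' : ℕ → ℝ, AngC n m x y z x' y' z' ∧
      (∀ a b c a' b' c' : ℕ → ℝ, AngC n m a b c a' b' c' →
        volC n a b c a' b' c' ≤ volC n x y z x' y' z') ∧
      |volC n x y z x' y' z' - 12 * n * lob (π / 3)| ≤ C / |(m : ℝ)| ∧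
      ∃ (v : ℂ) (w : ℕ → ℂ), 2 * π * v.re = volC n x y z x' y' z' ∧ w 0 ≠ 0 ∧
        EXY (fun N => Pool.Agent.H550R3.Jones.cjones N 2
          (Pool.Agent.Y472.ftw m ++ Pool.Agent.Y472.bw (wd n)) (Pool.Agent.W711.HT.vN N)) v w := by
  obtain ⟨C₁, M₁, hC₁, hM₁, H₁⟩ := main_geo n
  obtain ⟨C₂, M₂, -, -, H₂⟩ := main_exy n
  refine ⟨C₁, max M₁ M₂, hC₁, lt_of_lt_of_le hM₁ (le_max_left _ _), fun m hm => ?_⟩
  obtain ⟨x, y, z, x', y', z', h1, h2, h3, h4⟩ := H₁ m ((le_max_left _ _).trans hm)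
  obtain ⟨χ, w, -, -, -, -, hw, hE⟩ := H₂ m ((le_max_right _ _).trans hm)
  exact ⟨x, y, z, x', y', z', h1, h2, h3, vv n m χ, w, tendsto_nhds_unique (exy_re hE hw) h4, hw, hE⟩

end Run7.h260.VX
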