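import Pool.Agent.Run7.h260.VX.X1

/-!
# Uniform expansions: one window, fixed parameters
-/

set_option autoImplicit false

namespace Run7.h260.VX

open Filter Topology Metric Function
open Pool.Agent.W719.AX (UX S_LX)
open Run7.h260.VC
open scoped Real

lemma small_pt {ρ s y : ℝ} (hs : |s| ≤ 2 * ρ) (hy : |y| ≤ ρ) : ‖(s + y * Complex.I : ℂ)‖ ≤ 3 * ρ := by
  refine (norm_add_le _ _).trans ?_
  rw [norm_mul, Complex.norm_I, mul_one, Complex.norm_real, Complex.norm_real, Real.norm_eq_abs,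
    Real.norm_eq_abs]
  linarith

/-- the sum over the window and the integral near the critical point -/
theorem core {N : ℕ} {g : ℂ → ℂ} {c ρ hh η V C₀ ε κ k R : ℝ} {z : ℂ} (hN : 0 < N)
    (hNh : 1 ≤ N * hh) (hNρ : 1 / (N : ℝ) ≤ ρ / 4) (hC₀ : 0 ≤ C₀) (hρ : 0 < ρ) (hρc : ρ < c)
    (hρ2 : ρ ≤ 1 / 2) (hR : 3 * ρ < R)
    (hd : ∀ w ∈ ball (0 : ℂ) R, DifferentiableAt ℂ g w) (hk : 0 < k)
    (hb : ∀ s y : ℝ, |s| ≤ 2 * ρ → |y| ≤ ρ →
      ‖g (s + y * Complex.I)‖ ≤ C₀ * Real.exp (N * (V + ε - k * s ^ 2 + 6 * |y|)))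
    (hz : ‖z‖ ≤ ε) (hη : 0 < η) (hηρ : η ≤ ρ / 2) (e1 : ε ≤ η / 4)
    (e2 : 7 * ε ≤ k * η ^ 2 / 4) (e3 : ε ≤ hh / 10) (e4 : ε ≤ k * ρ ^ 2 / 8)
    (h1 : 48 * hh ≤ k * ρ ^ 2) (h2 : hh ≤ ρ) (k1 : κ ≤ k * ρ ^ 2 / 4) (k2 : κ ≤ hh / 10)
    (k3 : κ ≤ k * η ^ 2 / 4) :
    ‖(∑ d ∈ Ws c ρ N, g ((d : ℂ) / N - c)) - N * ∫ t in (-η)..η, g (z + t)‖ ≤
      C₀ * 16 * N * Real.exp (N * (V - κ)) := by
  have hN' : (0 : ℝ) < N := by exact_mod_cast hN
  have hN1 : (1 : ℝ) ≤ N := by exact_mod_cast hN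
  have hh0 : 0 < hh := by
    by_contra hcon
    push Not at hcon
    have := mul_nonpos_of_nonneg_of_nonpos hN'.le hcon
    linarith
  have hε0 : 0 ≤ ε := (norm_nonneg _).trans hz
  have hπ := Real.pi_gt_d2
  set E : ℝ := Real.exp (N * (V - κ)) with hE
  have hE0 : 0 < E := Real.exp_pos _
  obtain ⟨a, ha⟩ : ∃ a : ℕ, a = ⌈(c - ρ) * N⌉₊ := ⟨_, rfl⟩
  obtain ⟨b, hbb⟩ : ∃ b : ℕ, b = ⌈(c + ρ) * N⌉₊ := ⟨_, rfl⟩
  have hcρ : 0 < (c - ρ) * N := mul_pos (by linarith) hN'
  have hcρ2 : 0 < (c + ρ) * N := mul_pos (by linarith) hN'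
  have ha1 : (c - ρ) * N ≤ a := by rw [ha]; exact Nat.le_ceil _
  have ha2 : (a : ℝ) < (c - ρ) * N + 1 := by
    rw [ha]; exact Nat.ceil_lt_add_one hcρ.le
  have hb1 : (c + ρ) * N ≤ b := by rw [hbb]; exact Nat.le_ceil _
  have hb2 : (b : ℝ) < (c + ρ) * N + 1 := by
    rw [hbb]; exact Nat.ceil_lt_add_one hcρ2.le
  have hab : a ≤ b := by
    rw [ha, hbb]
    exact Nat.ceil_le_ceil (mul_le_mul_of_nonneg_right (by linarith) hN'.le)
  set s1 : ℝ := ((a : ℝ) - 1 / 2) / N with hs1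
  set s2 : ℝ := ((b : ℝ) - 1 / 2) / N with hs2
  have hiN : 0 < 1 / (N : ℝ) := by positivity
  have b1 : c - ρ - 1 / N ≤ s1 := by
    rw [hs1, le_div_iff₀ hN']
    have : (c - ρ - 1 / N) * N = (c - ρ) * N - 1 := by field_simp
    rw [this]; linarith
  have b2 : s1 ≤ c - ρ + 1 / N := by
    rw [hs1, div_le_iff₀ hN']
    have : (c - ρ + 1 / N) * N = (c - ρ) * N + 1 := by field_simp
    rw [this]; linarith
  have b3 : c + ρ - 1 / N ≤ s2 := by
    rw [hs2, le_div_iff₀ hN']
    have : (c + ρ - 1 / N) * N = (c + ρ) * N - 1 := by field_simp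
    rw [this]; linarith
  have b4 : s2 ≤ c + ρ + 1 / N := by
    rw [hs2, div_le_iff₀ hN']
    have : (c + ρ + 1 / N) * N = (c + ρ) * N + 1 := by field_simp
    rw [this]; linarith
  -- bounds
  have hMs : ∀ s y : ℝ, 3 / 4 * ρ ≤ |s| → |s| ≤ 2 * ρ → |y| ≤ hh →
      ‖g (s + y * Complex.I)‖ ≤ C₀ * E := by
    intro s y q1 q2 q3
    refine (hb s y q2 (q3.trans h2)).trans ?_
    refine mul_le_mul_of_nonneg_left (Real.exp_le_exp.2 ?_) hC₀
    refine mul_le_mul_of_nonneg_left ?_ hN'.le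
    have q4 : (3 / 4 * ρ) ^ 2 ≤ s ^ 2 := by
      rw [← sq_abs s]; exact pow_le_pow_left₀ (by positivity) q1 2
    have q5 := mul_le_mul_of_nonneg_left q4 hk.le
    have q6 : k * (3 / 4 * ρ) ^ 2 = 9 / 16 * (k * ρ ^ 2) := by ring
    have q7 : 0 ≤ k * ρ ^ 2 := by positivity
    linarith
  have hMt : ∀ s y : ℝ, |s| ≤ 2 * ρ → |y| = hh →
      ‖g (s + y * Complex.I)‖ ≤ C₀ * (E * Real.exp (2 * π * N * hh)) := by
    intro s y q2 q3
    refine (hb s y q2 (q3.le.trans h2)).trans ?_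
    rw [hE, ← Real.exp_add]
    refine mul_le_mul_of_nonneg_left (Real.exp_le_exp.2 ?_) hC₀
    have q5 : N * (V - κ) + 2 * π * N * hh = N * (V - κ + 2 * π * hh) := by ring
    rw [q5]
    refine mul_le_mul_of_nonneg_left ?_ hN'.le
    have q4 : 0 ≤ k * s ^ 2 := by positivity
    rw [q3]
    have q6 : 3.14 * hh ≤ π * hh := mul_le_mul_of_nonneg_right hπ.le hh0.le
    have q7 : 2 * π * hh = 2 * (π * hh) := by ring
    rw [q7]
    norm_num at q6
    linarith
  have hMl : ∀ s : ℝ, |s| ≤ 2 * ρ → η ≤ |s - z.re| → ‖g (s + z.im * Complex.I)‖ ≤ C₀ * E := by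
    intro s q2 q3
    have q6 : |z.im| ≤ ε := (Complex.abs_im_le_norm _).trans hz
    have q7 : |z.re| ≤ ε := (Complex.abs_re_le_norm _).trans hz
    refine (hb s _ q2 (q6.trans (by linarith))).trans ?_
    refine mul_le_mul_of_nonneg_left (Real.exp_le_exp.2 ?_) hC₀
    refine mul_le_mul_of_nonneg_left ?_ hN'.le
    have q8 : 3 / 4 * η ≤ |s| := by
      have := abs_sub_abs_le_abs_sub (s - z.re) s
      have e : s - z.re - s = -z.re := by ring
      rw [e, abs_neg] at this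
      linarith
    have q4 : (3 / 4 * η) ^ 2 ≤ s ^ 2 := by
      rw [← sq_abs s]; exact pow_le_pow_left₀ (by positivity) q8 2
    have q5 := mul_le_mul_of_nonneg_left q4 hk.le
    have q9 : k * (3 / 4 * η) ^ 2 = 9 / 16 * (k * η ^ 2) := by ring
    have q10 : 0 ≤ k * η ^ 2 := by positivity
    linarith
  -- the sum and the integral over the segment
  have hsi := Pool.Agent.W991.AX.si (fun w => g (w - c)) N a b hh (C₀ * E)
    (C₀ * (E * Real.exp (2 * π * N * hh))) hN hab hNh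
    (by
      intro x y q1 q2 q3
      have q4 : |x - c| ≤ 2 * ρ := by rw [abs_le]; constructor <;> linarith
      have e : (x : ℂ) + y * Complex.I - c = ((x - c : ℝ) : ℂ) + y * Complex.I := by push_cast; ring
      have q5 : (x : ℂ) + y * Complex.I - c ∈ ball (0 : ℂ) R := by
        rw [e, mem_ball_zero_iff]
        exact (small_pt q4 (q3.trans h2)).trans_lt hR
      exact DifferentiableAt.comp (g := g) (f := fun w : ℂ => w - c) _ (hd _ q5) (by fun_prop))
    (by
      intro y q3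
      constructor
      · have e : ((((a : ℝ) - 1 / 2) / N : ℝ) : ℂ) + y * Complex.I - c =
            ((s1 - c : ℝ) : ℂ) + y * Complex.I := by rw [hs1]; push_cast; ring
        simp only [e]
        refine hMs _ y ?_ ?_ q3
        · rw [le_abs]; right; linarith
        · rw [abs_le]; constructor <;> linarith
      · have e : ((((b : ℝ) - 1 / 2) / N : ℝ) : ℂ) + y * Complex.I - c =
            ((s2 - c : ℝ) : ℂ) + y * Complex.I := by rw [hs2]; push_cast; ring
        simp only [e]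
        refine hMs _ y ?_ ?_ q3
        · rw [le_abs]; left; linarith
        · rw [abs_le]; constructor <;> linarith)
    (by
      intro x q1 q2
      have q4 : |x - c| ≤ 2 * ρ := by rw [abs_le]; constructor <;> linarith
      constructor
      · have e : (x : ℂ) + hh * Complex.I - c = ((x - c : ℝ) : ℂ) + hh * Complex.I := by
          push_cast; ring
        simp only [e]
        exact hMt _ _ q4 (abs_of_pos hh0)
      · have e : (x : ℂ) - hh * Complex.I - c = ((x - c : ℝ) : ℂ) + ((-hh : ℝ) : ℂ) * Complex.I := by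
          push_cast; ring
        simp only [e]
        exact hMt _ _ q4 (by rw [abs_neg, abs_of_pos hh0]))
  have hWs : ∑ d ∈ Ws c ρ N, g ((d : ℂ) / N - c) = ∑ d ∈ Finset.Ico a b, g ((d : ℂ) / N - c) := by
    unfold Ws
    rw [ha, hbb]
  -- the contour
  have hco := contour (g := g) (s1 := s1 - c) (s2 := s2 - c) (η := η) (M := C₀ * E) (z := z) hη
    (by
      have := (Complex.abs_re_le_norm z).trans hz
      have := (abs_le.1 this).1
      linarith)
    (by
      have := (Complex.abs_re_le_norm z).trans hz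
      have := (abs_le.1 this).2
      linarith)
    (by
      intro x y q1 q2 q3
      have q6 : |z.im| ≤ ε := (Complex.abs_im_le_norm _).trans hz
      refine hd _ ?_
      rw [mem_ball_zero_iff]
      refine (small_pt (ρ := ρ) ?_ (q3.trans (q6.trans (by linarith)))).trans_lt hR
      rw [abs_le]; constructor <;> linarith)
    (by
      intro y q3
      have q6 : |z.im| ≤ ε := (Complex.abs_im_le_norm _).trans hz
      constructor
      · refine hMs _ y ?_ ?_ (q3.trans (q6.trans (by linarith)))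
        · rw [le_abs]; right; linarith
        · rw [abs_le]; constructor <;> linarith
      · refine hMs _ y ?_ ?_ (q3.trans (q6.trans (by linarith)))
        · rw [le_abs]; left; linarith
        · rw [abs_le]; constructor <;> linarith)
    (by
      intro x q1 q2 q3
      refine hMl x ?_ q3
      rw [abs_le]; constructor <;> linarith)
  have hint : ∫ x in s1..s2, g ((x : ℂ) - c) = ∫ x in (s1 - c)..(s2 - c), g (x : ℂ) := by
    rw [← intervalIntegral.integral_comp_sub_right (fun x : ℝ => g (x : ℂ)) c]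
    refine intervalIntegral.integral_congr fun x _ => ?_
    push_cast
    rfl
  rw [hWs]
  have key : (∑ d ∈ Finset.Ico a b, g ((d : ℂ) / N - c)) - N * ∫ t in (-η)..η, g (z + t) =
      ((∑ d ∈ Finset.Ico a b, g ((d : ℂ) / N - c)) - N * ∫ x in s1..s2, g ((x : ℂ) - c)) +
      N * ((∫ x in (s1 - c)..(s2 - c), g (x : ℂ)) - ∫ t in (-η)..η, g (z + t)) := by
    rw [hint]; ring
  rw [key]
  refine (norm_add_le _ _).trans ?_
  rw [norm_mul, Complex.norm_natCast]
  have f1 : 4 * (C₀ * E + ((b : ℝ) - a) * (C₀ * (E * Real.exp (2 * π * N * hh))) *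
      Real.exp (-(2 * π * N * hh))) = 4 * (C₀ * E * (1 + ((b : ℝ) - a))) := by
    have : Real.exp (2 * π * N * hh) * Real.exp (-(2 * π * N * hh)) = 1 := by
      rw [← Real.exp_add, add_neg_cancel, Real.exp_zero]
    linear_combination (4 * ((b : ℝ) - a) * C₀ * E) * this
  have f2 : (b : ℝ) - a ≤ 2 * N := by
    have q1 : ρ * N ≤ 1 / 2 * N := mul_le_mul_of_nonneg_right hρ2 hN'.le
    linarith [add_mul c ρ (N : ℝ), sub_mul c ρ (N : ℝ)]
  have f3 := hsi.trans (le_of_eq f1)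
  have hCE : 0 ≤ C₀ * E := by positivity
  have f4 : 4 * (C₀ * E * (1 + ((b : ℝ) - a))) ≤ C₀ * E * (12 * N) := by
    have : 1 + ((b : ℝ) - a) ≤ 3 * N := by linarith
    have q1 := mul_le_mul_of_nonneg_left this hCE
    linarith
  have f5 : 2 * |z.im| + (s2 - c - (s1 - c)) ≤ 4 := by
    have q6 : |z.im| ≤ ε := (Complex.abs_im_le_norm _).trans hz
    linarith
  have f6 := hco.trans (mul_le_mul_of_nonneg_left f5 hCE)
  have f7 := mul_le_mul_of_nonneg_left f6 hN'.le
  calc _ ≤ C₀ * E * (12 * N) + N * (C₀ * E * 4) := add_le_add (f3.trans f4) f7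
    _ = C₀ * 16 * N * E := by ring

end Run7.h260.VX
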