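import Pool.Agent.Run7.h260.VX.X2

/-!
# Uniform expansions: elimination of one variable
-/

set_option autoImplicit false

namespace Run7.h260.VX

open Filter Topology Metric Function
open Pool.Agent.W719.AX (UX S_LX)
open Run7.h260.VC
open scoped Real

variable {ι : Type} [Fintype ι] [DecidableEq ι]

/-- expansions of functions of many variables -/
structure EXn (R : ℝ) (Q : (ι → ℂ) → ℂ) (f : ℕ → (ι → ℂ) → ℂ) (A : ℕ → (ι → ℂ) → ℂ) : Prop where
  pos : 0 < R
  an : ∀ x ∈ ball (0 : ι → ℂ) R, AnalyticAt ℂ Q x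
  ux : UX (fun N x => Complex.exp (-(N * Q x)) * f N x) A (ball 0 R)
  fd : ∀ᶠ N : ℕ in atTop, ∀ x ∈ ball (0 : ι → ℂ) R, ∀ i,
    DifferentiableOn ℂ (fun w => f N (update x i w)) (ball 0 R)
  nz : ∃ c : ℝ, 0 < c ∧ ∀ x ∈ ball (0 : ι → ℂ) R, c ≤ ‖A 0 x‖

lemma upd_ball {x : ι → ℂ} {i : ι} {w : ℂ} {r : ℝ} (hx : x ∈ ball (0 : ι → ℂ) r)
    (hw : w ∈ ball (0 : ℂ) r) : update x i w ∈ ball (0 : ι → ℂ) r := by
  rw [mem_ball_zero_iff] at *
  exact upd_norm ((norm_nonneg w).trans_lt hw) hx hw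

lemma EXn.coef {R : ℝ} {Q : (ι → ℂ) → ℂ} {f A : ℕ → (ι → ℂ) → ℂ} (h : EXn R Q f A) (k : ℕ)
    {x : ι → ℂ} (hx : x ∈ ball (0 : ι → ℂ) R) (i : ι) :
    DifferentiableOn ℂ (fun w => A k (update x i w)) (ball 0 R) := by
  refine Pool.Agent.W303.AX.uxan (fun N w => Complex.exp (-(N * Q (update x i w))) * f N (update x i w))
    (fun k w => A k (update x i w)) (ball 0 R) isOpen_ball ?_ ?_ k
  · filter_upwards [h.fd] with N hN
    refine DifferentiableOn.mul ?_ (hN x hx i)
    intro w hw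
    have h1 := (slice (Q := Q) (h.an _ (upd_ball (i := i) hx hw)).differentiableAt).differentiableAt
    exact ((h1.const_mul (N : ℂ)).fun_neg.cexp).differentiableWithinAt
  · exact ux_comp h.ux (fun w => update x i w) fun w hw => upd_ball hx hw

/-- the geometry near the origin -/
theorem geo {S : Finset ι} {k : ℝ} {Q : (ι → ℂ) → ℂ} (h : Qm S k Q) {i : ι}
    (hi : i ∈ S) (hQ : AnalyticAt ℂ Q 0) (h0 : Dp Q i 0 = 0) {om : (ι → ℂ) → ℂ}
    (a1 : AnalyticAt ℂ om 0) (a2 : om 0 = 0) {ρ₁ : ℝ} (hρ₁ : 0 < ρ₁) :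
    ∃ ρ : ℝ, 0 < ρ ∧ ρ < ρ₁ ∧ ∀ ε : ℝ, 0 < ε → ∀ᶠ x in 𝓝 (0 : ι → ℂ), ‖om x‖ ≤ ε ∧
      ∀ s y : ℝ, |s| ≤ 2 * ρ → |y| ≤ ρ → (Q (update x i (s + y * Complex.I))).re ≤
        (Q (update x i (om x))).re + ε - k * s ^ 2 + 6 * |y| := by
  have hD1 := Dp_an i hQ
  have hev : ∀ᶠ x : ι → ℂ in 𝓝 0, AnalyticAt ℂ Q x ∧ ‖Dp Q i x‖ < 6 := by
    refine hQ.eventually_analyticAt.and ?_
    have h3 : ContinuousAt (fun x => ‖Dp Q i x‖) 0 := hD1.continuousAt.norm
    exact h3.eventually_lt continuousAt_const (by rw [h0]; norm_num)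
  obtain ⟨r, hr, hb⟩ := Metric.eventually_nhds_iff.1 hev
  have hb' : ∀ x : ι → ℂ, ‖x‖ < r → AnalyticAt ℂ Q x ∧ ‖Dp Q i x‖ < 6 :=
    fun x hx => hb (by rwa [dist_zero_right])
  have hom : Tendsto om (𝓝 0) (𝓝 0) := by
    have := a1.continuousAt.tendsto
    rwa [a2] at this
  have hreal : ∀ᶠ t : ℝ in 𝓝 0, (Q (update 0 i (t : ℂ))).re ≤ (Q 0).re - k * t ^ 2 := by
    have h1 : Tendsto (fun t : ℝ => update (0 : ι → ℝ) i t) (𝓝 0) (𝓝 0) := by
      have h2 : Continuous fun w : ℝ => update (0 : ι → ℝ) i w :=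
        continuous_const.update i continuous_id
      have := h2.tendsto 0
      simpa using this
    filter_upwards [h1.eventually h] with t ht
    have h3 := ht (by
      intro j hj
      have : j ≠ i := fun h => hj (h ▸ hi)
      simp [this])
    rw [rc_update, rc_zero] at h3
    refine h3.trans (le_of_eq ?_)
    have e : ∑ j, update (0 : ι → ℝ) i t j ^ 2 = t ^ 2 := by
      rw [Finset.sum_eq_single i]
      · simp
      · intro j _ hj; simp [hj]
      · simp
    rw [e]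
  obtain ⟨δ, hδ, hb2⟩ := Metric.eventually_nhds_iff.1 hreal
  set ρ := min (ρ₁ / 2) (min (r / 8) (δ / 4)) with hρ
  have hρ0 : 0 < ρ := by positivity
  have hρ1 : ρ < ρ₁ := (min_le_left _ _).trans_lt (by linarith)
  have hρr : ρ ≤ r / 8 := (min_le_right _ _).trans (min_le_left _ _)
  have hρδ : 2 * ρ < δ := by
    have : ρ ≤ δ / 4 := (min_le_right _ _).trans (min_le_right _ _)
    linarith
  have hreal' : ∀ t : ℝ, |t| ≤ 2 * ρ → (Q (update 0 i (t : ℂ))).re ≤ (Q 0).re - k * t ^ 2 := by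
    intro t ht
    refine hb2 ?_
    rw [Real.dist_eq, sub_zero]
    exact ht.trans_lt hρδ
  have hsc : ∀ w : ℂ, ‖w‖ < r → ContinuousAt (fun p : (ι → ℂ) × ℂ => Q (update p.1 i p.2)) (0, w) := by
    intro w hw
    have h1 : ContinuousAt Q (update (0 : ι → ℂ) i w) :=
      (hb' _ (upd_norm hr (by simpa using hr) hw)).1.continuousAt
    exact ContinuousAt.comp (g := Q) (f := fun p : (ι → ℂ) × ℂ => update p.1 i p.2) h1
      (upd_cont i).continuousAt
  have hcc : ContinuousAt (fun x : ι → ℂ => (Q (update x i (om x))).re) 0 := by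
    have h1 : AnalyticAt ℂ (fun x : ι → ℂ => Q (update x i (om x))) 0 := by
      refine AnalyticAt.fun_comp ?_ (upd_an i a1)
      have hu0 : update (0 : ι → ℂ) i (om 0) = 0 := by rw [a2]; simp
      rw [hu0]
      exact hQ
    exact Complex.continuous_re.continuousAt.comp h1.continuousAt
  have hc0 : Q (update (0 : ι → ℂ) i (om 0)) = Q 0 := by rw [a2]; simp
  have hline : ∀ s y : ℝ, |s| ≤ 2 * ρ → |y| ≤ ρ →
      (Q (update (0 : ι → ℂ) i (s + y * Complex.I))).re ≤ (Q 0).re - k * s ^ 2 + 6 * |y| := by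
    intro s y hs hy
    have h1 : ‖Q (update (0 : ι → ℂ) i (s + y * Complex.I)) - Q (update (0 : ι → ℂ) i (s : ℂ))‖ ≤
        6 * ‖((s : ℂ) + y * Complex.I) - s‖ := by
      refine Convex.norm_image_sub_le_of_norm_hasDerivWithin_le (s := ball (0 : ℂ) r)
        (f := fun w => Q (update (0 : ι → ℂ) i w)) (f' := fun w => Dp Q i (update (0 : ι → ℂ) i w))
        ?_ ?_ (convex_ball 0 r) ?_ ?_
      · intro w hw
        rw [mem_ball_zero_iff] at hw
        exact (slice (hb' _ (upd_norm hr (by simpa using hr) hw)).1.differentiableAt).hasDerivWithinAt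
      · intro w hw
        rw [mem_ball_zero_iff] at hw
        exact (hb' _ (upd_norm hr (by simpa using hr) hw)).2.le
      · rw [mem_ball_zero_iff, Complex.norm_real, Real.norm_eq_abs]; linarith
      · rw [mem_ball_zero_iff]
        exact (small_pt hs hy).trans_lt (by linarith)
    have h2 : ‖((s : ℂ) + y * Complex.I) - s‖ = |y| := by
      rw [add_sub_cancel_left, norm_mul, Complex.norm_I, mul_one, Complex.norm_real,
        Real.norm_eq_abs]
    rw [h2] at h1
    have h3 := (Complex.abs_re_le_norm _).trans h1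
    rw [Complex.sub_re] at h3
    have h4 := (abs_le.1 h3).2
    have h5 := hreal' s hs
    linarith
  refine ⟨ρ, hρ0, hρ1, fun ε hε => ?_⟩
  have hK : IsCompact (closedBall (0 : ℂ) (3 * ρ)) := isCompact_closedBall _ _
  have g1 : ∀ᶠ x in 𝓝 (0 : ι → ℂ), ∀ w ∈ closedBall (0 : ℂ) (3 * ρ),
      (Q (update x i w)).re < (Q (update 0 i w)).re + ε / 2 := by
    refine hK.eventually_forall_of_forall_eventually fun w hw => ?_
    rw [mem_closedBall_zero_iff] at hw
    have hwr : ‖w‖ < r := by linarith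
    have h1 : ContinuousAt (fun z : (ι → ℂ) × ℂ => (Q (update z.1 i z.2)).re) (0, w) :=
      Complex.continuous_re.continuousAt.comp (hsc w hwr)
    have h2 : ContinuousAt (fun z : (ι → ℂ) × ℂ => (Q (update (0 : ι → ℂ) i z.2)).re + ε / 2) (0, w) := by
      refine ContinuousAt.add ?_ continuousAt_const
      have h3 : ContinuousAt (fun z : (ι → ℂ) × ℂ => ((0 : ι → ℂ), z.2)) (0, w) := by fun_prop
      exact Complex.continuous_re.continuousAt.comp (ContinuousAt.comp (g := fun p : (ι → ℂ) × ℂ =>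
        Q (update p.1 i p.2)) (f := fun z : (ι → ℂ) × ℂ => ((0 : ι → ℂ), z.2)) (hsc _ hwr) h3)
    exact h1.eventually_lt h2 (by simpa using hε)
  have g2 : ∀ᶠ x in 𝓝 (0 : ι → ℂ), (Q 0).re - ε / 2 < (Q (update x i (om x))).re := by
    refine continuousAt_const.eventually_lt hcc ?_
    rw [hc0]; linarith
  have g3 : ∀ᶠ x in 𝓝 (0 : ι → ℂ), ‖om x‖ < ε := by
    have : Tendsto (fun x : ι → ℂ => ‖om x‖) (𝓝 0) (𝓝 ‖(0 : ℂ)‖) := hom.norm
    exact this.eventually_lt_const (by simpa using hε)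
  filter_upwards [g1, g2, g3] with x g1 g2 g3
  refine ⟨g3.le, fun s y hs hy => ?_⟩
  have h1 := g1 (s + y * Complex.I) (by rw [mem_closedBall_zero_iff]; exact small_pt hs hy)
  have h2 := hline s y hs hy
  linarith

/-- the sum over the window of one variable -/
theorem stepX {S : Finset ι} {k : ℝ} {Q : (ι → ℂ) → ℂ} (hk : 0 < k) (h : Qm S k Q) {i : ι}
    (hi : i ∈ S) (hQ : AnalyticAt ℂ Q 0) (h0 : Dp Q i 0 = 0)
    {om : (ι → ℂ) → ℂ} (a1 : AnalyticAt ℂ om 0) (a2 : om 0 = 0)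
    (a4 : ∀ᶠ x in 𝓝 0, Dp Q i (update x i (om x)) = 0) {f A : ℕ → (ι → ℂ) → ℂ} {R : ℝ}
    (hE : EXn R Q f A) {c : ℝ} (hc : 0 < c) {ρ₀ : ℝ} (hρ₀ : 0 < ρ₀) :
    ∃ ρ : ℝ, 0 < ρ ∧ ρ < ρ₀ ∧ ∃ (R' : ℝ) (A' : ℕ → (ι → ℂ) → ℂ),
      EXn R' (fun x => Q (update x i (om x)))
        (fun N x => ((Real.sqrt N : ℝ) : ℂ)⁻¹ * Sm c ρ i f N x) A' := by
  have hneg := h.neg hi hQ h0
  have hD1 := Dp_an i hQ
  have hD2 := Dp_an i hD1
  obtain ⟨B₀, hB₀⟩ : ∃ B₀ : ℝ, B₀ = ‖Q 0‖ + 1 := ⟨_, rfl⟩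
  obtain ⟨D₀, hD₀⟩ : ∃ D₀ : ℝ, D₀ = ‖Dp (Dp Q i) i 0‖ + 1 := ⟨_, rfl⟩
  have hB0 : 0 < B₀ := by rw [hB₀]; positivity
  have hD0 : 0 < D₀ := by rw [hD₀]; positivity
  have hev : ∀ᶠ x : ι → ℂ in 𝓝 0, AnalyticAt ℂ Q x ∧ AnalyticAt ℂ (Dp Q i) x ∧
      (Dp (Dp Q i) i x).re < -k ∧ ‖Dp (Dp Q i) i x‖ < D₀ ∧ ‖Q x‖ < B₀ := by
    refine hQ.eventually_analyticAt.and (hD1.eventually_analyticAt.and (Eventually.and ?_
      (Eventually.and ?_ ?_)))
    · have h3 : ContinuousAt (fun x => (Dp (Dp Q i) i x).re) 0 :=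
        Complex.continuous_re.continuousAt.comp hD2.continuousAt
      exact h3.eventually_lt continuousAt_const (by linarith)
    · exact hD2.continuousAt.norm.eventually_lt continuousAt_const (by rw [hD₀]; linarith)
    · exact hQ.continuousAt.norm.eventually_lt continuousAt_const (by rw [hB₀]; linarith)
  obtain ⟨r₀, hr₀, hb⟩ := Metric.eventually_nhds_iff.1 hev
  have hRp := hE.pos
  obtain ⟨r, hrd⟩ : ∃ r : ℝ, r = min r₀ R := ⟨_, rfl⟩
  have hr : 0 < r := by rw [hrd]; positivity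
  have hrR : r ≤ R := by rw [hrd]; exact min_le_right _ _
  have hb' : ∀ x : ι → ℂ, ‖x‖ < r → AnalyticAt ℂ Q x ∧ AnalyticAt ℂ (Dp Q i) x ∧
      (Dp (Dp Q i) i x).re < -k ∧ ‖Dp (Dp Q i) i x‖ < D₀ ∧ ‖Q x‖ < B₀ :=
    fun x hx => hb (by rw [dist_zero_right]; exact hx.trans_le (by rw [hrd]; exact min_le_left _ _))
  obtain ⟨δ', hδ', hδ'r, hLX⟩ := Pool.Agent.W762.AX.lx Pool.Agent.W303.AX.uxbd (r / 4) (2 * B₀) k
    (by positivity) hk
  obtain ⟨ρ, hρ, hρ1, hgeo⟩ := geo h hi hQ h0 a1 a2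
    (ρ₁ := min ρ₀ (min (r / 8) (min (c / 2) (1 / 2)))) (by positivity)
  have hρρ₀ : ρ < ρ₀ := hρ1.trans_le (min_le_left _ _)
  have hρr : ρ < r / 8 := hρ1.trans_le ((min_le_right _ _).trans (min_le_left _ _))
  have hρc : ρ < c / 2 := hρ1.trans_le ((min_le_right _ _).trans ((min_le_right _ _).trans
    (min_le_left _ _)))
  have hρ2 : ρ < 1 / 2 := hρ1.trans_le ((min_le_right _ _).trans ((min_le_right _ _).trans
    (min_le_right _ _)))
  obtain ⟨η, hηd⟩ : ∃ η : ℝ, η = min δ' (ρ / 2) := ⟨_, rfl⟩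
  have hη : 0 < η := by rw [hηd]; positivity
  have hηδ : η ≤ δ' := by rw [hηd]; exact min_le_left _ _
  have hηρ : η ≤ ρ / 2 := by rw [hηd]; exact min_le_right _ _
  obtain ⟨hh, hhd⟩ : ∃ hh : ℝ, hh = min ρ (k * ρ ^ 2 / 48) := ⟨_, rfl⟩
  have hh0 : 0 < hh := by rw [hhd]; positivity
  have hhρ : hh ≤ ρ := by rw [hhd]; exact min_le_left _ _
  have hhk : 48 * hh ≤ k * ρ ^ 2 := by
    have : hh ≤ k * ρ ^ 2 / 48 := by rw [hhd]; exact min_le_right _ _
    linarith
  obtain ⟨ε, hεd⟩ : ∃ ε : ℝ, ε = min (k * ρ ^ 2 / 8) (min (hh / 10) (min (η / 4)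
    (min (k * η ^ 2 / 28) (r / 8)))) := ⟨_, rfl⟩
  have hε : 0 < ε := by rw [hεd]; positivity
  have q1 : ε ≤ k * ρ ^ 2 / 8 := by rw [hεd]; exact min_le_left _ _
  have q2 : ε ≤ hh / 10 := by rw [hεd]; exact (min_le_right _ _).trans (min_le_left _ _)
  have q3 : ε ≤ η / 4 := by
    rw [hεd]; exact (min_le_right _ _).trans ((min_le_right _ _).trans (min_le_left _ _))
  have q4 : ε ≤ k * η ^ 2 / 28 := by
    rw [hεd]; exact (min_le_right _ _).trans ((min_le_right _ _).trans ((min_le_right _ _).trans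
      (min_le_left _ _)))
  have q5 : ε ≤ r / 8 := by
    rw [hεd]; exact (min_le_right _ _).trans ((min_le_right _ _).trans ((min_le_right _ _).trans
      (min_le_right _ _)))
  obtain ⟨κ, hκd⟩ : ∃ κ : ℝ, κ = min (k * ρ ^ 2 / 4) (min (hh / 10) (k * η ^ 2 / 4)) := ⟨_, rfl⟩
  have hκ : 0 < κ := by rw [hκd]; positivity
  have k1 : κ ≤ k * ρ ^ 2 / 4 := by rw [hκd]; exact min_le_left _ _
  have k2 : κ ≤ hh / 10 := by rw [hκd]; exact (min_le_right _ _).trans (min_le_left _ _)
  have k3 : κ ≤ k * η ^ 2 / 4 := by rw [hκd]; exact (min_le_right _ _).trans (min_le_right _ _)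
  have hV : AnalyticAt ℂ (fun x : ι → ℂ => Q (update x i (om x))) 0 := by
    refine AnalyticAt.fun_comp ?_ (upd_an i a1)
    have hu0 : update (0 : ι → ℂ) i (om 0) = 0 := by rw [a2]; simp
    rw [hu0]
    exact hQ
  obtain ⟨R₁, hR₁, hall⟩ := Metric.eventually_nhds_iff_ball.1
    (a4.and (hV.eventually_analyticAt.and (hgeo ε hε)))
  obtain ⟨R', hR'd⟩ : ∃ R' : ℝ, R' = min R₁ r := ⟨_, rfl⟩
  have hR' : 0 < R' := by rw [hR'd]; positivity
  have hR'r : R' ≤ r := by rw [hR'd]; exact min_le_right _ _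
  have hall' : ∀ x ∈ ball (0 : ι → ℂ) R', ‖x‖ < r ∧ Dp Q i (update x i (om x)) = 0 ∧
      AnalyticAt ℂ (fun x : ι → ℂ => Q (update x i (om x))) x ∧ ‖om x‖ ≤ ε ∧
      ∀ s y : ℝ, |s| ≤ 2 * ρ → |y| ≤ ρ → (Q (update x i (s + y * Complex.I))).re ≤
        (Q (update x i (om x))).re + ε - k * s ^ 2 + 6 * |y| := by
    intro x hx
    have h1 := hall x (ball_subset_ball (by rw [hR'd]; exact min_le_left _ _) hx)
    rw [mem_ball_zero_iff] at hx
    exact ⟨by linarith, h1.1, h1.2.1, h1.2.2.1, h1.2.2.2⟩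
  have hin : ∀ x ∈ ball (0 : ι → ℂ) R', ∀ u ∈ ball (0 : ℂ) (r / 4), ‖update x i (om x + u)‖ < r := by
    intro x hx u hu
    obtain ⟨c1, -, -, c4, -⟩ := hall' x hx
    rw [mem_ball_zero_iff] at hu
    refine upd_norm hr c1 ?_
    have := norm_add_le (om x) u
    linarith
  have hinR : ∀ x ∈ ball (0 : ι → ℂ) R', ∀ u ∈ ball (0 : ℂ) (r / 4),
      update x i (om x + u) ∈ ball (0 : ι → ℂ) R := by
    intro x hx u hu
    rw [mem_ball_zero_iff]
    exact (hin x hx u hu).trans_le hrR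
  have hqd : ∀ x ∈ ball (0 : ι → ℂ) R', ∀ u ∈ ball (0 : ℂ) (r / 4),
      HasDerivAt (fun u => Q (update x i (om x + u)) - Q (update x i (om x)))
        (Dp Q i (update x i (om x + u))) u := by
    intro x hx u hu
    exact (HasDerivAt.comp_const_add (om x) u
      (slice (hb' _ (hin x hx u hu)).1.differentiableAt)).sub_const _
  have hr4 : (0 : ℂ) ∈ ball (0 : ℂ) (r / 4) := mem_ball_self (by positivity)
  have hq2 : ∀ x ∈ ball (0 : ι → ℂ) R',
      deriv (deriv fun u => Q (update x i (om x + u)) - Q (update x i (om x))) 0 =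
        Dp (Dp Q i) i (update x i (om x)) := by
    intro x hx
    have h1 : deriv (fun u => Q (update x i (om x + u)) - Q (update x i (om x))) =ᶠ[𝓝 0]
        fun u => Dp Q i (update x i (om x + u)) := by
      filter_upwards [isOpen_ball.mem_nhds hr4] with u hu
      exact (hqd x hx u hu).deriv
    have h2 := hin x hx 0 hr4
    rw [h1.deriv_eq]
    have h3 := HasDerivAt.comp_const_add (om x) 0
      (slice (Q := Dp Q i) (x := x) (i := i) (w := om x + 0) (hb' _ h2).2.1.differentiableAt)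
    rw [h3.deriv, add_zero]
  obtain ⟨A', hUX, hA'⟩ := hLX η hη hηδ (ι → ℂ) (ball 0 R')
    (fun x u => Q (update x i (om x + u)) - Q (update x i (om x)))
    (fun N p => Complex.exp (-(N * Q (update p.1 i (om p.1 + p.2)))) * f N (update p.1 i (om p.1 + p.2)))
    (fun k p => A k (update p.1 i (om p.1 + p.2)))
    (by
      intro x hx
      obtain ⟨c1, c2, c3, c4, c5⟩ := hall' x hx
      have h2 := hin x hx 0 hr4
      rw [add_zero] at h2
      refine ⟨fun u hu => (hqd x hx u hu).differentiableAt.differentiableWithinAt, ?_, ?_, ?_, ?_⟩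
      · intro u hu
        refine (norm_sub_le _ _).trans ?_
        have := (hb' _ (hin x hx u hu)).2.2.2.2
        have := (hb' _ h2).2.2.2.2
        linarith
      · simp
      · rw [(hqd x hx 0 hr4).deriv, add_zero]
        exact c2
      · rw [hq2 x hx]
        exact (hb' _ h2).2.2.1.le)
    (by
      filter_upwards [hE.fd] with N hN x hx
      have hxR : x ∈ ball (0 : ι → ℂ) R := ball_subset_ball (hR'r.trans hrR) hx
      intro u hu
      have h1 := (hqd x hx u hu).differentiableAt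
      have h2 : DifferentiableAt ℂ (fun u => Q (update x i (om x + u))) u := by
        have := h1.add_const (Q (update x i (om x)))
        simpa using this
      have hw : om x + u ∈ ball (0 : ℂ) R := by
        have h3 := hinR x hx u hu
        rw [mem_ball_zero_iff] at h3 ⊢
        have h4 := norm_le_pi_norm (update x i (om x + u)) i
        rw [update_self] at h4
        linarith
      have h5 := (hN x hxR i).differentiableAt (isOpen_ball.mem_nhds hw)
      have h6 : DifferentiableAt ℂ (fun u => f N (update x i (om x + u))) u :=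
        DifferentiableAt.comp (g := fun w => f N (update x i w)) (f := fun u : ℂ => om x + u) u h5
          (by fun_prop)
      exact (((h2.const_mul (N : ℂ)).fun_neg.cexp).mul h6).continuousAt.continuousWithinAt)
    (by
      intro j x hx
      have hxR : x ∈ ball (0 : ι → ℂ) R := ball_subset_ball (hR'r.trans hrR) hx
      have h1 := hE.coef j hxR i
      refine h1.comp (f := fun u : ℂ => om x + u) (by fun_prop) ?_
      intro u hu
      have h3 := hinR x hx u hu
      show om x + u ∈ _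
      rw [mem_ball_zero_iff] at h3 ⊢
      have h4 := norm_le_pi_norm (update x i (om x + u)) i
      rw [update_self] at h4
      linarith)
    (ux_comp hE.ux (fun p : (ι → ℂ) × ℂ => update p.1 i (om p.1 + p.2)) (by
      rintro ⟨x, u⟩ ⟨hx, hu⟩
      exact hinR x hx u hu))
  refine ⟨ρ, hρ, hρρ₀, R', A', hR', fun x hx => (hall' x hx).2.2.1, ?_, ?_, ?_⟩
  · -- the expansion
    obtain ⟨C₀, hC₀, hbd⟩ := ux_bd hE.ux
    refine ux_small hUX (κ := κ) (C := C₀ * 16) (m := 1) hκ (by positivity) ?_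
    have t1 : ∀ᶠ N : ℕ in atTop, 1 / (N : ℝ) ≤ ρ / 4 :=
      ((tendsto_one_div_atTop_nhds_zero_nat (𝕜 := ℝ)).eventually_lt_const
        (show (0 : ℝ) < ρ / 4 by positivity)).mono fun N hN => hN.le
    have t2 : ∀ᶠ N : ℕ in atTop, 1 ≤ (N : ℝ) * hh := by
      have := (tendsto_natCast_atTop_atTop (R := ℝ)).atTop_mul_const hh0
      exact this.eventually_ge_atTop 1
    filter_upwards [hbd, hE.fd, t1, t2, eventually_ge_atTop 1] with N hbd hfd t1 t2 hN x hx
    obtain ⟨c1, c2, c3, c4, c5⟩ := hall' x hx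
    have hxR : x ∈ ball (0 : ι → ℂ) R := ball_subset_ball (hR'r.trans hrR) hx
    have hN' : (0 : ℝ) < N := by exact_mod_cast hN
    have hfb : ∀ p ∈ ball (0 : ι → ℂ) R, ‖f N p‖ ≤ C₀ * Real.exp (N * (Q p).re) := by
      intro p hp
      have h1 := hbd p hp
      rw [norm_mul, Complex.norm_exp] at h1
      have h2 : (-((N : ℂ) * Q p)).re = -(N * (Q p).re) := by simp
      rw [h2] at h1
      have h3 : ‖f N p‖ = Real.exp (N * (Q p).re) * (Real.exp (-(N * (Q p).re)) * ‖f N p‖) := by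
        rw [← mul_assoc, ← Real.exp_add, add_neg_cancel, Real.exp_zero, one_mul]
      rw [h3, mul_comm C₀]
      gcongr
    have hcore := core (N := N) (g := fun w => f N (update x i w)) (c := c) (ρ := ρ) (hh := hh)
      (η := η) (V := (Q (update x i (om x))).re) (C₀ := C₀) (ε := ε) (κ := κ) (k := k) (R := r)
      (z := om x) hN t2 t1 hC₀.le hρ (by linarith) hρ2.le (by linarith)
      (by
        intro w hw
        exact (hfd x hxR i).differentiableAt (isOpen_ball.mem_nhds (ball_subset_ball hrR hw)))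
      hk
      (by
        intro s y hs hy
        have h1 : update x i (s + y * Complex.I) ∈ ball (0 : ι → ℂ) R := by
          rw [mem_ball_zero_iff]
          refine (upd_norm hr c1 ?_).trans_le hrR
          have := small_pt hs hy
          linarith
        refine (hfb _ h1).trans ?_
        refine mul_le_mul_of_nonneg_left (Real.exp_le_exp.2 ?_) hC₀.le
        exact mul_le_mul_of_nonneg_left (c5 s y hs hy) hN'.le)
      c4 hη hηρ q3 (by linarith) q2 q1 hhk hhρ k1 k2 k3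
    -- the difference
    have hs0 : (Real.sqrt N : ℝ) ≠ 0 := (Real.sqrt_pos.2 hN').ne'
    have hsc : ((Real.sqrt N : ℝ) : ℂ) ≠ 0 := by exact_mod_cast hs0
    have hsq : ((Real.sqrt N : ℝ) : ℂ) * ((Real.sqrt N : ℝ) : ℂ) = N := by
      rw [← Complex.ofReal_mul, Real.mul_self_sqrt hN'.le]; simp
    have e1 : ∫ t in (-η)..η, Complex.exp (N * (Q (update x i (om x + (t : ℂ))) - Q (update x i (om x)))) *
        (Complex.exp (-(N * Q (update x i (om x + (t : ℂ))))) * f N (update x i (om x + (t : ℂ)))) =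
        Complex.exp (-(N * Q (update x i (om x)))) * ∫ t in (-η)..η, f N (update x i (om x + (t : ℂ))) := by
      rw [← intervalIntegral.integral_const_mul]
      refine intervalIntegral.integral_congr fun t _ => ?_
      rw [← mul_assoc, ← Complex.exp_add]
      congr 2
      ring
    have e2 : Complex.exp (-(N * Q (update x i (om x)))) * (((Real.sqrt N : ℝ) : ℂ)⁻¹ * Sm c ρ i f N x) -
        ((Real.sqrt N : ℝ) : ℂ) * (Complex.exp (-(N * Q (update x i (om x)))) *
          ∫ t in (-η)..η, f N (update x i (om x + (t : ℂ)))) =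
        Complex.exp (-(N * Q (update x i (om x)))) * ((Real.sqrt N : ℝ) : ℂ)⁻¹ *
          (Sm c ρ i f N x - N * ∫ t in (-η)..η, f N (update x i (om x + (t : ℂ)))) := by
      have : ((Real.sqrt N : ℝ) : ℂ) = ((Real.sqrt N : ℝ) : ℂ)⁻¹ * N := by
        rw [← hsq, ← mul_assoc, inv_mul_cancel₀ hsc, one_mul]
      linear_combination (-(Complex.exp (-(N * Q (update x i (om x)))) *
          ∫ t in (-η)..η, f N (update x i (om x + (t : ℂ))))) * this
    show ‖Complex.exp (-(N * Q (update x i (om x)))) * (((Real.sqrt N : ℝ) : ℂ)⁻¹ * Sm c ρ i f N x) -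
      ((Real.sqrt N : ℝ) : ℂ) * ∫ t in (-η)..η, Complex.exp (N * (Q (update x i (om x + (t : ℂ))) -
        Q (update x i (om x)))) *
        (Complex.exp (-(N * Q (update x i (om x + (t : ℂ))))) * f N (update x i (om x + (t : ℂ))))‖ ≤ _
    rw [e1, e2, norm_mul, norm_mul, Complex.norm_exp]
    have h2 : (-((N : ℂ) * Q (update x i (om x)))).re = -(N * (Q (update x i (om x))).re) := by simp
    rw [h2, norm_inv, Complex.norm_real, Real.norm_eq_abs, abs_of_pos (Real.sqrt_pos.2 hN')]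
    have h3 : (Real.sqrt N)⁻¹ ≤ 1 := by
      apply inv_le_one_of_one_le₀
      rw [Real.one_le_sqrt]
      exact_mod_cast hN
    have h4 : Sm c ρ i f N x = ∑ d ∈ Ws c ρ N, f N (update x i ((d : ℂ) / N - c)) := rfl
    rw [h4]
    calc Real.exp (-(N * (Q (update x i (om x))).re)) * (Real.sqrt N)⁻¹ *
          ‖∑ d ∈ Ws c ρ N, f N (update x i ((d : ℂ) / N - c)) -
            N * ∫ t in (-η)..η, f N (update x i (om x + (t : ℂ)))‖
        ≤ Real.exp (-(N * (Q (update x i (om x))).re)) * 1 *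
          (C₀ * 16 * N * Real.exp (N * ((Q (update x i (om x))).re - κ))) := by gcongr
      _ = C₀ * 16 * N ^ 1 * Real.exp (-(κ * N)) := by
          have : Real.exp (-(N * (Q (update x i (om x))).re)) *
              Real.exp (N * ((Q (update x i (om x))).re - κ)) = Real.exp (-(κ * N)) := by
            rw [← Real.exp_add]; congr 1; ring
          rw [← this]; ring
  · -- separately analytic
    filter_upwards [hE.fd, eventually_ge_atTop 1] with N hf hN x hx j
    have hx' := hx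
    rw [mem_ball_zero_iff] at hx
    have hinw : ∀ d ∈ Ws c ρ N, update x i ((d : ℂ) / N - c) ∈ ball (0 : ι → ℂ) R := by
      intro d hd
      rw [mem_ball_zero_iff]
      refine (upd_norm hr (by linarith) ((ws_cast (by omega) hd).trans_lt (by linarith))).trans_le hrR
    by_cases hj : j = i
    · subst hj
      have e : (fun w => ((Real.sqrt N : ℝ) : ℂ)⁻¹ * Sm c ρ j f N (update x j w)) =
          fun _ => ((Real.sqrt N : ℝ) : ℂ)⁻¹ * Sm c ρ j f N x := by
        funext w; rw [Sm_update c ρ j f N x w]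
      rw [e]
      exact differentiableOn_const _
    · have e : (fun w => ((Real.sqrt N : ℝ) : ℂ)⁻¹ * Sm c ρ i f N (update x j w)) =
          fun w => ((Real.sqrt N : ℝ) : ℂ)⁻¹ * ∑ d ∈ Ws c ρ N,
            f N (update (update x i ((d : ℂ) / N - c)) j w) := by
        funext w
        unfold Sm
        congr 1
        refine Finset.sum_congr rfl fun d _ => ?_
        rw [update_comm hj]
      rw [e]
      refine DifferentiableOn.const_mul ?_ _
      refine DifferentiableOn.fun_sum fun d hd => ?_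
      exact (hf _ (hinw d hd) j).mono (ball_subset_ball (hR'r.trans hrR))
  · -- the leading coefficient
    obtain ⟨c₁, hc₁, hnz⟩ := hE.nz
    refine ⟨c₁ * (2 * π / D₀) ^ (1 / 2 : ℝ), by positivity, fun x hx => ?_⟩
    have h2 := hin x hx 0 hr4
    rw [hA' x hx, norm_mul]
    have h3 : ((1 / 2 : ℂ)) = ((1 / 2 : ℝ) : ℂ) := by push_cast; rfl
    rw [h3, Complex.norm_cpow_real, hq2 x hx]
    have h4 := hnz _ (hinR x hx 0 hr4)
    simp only [add_zero] at h2 h4 ⊢
    have h5 := (hb' _ h2).2.2.2.1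
    have h6 := (hb' _ h2).2.2.1
    have h7 : 0 < ‖Dp (Dp Q i) i (update x i (om x))‖ := by
      rw [norm_pos_iff]
      intro hcon
      rw [hcon, Complex.zero_re] at h6
      linarith
    have h8 : 2 * π / D₀ ≤ ‖2 * (π : ℂ) / -Dp (Dp Q i) i (update x i (om x))‖ := by
      rw [norm_div, norm_neg, norm_mul, Complex.norm_real, Real.norm_eq_abs, abs_of_pos Real.pi_pos]
      have h9 : ‖(2 : ℂ)‖ = 2 := by simp
      rw [h9]
      have := Real.pi_pos
      gcongr
    have hπ := Real.pi_pos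
    exact mul_le_mul h4 (Real.rpow_le_rpow (by positivity) h8 (by norm_num)) (by positivity)
      (norm_nonneg _)

end Run7.h260.VX
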