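import Pool.Agent.Run7.h260.VX.X3

/-!
# Uniform expansions: elimination of many variables
-/

set_option autoImplicit false

namespace Run7.h260.VX

open Filter Topology Metric Function
open Pool.Agent.W719.AX (UX S_LX)
open Run7.h260.VC
open scoped Real

variable {ι : Type} [Fintype ι] [DecidableEq ι]

/-- the conclusion of the elimination of the variables `T` -/
structure ElX (c ρ₀ k : ℝ) (S T : Finset ι) (Q : (ι → ℂ) → ℂ) (f : ℕ → (ι → ℂ) → ℂ) (ρ : ι → ℝ)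
    (QT : (ι → ℂ) → ℂ) (Ψ : (ι → ℂ) → ι → ℂ) : Prop where
  hρ : ∀ i, 0 < ρ i ∧ ρ i < ρ₀
  an : AnalyticAt ℂ QT 0
  cont : ContinuousAt Ψ 0
  psi0 : Ψ 0 = 0
  ev : ∀ᶠ x in 𝓝 0, (∀ j, j ∉ T → Ψ x j = x j) ∧ (∀ i ∈ T, Dp Q i (Ψ x) = 0) ∧ QT x = Q (Ψ x) ∧
    fderiv ℂ QT x = fderiv ℂ Q (Ψ x)
  uniq : ∀ᶠ x in 𝓝 0, (∀ i ∈ T, Dp Q i x = 0) → Ψ x = x
  qm : Qm (S \ T) k QT
  ex : ∃ (R : ℝ) (A : ℕ → (ι → ℂ) → ℂ),
    EXn R QT (fun (N : ℕ) (x : ι → ℂ) => ((Real.sqrt N : ℝ) : ℂ)⁻¹ ^ T.card * VC.ST c ρ T f N x) A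

omit [Fintype ι] in
lemma Sm_const (c ρ : ℝ) (i : ι) (f : ℕ → (ι → ℂ) → ℂ) (a : ℕ → ℂ) (N : ℕ) (x : ι → ℂ) :
    Sm c ρ i (fun N x => a N * f N x) N x = a N * Sm c ρ i f N x := by
  unfold Sm
  rw [Finset.mul_sum]

theorem elimX {S : Finset ι} {k : ℝ} {Q : (ι → ℂ) → ℂ} (hk : 0 < k) (h : Qm S k Q)
    (hQ : AnalyticAt ℂ Q 0) (h0 : ∀ i ∈ S, Dp Q i 0 = 0)
    {f A : ℕ → (ι → ℂ) → ℂ} {R : ℝ} (hE : EXn R Q f A) {c : ℝ} (hc : 0 < c) {ρ₀ : ℝ} (hρ₀ : 0 < ρ₀)
    (T : Finset ι) : T ⊆ S → ∃ (ρ : ι → ℝ) (QT : (ι → ℂ) → ℂ) (Ψ : (ι → ℂ) → ι → ℂ),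
      ElX c ρ₀ k S T Q f ρ QT Ψ := by
  induction T using Finset.induction_on with
  | empty =>
    intro _
    refine ⟨fun _ => ρ₀ / 2, Q, id, ⟨fun _ => ⟨by positivity, by linarith⟩, hQ, continuousAt_id, rfl,
      ?_, ?_, ?_, ?_⟩⟩
    · exact Eventually.of_forall fun x => ⟨fun _ _ => rfl, fun i hi => by simp at hi, rfl, rfl⟩
    · exact Eventually.of_forall fun x _ => rfl
    · rwa [Finset.sdiff_empty]
    · refine ⟨R, A, ?_⟩
      have : (fun (N : ℕ) (x : ι → ℂ) => ((Real.sqrt N : ℝ) : ℂ)⁻¹ ^ (∅ : Finset ι).card *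
          VC.ST c (fun _ => ρ₀ / 2) ∅ f N x) = f := by
        funext N x
        rw [ST_empty, Finset.card_empty, pow_zero, one_mul]
      rw [this]
      exact hE
  | insert i T hi ih =>
    intro hT
    have hiS : i ∈ S := hT (Finset.mem_insert_self i T)
    obtain ⟨ρ, QT, Ψ, E⟩ := ih ((Finset.subset_insert i T).trans hT)
    have hiST : i ∈ S \ T := Finset.mem_sdiff.2 ⟨hiS, hi⟩
    have hd0 : Dp QT i 0 = 0 := by
      have h1 := E.ev.self_of_nhds.2.2.2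
      rw [E.psi0] at h1
      unfold Dp
      rw [h1]
      exact h0 i hiS
    have hneg := E.qm.neg hiST E.an hd0
    have hne : Dp (Dp QT i) i 0 ≠ 0 := by
      intro hcon
      rw [hcon, Complex.zero_re] at hneg
      linarith
    obtain ⟨om, a1, a2, a3, a4, a5, a6, a7⟩ := pstep i E.an hd0 hne
    obtain ⟨R₁, A₁, E₁⟩ := E.ex
    obtain ⟨ρi, b1, b2, R₂, A₂, E₂⟩ := stepX hk E.qm hiST E.an hd0 a1 a2 a4 E₁ hc hρ₀
    have hu := upd_an i a1
    have hu0 : update (0 : ι → ℂ) i (om 0) = 0 := by rw [a2]; simp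
    have hz : Tendsto (fun x : ι → ℂ => update x i (om x)) (𝓝 0) (𝓝 0) := by
      have := hu.continuousAt.tendsto
      rwa [hu0] at this
    refine ⟨update ρ i ρi, fun x => QT (update x i (om x)), fun x => Ψ (update x i (om x)), ⟨?_, a6,
      ?_, ?_, ?_, ?_, ?_, ?_⟩⟩
    · intro j
      by_cases hj : j = i
      · subst hj; rw [update_self]; exact ⟨b1, b2⟩
      · rw [update_of_ne hj]; exact E.hρ j
    · have h1 : ContinuousAt Ψ (update (0 : ι → ℂ) i (om 0)) := by rw [hu0]; exact E.cont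
      exact ContinuousAt.comp (g := Ψ) h1 hu.continuousAt
    · rw [hu0, E.psi0]
    · filter_upwards [hz.eventually E.ev, a4, a7] with x e1 e2 e3
      refine ⟨?_, ?_, e1.2.2.1, ?_⟩
      · intro j hj
        rw [Finset.mem_insert, not_or] at hj
        rw [e1.1 j hj.2, update_of_ne hj.1]
      · intro j hj
        rcases Finset.mem_insert.1 hj with rfl | hj
        · have h1 := e1.2.2.2
          unfold Dp at e2 ⊢
          rw [← h1]
          exact e2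
        · exact e1.2.1 j hj
      · rw [e3, e1.2.2.2]
    · filter_upwards [E.uniq, E.ev, a5] with x e1 e2 e3 e4
      have h1 := e1 fun j hj => e4 j (Finset.mem_insert_of_mem hj)
      have h2 : Dp QT i x = 0 := by
        have h3 := e4 i (Finset.mem_insert_self i T)
        have h4 := e2.2.2.2
        rw [h1] at h4
        unfold Dp at h3 ⊢
        rw [h4]
        exact h3
      have h3 := e3 h2
      have h4 : update x i (om x) = x := by rw [← h3]; simp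
      rw [h4, h1]
    · have h1 := E.qm.step hk hiST E.an hd0 a1 a2 a4
      have h2 : (S \ T).erase i = S \ insert i T := by
        ext j
        simp only [Finset.mem_erase, Finset.mem_sdiff, Finset.mem_insert]
        tauto
      rwa [h2] at h1
    · refine ⟨R₂, A₂, ?_⟩
      have : (fun (N : ℕ) (x : ι → ℂ) => ((Real.sqrt N : ℝ) : ℂ)⁻¹ ^ (insert i T).card *
          VC.ST c (update ρ i ρi) (insert i T) f N x) =
          fun (N : ℕ) (x : ι → ℂ) => ((Real.sqrt N : ℝ) : ℂ)⁻¹ *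
            Sm c ρi i (fun (N : ℕ) (x : ι → ℂ) => ((Real.sqrt N : ℝ) : ℂ)⁻¹ ^ T.card *
              VC.ST c ρ T f N x) N x := by
        funext N x
        rw [ST_insert c ρ ρi hi, Finset.card_insert_of_notMem hi,
          Sm_const c ρi i (VC.ST c ρ T f) (fun N : ℕ => ((Real.sqrt N : ℝ) : ℂ)⁻¹ ^ T.card)]
        ring
      rw [this]
      exact E₂

end Run7.h260.VX
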