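import Pool.Agent.Run7.h260.VC.N3
import Pool.Agent.W571.FE.EM
import Pool.Agent.Run7.h260.VX.X1

/-!
# Summation of log-sines to all orders
-/

set_option autoImplicit false

namespace Run7.h260.VX

open Filter Topology Metric Function Finset
open Pool.Agent.W571.FE.EM (bb bb_rec cell Cc Cc_nonneg)
open Run7.h260.VC
open scoped Real Nat

/-- the coefficients are Bernoulli numbers -/
lemma bb_bern (k : ℕ) : bb 1 k = (bernoulli' (k + 1) : ℝ) / ((k + 1)! : ℕ) := by
  induction k using Nat.strong_induction_on with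
  | _ k ih =>
    have h1 := bb_rec 1 (k + 1)
    have h2 : ∑ j ∈ range (k + 1), (bernoulli' (j + 1) : ℝ) / ((j + 1)! : ℕ) *
        ((k + 1).descFactorial j : ℕ) = 1 ^ (k + 1) - 1 / (((k + 1 : ℕ) : ℝ) + 1) := by
      have h3 := sum_bernoulli' (k + 2)
      rw [Finset.sum_range_succ'] at h3
      simp only [Nat.choose_zero_right, Nat.cast_one, bernoulli'_zero, mul_one] at h3
      have h4 : ∑ j ∈ range (k + 1), ((k + 2).choose (j + 1) : ℚ) * bernoulli' (j + 1) = k + 1 := by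
        push_cast at h3
        linarith
      have h5 : ∑ j ∈ range (k + 1), ((k + 2).choose (j + 1) : ℝ) * (bernoulli' (j + 1) : ℝ) = k + 1 := by
        have := congrArg (fun q : ℚ => (q : ℝ)) h4
        push_cast at this
        exact this
      have h6 : ∀ j ∈ range (k + 1), (bernoulli' (j + 1) : ℝ) / ((j + 1)! : ℕ) *
          ((k + 1).descFactorial j : ℕ) =
          (1 / ((k : ℝ) + 2)) * (((k + 2).choose (j + 1) : ℝ) * (bernoulli' (j + 1) : ℝ)) := by
        intro j hj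
        rw [Finset.mem_range] at hj
        have h7 : ((k + 2).choose (j + 1) : ℝ) * ((j + 1)! : ℕ) = (k + 2) * ((k + 1).descFactorial j : ℕ) := by
          have h8 := Nat.descFactorial_eq_factorial_mul_choose (k + 2) (j + 1)
          have h9 : (k + 2).descFactorial (j + 1) = (k + 2) * (k + 1).descFactorial j :=
            Nat.succ_descFactorial_succ (k + 1) j
          rw [h9] at h8
          have h10 : (((k + 2) * (k + 1).descFactorial j : ℕ) : ℝ) =
              (((j + 1)! * (k + 2).choose (j + 1) : ℕ) : ℝ) := by exact_mod_cast h8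
          push_cast at h10 ⊢
          linarith
        have h11 : (((j + 1)! : ℕ) : ℝ) ≠ 0 := by exact_mod_cast Nat.factorial_ne_zero _
        have h12 : ((k : ℝ) + 2) ≠ 0 := by positivity
        field_simp
        linear_combination (-(bernoulli' (j + 1) : ℝ)) * h7
      rw [Finset.sum_congr rfl h6, ← Finset.mul_sum, h5]
      push_cast
      have h12 : ((k : ℝ) + 2) ≠ 0 := by positivity
      have h13 : ((k : ℝ) + 1 + 1) ≠ 0 := by positivity
      field_simp
      ring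
    rw [← h2, Finset.sum_range_succ, Finset.sum_range_succ] at h1
    have h3 : ∑ j ∈ range k, bb 1 j * ((k + 1).descFactorial j : ℕ) =
        ∑ j ∈ range k, (bernoulli' (j + 1) : ℝ) / ((j + 1)! : ℕ) * ((k + 1).descFactorial j : ℕ) := by
      refine Finset.sum_congr rfl fun j hj => ?_
      rw [ih j (Finset.mem_range.1 hj)]
    rw [h3] at h1
    have h4 : ((k + 1).descFactorial k : ℝ) ≠ 0 := by
      have : (k + 1).descFactorial k ≠ 0 := by
        rw [Ne, Nat.descFactorial_eq_zero_iff_lt]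
        omega
      exact_mod_cast this
    have h5 := add_left_cancel h1
    exact mul_right_cancel₀ h4 h5

lemma bb_zero : bb 1 0 = 1 / 2 := by
  rw [bb_bern]
  simp [bernoulli'_one]

lemma bb_even {k : ℕ} (h : Even k) (h0 : k ≠ 0) : bb 1 k = 0 := by
  rw [bb_bern, bernoulli'_eq_zero_of_odd h.add_one (by omega)]
  simp

/-- the region -/
def D1 : Set ℂ := closedBall (1 / 2 : ℂ) (1 / 4)

lemma D1_nb {z w : ℂ} (hz : z ∈ D1) (hw : ‖w - z‖ < 1 / 8) : w ∈ closedBall (1 / 2 : ℂ) (3 / 8) := by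
  unfold D1 at hz
  rw [mem_closedBall, dist_eq_norm] at *
  have := norm_add_le (w - z) (z - 1 / 2)
  rw [sub_add_sub_cancel] at this
  linarith

lemma D2_sub : closedBall (1 / 2 : ℂ) (3 / 8) ⊆ Bh := closedBall_subset_ball (by norm_num)

lemma D1_sub : D1 ⊆ Bh := closedBall_subset_ball (by norm_num)

lemma D1_convex : Convex ℝ D1 := convex_closedBall _ _

lemma ls_bd2 : ∃ B : ℝ, 0 < B ∧ ∀ z ∈ closedBall (1 / 2 : ℂ) (3 / 8), ‖ls z‖ ≤ B := by
  obtain ⟨C, hC⟩ := (isCompact_closedBall (1 / 2 : ℂ) (3 / 8)).exists_bound_of_continuousOn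
    (ls_cont.mono D2_sub)
  exact ⟨max C 1, lt_of_lt_of_le one_pos (le_max_right _ _), fun z hz => (hC z hz).trans (le_max_left _ _)⟩

/-- the formal sum of the log-sines -/
noncomputable def hK (K N : ℕ) (z : ℂ) : ℂ :=
  N * FF z + ∑ k ∈ range K, (bb 1 k : ℂ) * iteratedDeriv k ls z / (N : ℂ) ^ k

/-- one step -/
theorem one_step (K : ℕ) : ∃ C : ℝ, 0 < C ∧ ∀ N : ℕ, 32 ≤ N → ∀ z ∈ D1, z + 1 / N ∈ D1 →
    ‖ls (z + 1 / N) - (hK K N (z + 1 / N) - hK K N z)‖ ≤ C / (N : ℝ) ^ (K + 1) := by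
  obtain ⟨B, hB, hb⟩ := ls_bd2
  refine ⟨Cc 1 K * (B * 8 ^ (K + 1)) + 1, by
    have := Cc_nonneg 1 K
    positivity, fun N hN z hz hz1 => ?_⟩
  have hN0 : 0 < N := by omega
  have hN' : (0 : ℝ) < N := by exact_mod_cast hN0
  have hNr : (32 : ℝ) ≤ N := by exact_mod_cast hN
  have hNc : (N : ℂ) ≠ 0 := by exact_mod_cast hN0.ne'
  have hc := cell 1 zero_le_one le_rfl K (F := ls) (z := z) (σ := 1 / 8) (B := B) (ε := 1 / N)
    (by positivity) (by
      rw [← mul_div_assoc, mul_one, div_le_div_iff₀ hN' (by norm_num)]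
      linarith)
    (fun w hw => by
      have h1 := D1_nb hz hw
      exact ⟨(ls_hasDerivAt (Bh_re (D2_sub h1)).1 (Bh_re (D2_sub h1)).2).differentiableAt, hb w h1⟩)
  have e1 : (((1 / N : ℝ)) : ℂ) = 1 / N := by push_cast; rfl
  have hseg : ∀ x : ℝ, x ∈ Set.Icc (0 : ℝ) (1 / N) → z + x ∈ D1 := by
    intro x hx
    have h1 := D1_convex hz hz1 (a := 1 - N * x) (b := N * x) (by
      have := hx.2
      rw [le_div_iff₀ hN'] at this
      linarith) (by have := hx.1; positivity) (by ring)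
    have e : (1 - N * x) • z + (N * x) • (z + 1 / (N : ℂ)) = z + x := by
      rw [Complex.real_smul, Complex.real_smul]
      push_cast
      field_simp
      ring
    rwa [e] at h1
  have hint : ∫ x in (0 : ℝ)..(1 / N), ls (z + x) = FF (z + 1 / N) - FF z := by
    have hd : ∀ x ∈ Set.uIcc (0 : ℝ) (1 / N), HasDerivAt (fun x : ℝ => FF (z + x)) (ls (z + x)) x := by
      intro x hx
      rw [Set.uIcc_of_le (by positivity)] at hx
      have h1 : HasDerivAt (fun x : ℝ => z + (x : ℂ)) 1 x := by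
        have h2 : HasDerivAt (fun t : ℝ => (t : ℂ)) 1 x := Complex.ofRealCLM.hasDerivAt
        simpa using h2.const_add z
      have h3 := (FF_deriv (D1_sub (hseg x hx))).comp_of_eq x h1 rfl
      rw [mul_one] at h3
      exact h3
    have hcc : ContinuousOn (fun x : ℝ => ls (z + x)) (Set.uIcc (0 : ℝ) (1 / N)) := by
      refine ls_cont.comp (by fun_prop) ?_
      intro x hx
      rw [Set.uIcc_of_le (by positivity)] at hx
      exact D1_sub (hseg x hx)
    have h4 := intervalIntegral.integral_eq_sub_of_hasDerivAt hd hcc.intervalIntegrable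
    rw [h4, e1]
    simp
  rw [hint] at hc
  have e2 : ls (z + 1 / N) - (hK K N (z + 1 / N) - hK K N z) =
      ls (z + (1 : ℝ) * ((1 / N : ℝ) : ℂ)) - (((1 / N : ℝ) : ℂ))⁻¹ * (FF (z + 1 / N) - FF z) -
      ∑ k ∈ range K, (bb 1 k : ℂ) * (((1 / N : ℝ)) : ℂ) ^ k *
        (iteratedDeriv k ls (z + ((1 / N : ℝ) : ℂ)) - iteratedDeriv k ls z) := by
    unfold hK
    rw [e1]
    have h1 : ∑ k ∈ range K, (bb 1 k : ℂ) * (1 / (N : ℂ)) ^ k *
        (iteratedDeriv k ls (z + 1 / (N : ℂ)) - iteratedDeriv k ls z) =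
        ∑ k ∈ range K, (bb 1 k : ℂ) * iteratedDeriv k ls (z + 1 / N) / (N : ℂ) ^ k -
        ∑ k ∈ range K, (bb 1 k : ℂ) * iteratedDeriv k ls z / (N : ℂ) ^ k := by
      rw [← Finset.sum_sub_distrib]
      refine Finset.sum_congr rfl fun k _ => ?_
      rw [one_div, inv_pow]
      ring
    rw [h1, one_div, inv_inv, Complex.ofReal_one, one_mul]
    ring
  rw [e2]
  refine hc.trans ?_
  have e3 : B * (1 / (N : ℝ) / (1 / 8)) ^ (K + 1) = B * 8 ^ (K + 1) / (N : ℝ) ^ (K + 1) := by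
    rw [div_div_eq_mul_div, div_one, div_mul_eq_mul_div, one_mul, div_pow, mul_div_assoc]
  rw [e3, ← mul_div_assoc]
  refine div_le_div_of_nonneg_right (by linarith) (by positivity)

/-- sums -/
theorem sums (K : ℕ) : ∃ C : ℝ, 0 < C ∧ ∀ N : ℕ, 32 ≤ N → ∀ (m n : ℕ) (ξ : ℂ), m ≤ n → n ≤ N →
    (∀ t : ℕ, m ≤ t → t ≤ n → (t : ℂ) / N + ξ ∈ D1) →
    ‖(∑ t ∈ Ioc m n, ls ((t : ℂ) / N + ξ)) - (hK K N ((n : ℂ) / N + ξ) - hK K N ((m : ℂ) / N + ξ))‖ ≤
      C / (N : ℝ) ^ K := by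
  obtain ⟨C, hC, h⟩ := one_step K
  refine ⟨C, hC, fun N hN m n ξ hmn hnN hD => ?_⟩
  have hN0 : 0 < N := by omega
  have hN' : (0 : ℝ) < N := by exact_mod_cast hN0
  have hNc : (N : ℂ) ≠ 0 := by exact_mod_cast hN0.ne'
  have key : ∀ k : ℕ, m ≤ k → k ≤ n →
      ‖(∑ t ∈ Ioc m k, ls ((t : ℂ) / N + ξ)) - (hK K N ((k : ℂ) / N + ξ) - hK K N ((m : ℂ) / N + ξ))‖ ≤
      (k - m) * (C / (N : ℝ) ^ (K + 1)) := by
    intro k hk
    induction k, hk using Nat.le_induction with
    | base => intro _; simp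
    | succ k hk ih =>
      intro hkn
      have ih := ih (by omega)
      rw [Finset.sum_Ioc_succ_top hk]
      have ha := hD k hk (by omega)
      have hb := hD (k + 1) (by omega) hkn
      have e : (((k + 1 : ℕ) : ℂ) / N + ξ) = ((k : ℂ) / N + ξ) + 1 / N := by push_cast; ring
      have hs := h N hN _ ha (by rw [← e]; exact hb)
      rw [← e] at hs
      have e2 : (∑ t ∈ Ioc m k, ls ((t : ℂ) / N + ξ) + ls (((k + 1 : ℕ) : ℂ) / N + ξ)) -
          (hK K N (((k + 1 : ℕ) : ℂ) / N + ξ) - hK K N ((m : ℂ) / N + ξ)) =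
          ((∑ t ∈ Ioc m k, ls ((t : ℂ) / N + ξ)) - (hK K N ((k : ℂ) / N + ξ) - hK K N ((m : ℂ) / N + ξ))) +
          (ls (((k + 1 : ℕ) : ℂ) / N + ξ) - (hK K N (((k + 1 : ℕ) : ℂ) / N + ξ) -
            hK K N ((k : ℂ) / N + ξ))) := by ring
      rw [e2]
      refine (norm_add_le _ _).trans ?_
      push_cast at hs ih ⊢
      linarith
  refine (key n hmn le_rfl).trans ?_
  have h3 : ((n : ℝ) - m) ≤ N := by
    have h4 : (n : ℝ) ≤ N := by exact_mod_cast hnN
    have h5 : (0 : ℝ) ≤ m := by positivity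
    linarith
  calc ((n : ℝ) - m) * (C / (N : ℝ) ^ (K + 1)) ≤ N * (C / (N : ℝ) ^ (K + 1)) := by gcongr
    _ = C / (N : ℝ) ^ K := by rw [pow_succ]; field_simp

lemma iter_symm (k : ℕ) (w : ℂ) : iteratedDeriv k ls (1 - w) = (-1) ^ k * iteratedDeriv k ls w := by
  have h1 : (fun z => ls (1 - z)) = ls := by funext z; exact ls_symm z
  have h2 := congrFun (iteratedDeriv_comp_const_sub (𝕜 := ℂ) k ls (1 : ℂ)) w
  rw [h1] at h2
  rw [h2, smul_eq_mul, ← mul_assoc, ← mul_pow]
  norm_num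

/-- reflection -/
theorem refl (K : ℕ) (hK1 : 1 ≤ K) : ∃ C : ℝ, 0 < C ∧ ∀ N : ℕ, 32 ≤ N → ∀ y ∈ D1, y + 1 / N ∈ D1 →
    ‖hK K N (1 - 1 / N - y) + hK K N y‖ ≤ C / (N : ℝ) ^ (K + 1) := by
  obtain ⟨C, hC, h⟩ := one_step K
  refine ⟨C, hC, fun N hN y hy hy1 => ?_⟩
  have hs := h N hN y hy hy1
  have e0 : (1 : ℂ) - 1 / N - y = 1 - (y + 1 / N) := by ring
  have hsum : hK K N (1 - (y + 1 / N)) + hK K N (y + 1 / N) = ls (y + 1 / N) := by
    unfold hK
    rw [FF_symm (D1_sub hy1)]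
    have h1 : ∑ k ∈ range K, (bb 1 k : ℂ) * iteratedDeriv k ls (1 - (y + 1 / N)) / (N : ℂ) ^ k +
        ∑ k ∈ range K, (bb 1 k : ℂ) * iteratedDeriv k ls (y + 1 / N) / (N : ℂ) ^ k = ls (y + 1 / N) := by
      rw [← Finset.sum_add_distrib]
      rw [Finset.sum_eq_single_of_mem 0 (Finset.mem_range.2 (by omega))]
      · rw [bb_zero, sub_eq_add_neg, ← sub_eq_add_neg]
        simp only [iteratedDeriv_zero, pow_zero, div_one, ls_symm]
        push_cast
        ring
      · intro k hk hk0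
        rw [iter_symm]
        rcases Nat.even_or_odd k with he | ho
        · rw [bb_even he hk0]
          simp
        · rw [ho.neg_one_pow]
          ring
    linear_combination h1
  have e1 : hK K N (1 - 1 / N - y) + hK K N y = ls (y + 1 / N) - (hK K N (y + 1 / N) - hK K N y) := by
    rw [e0]
    linear_combination hsum
  rw [e1]
  exact hs

end Run7.h260.VX
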