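import Pool.Agent.W176.HTN.Newt

/-!
# Newton interpolation of a telescoping sum
-/

set_option autoImplicit false

namespace Run7.h260.VX

open Filter Topology Metric Function Finset
open Pool.Agent.W176.HTN (cauchyDiff one_fun)
open scoped Real

/-- coefficients of the Newton sum of `f` -/
noncomputable def nc (N m j : ℕ) (f : ℂ → ℂ) : ℂ :=
  ∑ i ∈ range (j + 1), (-1 : ℂ) ^ (j - i) * (j.choose i : ℂ) * f (((m + i : ℕ) : ℂ) / N)

/-- the Newton sum -/
noncomputable def NI (N m D : ℕ) (f : ℂ → ℂ) (z : ℂ) : ℂ :=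
  ∑ j ∈ range D, nc N m j f * ((∏ i ∈ range (j + 1), (N * z - m - i)) / ((j + 1).factorial : ℂ))

lemma NI_congr {N m D : ℕ} {f g : ℂ → ℂ} (h : ∀ i < D, f (((m + i : ℕ) : ℂ) / N) = g (((m + i : ℕ) : ℂ) / N))
    (z : ℂ) : NI N m D f z = NI N m D g z := by
  unfold NI nc
  refine sum_congr rfl fun j hj => ?_
  congr 1
  refine sum_congr rfl fun i hi => ?_
  rw [Finset.mem_range] at hi hj
  rw [h i (by omega)]

lemma NI_add (N m D : ℕ) (f g : ℂ → ℂ) (z : ℂ) :
    NI N m D (fun w => f w + g w) z = NI N m D f z + NI N m D g z := by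
  unfold NI nc
  rw [← sum_add_distrib]
  refine sum_congr rfl fun j _ => ?_
  rw [← add_mul, ← sum_add_distrib]
  congr 1
  refine sum_congr rfl fun i _ => ?_
  ring

lemma nc_fwd (N m j : ℕ) (f : ℂ → ℂ) (hN : (N : ℂ) ≠ 0) :
    nc N m j f = (fwdDiff (1 / (N : ℂ)))^[j] f ((m : ℂ) / N) := by
  rw [fwdDiff_iter_eq_sum_shift]
  unfold nc
  refine sum_congr rfl fun i _ => ?_
  rw [nsmul_eq_mul, zsmul_eq_mul]
  push_cast
  congr 2
  field_simp

/-- the coefficients of a difference -/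
lemma nc_diff (N m j : ℕ) (h : ℂ → ℂ) (hN : (N : ℂ) ≠ 0) :
    nc N m j (fun w => h (w + 1 / N) - h w) = nc N m (j + 1) h := by
  rw [nc_fwd _ _ _ _ hN, nc_fwd _ _ _ _ hN, Function.iterate_succ_apply]
  rfl

/-- telescoping -/
theorem NI_diff {h : ℂ → ℂ} {c : ℂ} {R M : ℝ} (hR : 0 < R)
    (hf : DifferentiableOn ℂ h (ball c R)) (hM : ∀ z ∈ ball c R, ‖h z‖ ≤ M)
    (N D : ℕ) (hN : 0 < N) (m : ℕ)
    (hx : ∀ i ≤ D, ‖(m : ℂ) / N + i * (1 / N) - c‖ ≤ 5 / 400 * R)
    (z : ℂ) (hz : z ∈ ball c (R / 200)) :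
    ‖NI N m D (fun w => h (w + 1 / N) - h w) z - (h z - h ((m : ℂ) / N))‖ ≤ M * (1 / 2) ^ D := by
  have hN' : (N : ℂ) ≠ 0 := by exact_mod_cast hN.ne'
  have hM0 : 0 ≤ M := (norm_nonneg _).trans (hM c (mem_ball_self hR))
  have hr : 0 < R / 2 := by linarith
  have hrR : R / 2 < R := by linarith
  have hcl : closedBall c (R / 2) ⊆ ball c R := closedBall_subset_ball hrR
  have hcs : sphere c (R / 2) ⊆ ball c R := sphere_subset_closedBall.trans hcl
  have hz' : ‖z - c‖ < R / 200 := by rwa [mem_ball, dist_eq_norm] at hz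
  set X : ℕ → ℂ := fun i => (m : ℂ) / N + i * (1 / N) with hX
  have hxb : ∀ i ≤ D, X i ∈ ball c (R / 2) := by
    intro i hi
    rw [mem_ball, dist_eq_norm]
    have := hx i hi
    simp only [hX]
    linarith
  have hzb : z ∈ ball c (R / 2) := by
    rw [mem_ball, dist_eq_norm]; linarith
  have hX0 : X 0 = (m : ℂ) / N := by simp [hX]
  have hlow : ∀ ζ ∈ sphere c (R / 2), ∀ i ≤ D, 39 / 80 * R ≤ ‖ζ - X i‖ := by
    intro ζ hζ i hi
    have h1 : ‖X i - c‖ ≤ 5 / 400 * R := hx i hi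
    have h2 : ‖ζ - c‖ = R / 2 := by rw [← dist_eq_norm]; exact hζ
    have h3 : ‖ζ - c‖ ≤ ‖ζ - X i‖ + ‖X i - c‖ := by
      have := norm_add_le (ζ - X i) (X i - c)
      simpa using this
    linarith
  have hlz : ∀ ζ ∈ sphere c (R / 2), R / 4 ≤ ‖ζ - z‖ := by
    intro ζ hζ
    have h2 : ‖ζ - c‖ = R / 2 := by rw [← dist_eq_norm]; exact hζ
    have h3 : ‖ζ - c‖ ≤ ‖ζ - z‖ + ‖z - c‖ := by
      have := norm_add_le (ζ - z) (z - c)
      simpa using this
    linarith
  have hup : ∀ i ≤ D, ‖z - X i‖ ≤ 7 / 400 * R := by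
    intro i hi
    have h1 : ‖X i - c‖ ≤ 5 / 400 * R := hx i hi
    have h3 : ‖z - X i‖ ≤ ‖z - c‖ + ‖X i - c‖ := by
      have := norm_sub_le (z - c) (X i - c)
      simpa using this
    linarith
  have hne : ∀ ζ ∈ sphere c (R / 2), ∀ i ≤ D, ζ - X i ≠ 0 := by
    intro ζ hζ i hi h0
    have := hlow ζ hζ i hi
    rw [h0, norm_zero] at this
    linarith
  have hnz : ∀ ζ ∈ sphere c (R / 2), ζ - z ≠ 0 := by
    intro ζ hζ h0
    have := hlz ζ hζ
    rw [h0, norm_zero] at this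
    linarith
  set q : ℂ → ℕ → ℂ := fun ζ i => (z - X i) / (ζ - X i) with hqd
  have hq1 : ∀ ζ ∈ sphere c (R / 2), ∀ i ≤ D, ‖q ζ i‖ ≤ 1 / 2 := by
    intro ζ hζ i hi
    simp only [hqd]
    rw [norm_div]
    have h1 := hlow ζ hζ i hi
    have h2 := hup i hi
    rw [div_le_iff₀ (by linarith)]
    linarith
  have hhc : ContinuousOn h (sphere c (R / 2)) := hf.continuousOn.mono hcs
  have hqc : ∀ i ≤ D, ContinuousOn (fun ζ => q ζ i) (sphere c (R / 2)) := by
    intro i hi
    simp only [hqd]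
    apply ContinuousOn.div continuousOn_const (by fun_prop)
    intro ζ hζ
    exact hne ζ hζ i hi
  -- the terms
  have hterm : ∀ j ∈ range D, nc N m j (fun w => h (w + 1 / N) - h w) *
      ((∏ i ∈ range (j + 1), (N * z - m - i)) / ((j + 1).factorial : ℂ)) =
      (2 * π * Complex.I : ℂ)⁻¹ * ∮ ζ in C(c, R / 2),
        ((∏ i ∈ range (j + 1), q ζ i) / (ζ - X (j + 1))) * h ζ := by
    intro j hj
    simp only [Finset.mem_range] at hj
    rw [nc_diff _ _ _ _ hN']
    have h1 := cauchyDiff hr.le (hf.mono hcl) ((m : ℂ) / N) (1 / N) (j + 1)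
      (fun i hi => hxb i (by omega))
    have h2 : nc N m (j + 1) h = ∑ i ∈ range (j + 1 + 1), (-1 : ℂ) ^ (j + 1 - i) *
        ((j + 1).choose i : ℂ) * h ((m : ℂ) / N + i * (1 / N)) := by
      unfold nc
      refine sum_congr rfl fun i _ => ?_
      congr 2
      push_cast
      field_simp
    rw [h2, h1]
    have h3 : ∀ A B : ℂ, (2 * π * Complex.I : ℂ)⁻¹ * A * B = (2 * π * Complex.I : ℂ)⁻¹ * (B * A) := by
      intro A B; ring
    rw [h3, ← circleIntegral.integral_const_mul]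
    congr 1
    apply circleIntegral.integral_congr hr.le
    intro ζ hζ
    simp only
    have h4 : ∏ i ∈ range (j + 1), (N * z - m - i) =
        (N : ℂ) ^ (j + 1) * ∏ i ∈ range (j + 1), (z - X i) := by
      have : ((N : ℂ) ^ (j + 1)) = ∏ i ∈ range (j + 1), (N : ℂ) := by simp
      rw [this, ← prod_mul_distrib]
      refine prod_congr rfl fun i _ => ?_
      simp only [hX]
      field_simp
      ring
    have h5 : ∏ i ∈ range (j + 1), q ζ i =
        (∏ i ∈ range (j + 1), (z - X i)) / (∏ i ∈ range (j + 1), (ζ - X i)) := by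
      rw [← prod_div_distrib]
    have h6 : (∏ i ∈ range (j + 1), (ζ - X i)) ≠ 0 := by
      rw [prod_ne_zero_iff]
      intro i hi
      exact hne ζ hζ i (by simp only [Finset.mem_range] at hi; omega)
    have h7 : ∏ i ∈ range (j + 1 + 1), (ζ - ((m : ℂ) / N + i * (1 / N))) =
        (∏ i ∈ range (j + 1), (ζ - X i)) * (ζ - X (j + 1)) := prod_range_succ _ _
    have h8 : ((j + 1).factorial : ℂ) ≠ 0 := by exact_mod_cast (j + 1).factorial_ne_zero
    have h9 := hne ζ hζ (j + 1) (by omega)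
    rw [h4, h5, h7]
    generalize (∏ i ∈ range (j + 1), (ζ - X i)) = B at h6 ⊢
    generalize (∏ i ∈ range (j + 1), (z - X i)) = A
    rw [one_div, inv_pow]
    field_simp
  have htel : ∀ ζ ∈ sphere c (R / 2), ∀ n ≤ D, ∑ j ∈ range n, (∏ i ∈ range (j + 1), q ζ i) / (ζ - X (j + 1)) =
      (ζ - z)⁻¹ - (ζ - X 0)⁻¹ - (∏ i ∈ range (n + 1), q ζ i) * (ζ - z)⁻¹ := by
    intro ζ hζ n
    have a0 := hnz ζ hζ
    induction n with
    | zero =>
      intro hn
      have a1 := hne ζ hζ 0 (by omega)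
      rw [range_zero, sum_empty, zero_add, prod_range_one]
      simp only [hqd]
      field_simp
      ring
    | succ n ih =>
      intro hn
      rw [sum_range_succ, ih (by omega), prod_range_succ (fun i => q ζ i) (n + 1)]
      have a1 := hne ζ hζ (n + 1) (by omega)
      have e : q ζ (n + 1) = (z - X (n + 1)) / (ζ - X (n + 1)) := rfl
      rw [e]
      generalize ∏ i ∈ range (n + 1), q ζ i = P
      have e2 : (z - X (n + 1)) = (ζ - X (n + 1)) - (ζ - z) := by ring
      rw [e2, sub_div, div_self a1]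
      field_simp
      ring
  have hsum : NI N m D (fun w => h (w + 1 / N) - h w) z =
      (2 * π * Complex.I : ℂ)⁻¹ * ∮ ζ in C(c, R / 2), ((ζ - z)⁻¹ * h ζ - (ζ - X 0)⁻¹ * h ζ -
        (∏ i ∈ range (D + 1), q ζ i) * (ζ - z)⁻¹ * h ζ) := by
    unfold NI
    rw [sum_congr rfl hterm, ← mul_sum, ← circleIntegral.integral_fun_sum]
    · congr 1
      apply circleIntegral.integral_congr hr.le
      intro ζ hζ
      simp only
      rw [← sum_mul, htel ζ hζ D le_rfl]
      ring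
    · intro j hj
      simp only [Finset.mem_range] at hj
      apply ContinuousOn.circleIntegrable hr.le
      refine ContinuousOn.mul (ContinuousOn.div ?_ (by fun_prop) ?_) hhc
      · apply continuousOn_finsetProd
        intro i hi
        simp only [Finset.mem_range] at hi
        exact hqc i (by omega)
      · intro ζ hζ
        exact hne ζ hζ (j + 1) (by omega)
  have i1 : ∀ x ∈ ball c (R / 2), CircleIntegrable (fun ζ => (ζ - x)⁻¹ * h ζ) c (R / 2) := by
    intro x hx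
    apply ContinuousOn.circleIntegrable hr.le
    apply ContinuousOn.mul _ hhc
    apply ContinuousOn.inv₀ (by fun_prop)
    intro ζ hζ h0
    rw [sub_eq_zero] at h0
    rw [← h0, mem_ball, mem_sphere.1 hζ] at hx
    exact lt_irrefl _ hx
  have i2 : CircleIntegrable (fun ζ => (∏ i ∈ range (D + 1), q ζ i) * (ζ - z)⁻¹ * h ζ) c (R / 2) := by
    apply ContinuousOn.circleIntegrable hr.le
    refine ContinuousOn.mul (ContinuousOn.mul ?_ ?_) hhc
    · apply continuousOn_finsetProd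
      intro i hi
      simp only [Finset.mem_range] at hi
      exact hqc i (by omega)
    · exact ContinuousOn.inv₀ (by fun_prop) hnz
  have h1 := (hf.mono hcl).circleIntegral_sub_inv_smul hzb
  have h2 := (hf.mono hcl).circleIntegral_sub_inv_smul (hxb 0 (by omega))
  simp only [smul_eq_mul] at h1 h2
  have h3 : (2 * π * Complex.I : ℂ) ≠ 0 := by
    simp [Real.pi_ne_zero]
  have key : NI N m D (fun w => h (w + 1 / N) - h w) z - (h z - h ((m : ℂ) / N)) =
      -((2 * π * Complex.I : ℂ)⁻¹ * ∮ ζ in C(c, R / 2), (∏ i ∈ range (D + 1), q ζ i) * (ζ - z)⁻¹ * h ζ) := by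
    have i3 : CircleIntegrable (fun ζ => (ζ - z)⁻¹ * h ζ - (ζ - X 0)⁻¹ * h ζ) c (R / 2) :=
      (i1 z hzb).sub (i1 _ (hxb 0 (by omega)))
    rw [hsum, circleIntegral.integral_sub i3 i2,
      circleIntegral.integral_sub (i1 z hzb) (i1 _ (hxb 0 (by omega))), h1, h2, hX0]
    field_simp
    ring
  rw [key, norm_neg, ← smul_eq_mul]
  have hfin := circleIntegral.norm_two_pi_i_inv_smul_integral_le_of_norm_le_const hr.le
    (f := fun ζ => (∏ i ∈ range (D + 1), q ζ i) * (ζ - z)⁻¹ * h ζ) (C := (1 / 2) ^ (D + 1) * (4 / R) * M)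
    (c := c) (by
      intro ζ hζ
      rw [norm_mul, norm_mul, norm_prod, norm_inv]
      have a1 : ∏ i ∈ range (D + 1), ‖q ζ i‖ ≤ (1 / 2) ^ (D + 1) := by
        have : ∏ i ∈ range (D + 1), ‖q ζ i‖ ≤ ∏ _i ∈ range (D + 1), (1 / 2 : ℝ) :=
          prod_le_prod (fun _ _ => norm_nonneg _) fun i hi =>
            hq1 ζ hζ i (by simp only [Finset.mem_range] at hi; omega)
        rwa [prod_const, card_range] at this
      have a2 : ‖ζ - z‖⁻¹ ≤ 4 / R := by
        rw [inv_le_comm₀ (by linarith [hlz ζ hζ]) (by positivity), inv_div]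
        exact hlz ζ hζ
      have a3 := hM ζ (hcs hζ)
      gcongr)
  refine hfin.trans (le_of_eq ?_)
  rw [pow_succ]
  field_simp
  ring

/-- the size of the Newton sum -/
theorem NI_bd {f : ℂ → ℂ} {c : ℂ} {R M : ℝ} (hR : 0 < R) (hR1 : R ≤ 1)
    (hf : DifferentiableOn ℂ f (ball c R)) (hM : ∀ z ∈ ball c R, ‖f z‖ ≤ M)
    (N D : ℕ) (hN : 0 < N) (m : ℕ)
    (hx : ∀ i ≤ D, ‖(m : ℂ) / N + i * (1 / N) - c‖ ≤ 5 / 400 * R)
    (z : ℂ) (hz : z ∈ ball c (R / 200)) : ‖NI N m D f z‖ ≤ 4 * M * N := by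
  have hN' : (N : ℂ) ≠ 0 := by exact_mod_cast hN.ne'
  have hNr : (0 : ℝ) < N := by exact_mod_cast hN
  have hN1 : (1 : ℝ) ≤ N := by exact_mod_cast hN
  have hM0 : 0 ≤ M := (norm_nonneg _).trans (hM c (mem_ball_self hR))
  have h1 := one_fun hR hf hf hM (e := 0) (fun z _ => by simp) N D hN m hx z hz
  have h2 : ‖(z - (m : ℂ) / N) * ∫ t in (0:ℝ)..1, f ((m : ℂ) / N + (z - (m : ℂ) / N) * t)‖ ≤ M := by
    have hwb : (m : ℂ) / N ∈ ball c R := by
      have := hx 0 (by omega)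
      rw [mem_ball, dist_eq_norm]
      have e : (m : ℂ) / N + (0 : ℕ) * (1 / N) - c = (m : ℂ) / N - c := by push_cast; ring
      rw [e] at this
      linarith
    have hzb : z ∈ ball c R := ball_subset_ball (by linarith) hz
    have hb := intervalIntegral.norm_integral_le_of_norm_le_const (a := (0 : ℝ)) (b := 1) (C := M)
      (f := fun t : ℝ => f ((m : ℂ) / N + (z - (m : ℂ) / N) * t)) (by
        intro t ht
        rw [Set.uIoc_of_le zero_le_one] at ht
        refine hM _ ?_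
        have h3 := (convex_ball c R) hwb hzb (a := 1 - t) (b := t) (by linarith [ht.2]) ht.1.le (by ring)
        have e : (1 - t) • ((m : ℂ) / N) + t • z = (m : ℂ) / N + (z - (m : ℂ) / N) * t := by
          rw [Complex.real_smul, Complex.real_smul]; push_cast; ring
        rwa [e] at h3)
    rw [norm_mul]
    rw [sub_zero, abs_one, mul_one] at hb
    have h4 : ‖z - (m : ℂ) / N‖ ≤ 1 := by
      rw [mem_ball, dist_eq_norm] at hzb hwb
      have e : z - (m : ℂ) / N = (z - c) - ((m : ℂ) / N - c) := by ring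
      have h5 := hx 0 (by omega)
      have e5 : (m : ℂ) / N + (0 : ℕ) * (1 / N) - c = (m : ℂ) / N - c := by push_cast; ring
      rw [e5] at h5
      rw [mem_ball, dist_eq_norm] at hz
      rw [e]
      refine (norm_sub_le _ _).trans ?_
      linarith
    calc _ ≤ 1 * M := mul_le_mul h4 hb (norm_nonneg _) zero_le_one
      _ = M := one_mul M
  have h3 : ‖NI N m D f z / N‖ ≤ 4 * M := by
    have h4 : ‖NI N m D f z / N - (z - (m : ℂ) / N) * ∫ t in (0:ℝ)..1, f ((m : ℂ) / N + (z - (m : ℂ) / N) * t)‖ ≤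
        R / 2 * ((3 / (R * N) + (1 / 2) ^ D) * M + 0) := h1
    have h5 : R / 2 * ((3 / (R * N) + (1 / 2) ^ D) * M + 0) ≤ 3 * M := by
      have h6 : R / 2 * (3 / (R * N)) ≤ 3 / 2 := by
        rw [← mul_div_assoc, div_le_iff₀ (by positivity)]
        nlinarith
      have h7 : (1 / 2 : ℝ) ^ D ≤ 1 := pow_le_one₀ (by norm_num) (by norm_num)
      have h8 : R / 2 * (1 / 2 : ℝ) ^ D ≤ 1 := by
        have : 0 ≤ (1 / 2 : ℝ) ^ D := by positivity
        nlinarith
      have e : R / 2 * ((3 / (R * N) + (1 / 2) ^ D) * M + 0) =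
        (R / 2 * (3 / (R * N)) + R / 2 * (1 / 2 : ℝ) ^ D) * M := by ring
      rw [e]
      have : R / 2 * (3 / (R * N)) + R / 2 * (1 / 2 : ℝ) ^ D ≤ 3 := by linarith
      gcongr
    have h6 := norm_add_le (NI N m D f z / N - (z - (m : ℂ) / N) * ∫ t in (0:ℝ)..1, f ((m : ℂ) / N + (z - (m : ℂ) / N) * t))
      ((z - (m : ℂ) / N) * ∫ t in (0:ℝ)..1, f ((m : ℂ) / N + (z - (m : ℂ) / N) * t))
    rw [sub_add_cancel] at h6
    linarith
  rw [norm_div, Complex.norm_natCast, div_le_iff₀ hNr] at h3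
  exact h3

end Run7.h260.VX
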