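import Pool.Agent.Run7.h260.VX.X5
import Pool.Agent.Run7.h260.VX.X6

/-!
# The interpolated products to all orders
-/

set_option autoImplicit false

namespace Run7.h260.VX

open Filter Topology Metric Function Finset
open Pool.Agent.W711.HT hiding bb
open Pool.Agent.Y472 Pool.Agent.Y472.K
open Pool.Agent.W571.FE.EM (bb)
open Pool.Agent.W366.HT (nw)
open Run7.h260.VC
open scoped Real Nat

lemma iter_an (k : ℕ) {z : ℂ} (hz : z ∈ Bh) : AnalyticAt ℂ (iteratedDeriv k ls) z := by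
  rw [iteratedDeriv_eq_iterate]
  exact (ls_analytic (Bh_re hz).1 (Bh_re hz).2).iterated_deriv k

lemma hK_diffAt (K N : ℕ) {z : ℂ} (hz : z ∈ Bh) : DifferentiableAt ℂ (hK K N) z := by
  unfold hK
  refine DifferentiableAt.add ((FF_deriv hz).differentiableAt.const_mul _) ?_
  refine DifferentiableAt.fun_sum fun k _ => ?_
  exact ((iter_an k hz).differentiableAt.const_mul _).div_const _

lemma hK_bd (K : ℕ) : ∃ C : ℝ, 0 < C ∧ ∀ N : ℕ, 1 ≤ N → ∀ z ∈ D1, ‖hK K N z‖ ≤ C * N := by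
  have hc : IsCompact D1 := isCompact_closedBall _ _
  obtain ⟨CF, hCF⟩ := hc.exists_bound_of_continuousOn (f := FF) fun z hz =>
    (FF_deriv (D1_sub hz)).continuousAt.continuousWithinAt
  have hk : ∀ k : ℕ, ∃ C : ℝ, ∀ z ∈ D1, ‖iteratedDeriv k ls z‖ ≤ C := fun k =>
    hc.exists_bound_of_continuousOn fun z hz => (iter_an k (D1_sub hz)).continuousAt.continuousWithinAt
  choose Ck hCk using hk
  have h0 : (1 / 2 : ℂ) ∈ D1 := mem_closedBall_self (by norm_num)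
  have hC0 : ∀ k, 0 ≤ Ck k := fun k => (norm_nonneg _).trans (hCk k _ h0)
  have hF0 : 0 ≤ CF := (norm_nonneg _).trans (hCF _ h0)
  refine ⟨CF + ∑ k ∈ range K, |bb 1 k| * Ck k + 1, by
    have : 0 ≤ ∑ k ∈ range K, |bb 1 k| * Ck k :=
      Finset.sum_nonneg fun k _ => mul_nonneg (abs_nonneg _) (hC0 k)
    positivity, fun N hN z hz => ?_⟩
  have hN1 : (1 : ℝ) ≤ N := by exact_mod_cast hN
  unfold hK
  refine (norm_add_le _ _).trans ?_
  have h1 : ‖(N : ℂ) * FF z‖ ≤ CF * N := by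
    rw [norm_mul, Complex.norm_natCast, mul_comm]
    exact mul_le_mul_of_nonneg_right (hCF z hz) (by positivity)
  have h2 : ‖∑ k ∈ range K, (bb 1 k : ℂ) * iteratedDeriv k ls z / (N : ℂ) ^ k‖ ≤
      ∑ k ∈ range K, |bb 1 k| * Ck k := by
    refine norm_sum_le_of_le _ fun k _ => ?_
    rw [norm_div, norm_mul, norm_pow, Complex.norm_natCast, Complex.norm_real, Real.norm_eq_abs]
    refine (div_le_self (by positivity) (one_le_pow₀ hN1)).trans ?_
    exact mul_le_mul_of_nonneg_left (hCk k z hz) (abs_nonneg _)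
  have h3 : 0 ≤ ∑ k ∈ range K, |bb 1 k| * Ck k :=
    Finset.sum_nonneg fun k _ => mul_nonneg (abs_nonneg _) (hC0 k)
  nlinarith

/-- the first node -/
noncomputable def mX (N : ℕ) : ℕ := ⌊(1 / 3 - 1 / 40000 : ℝ) * N⌋₊
/-- the number of nodes -/
noncomputable def DX (N : ℕ) : ℕ := ⌊(1 / 20000 : ℝ) * N⌋₊

lemma mX_bd {N : ℕ} (hN : 1000000 ≤ N) : (1 / 3 - 1 / 40000 - 1 / 1000000 : ℝ) ≤ (mX N : ℝ) / N ∧
    (mX N : ℝ) / N ≤ 1 / 3 - 1 / 40000 := by
  have hN' : (0 : ℝ) < N := by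
    have : 0 < N := by omega
    exact_mod_cast this
  have hNr : (1000000 : ℝ) ≤ N := by exact_mod_cast hN
  constructor
  · rw [le_div_iff₀ hN']
    have := Nat.lt_floor_add_one ((1 / 3 - 1 / 40000 : ℝ) * N)
    unfold mX
    linarith
  · rw [div_le_iff₀ hN']
    exact Nat.floor_le (by positivity)

lemma nodes {N : ℕ} (hN : 1000000 ≤ N) : ∀ i ≤ DX N,
    ‖(mX N : ℂ) / N + i * (1 / N) - 1 / 3‖ ≤ 5 / 400 * (1 / 400 : ℝ) := by
  intro i hi
  have hN' : (0 : ℝ) < N := by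
    have : 0 < N := by omega
    exact_mod_cast this
  obtain ⟨h1, h2⟩ := mX_bd hN
  have h3 : (i : ℝ) / N ≤ 1 / 20000 := by
    rw [div_le_iff₀ hN']
    exact (Nat.cast_le.2 hi).trans (Nat.floor_le (by positivity))
  have h4 : 0 ≤ (i : ℝ) / N := by positivity
  have e : (mX N : ℂ) / N + i * (1 / N) - 1 / 3 = (((mX N : ℝ) / N + i / N - 1 / 3 : ℝ) : ℂ) := by
    push_cast
    ring
  rw [e, Complex.norm_real, Real.norm_eq_abs, abs_le]
  constructor <;> linarith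

lemma node_pt {N : ℕ} (hN : 1000000 ≤ N) {i : ℕ} (hi : i ≤ DX N) :
    (((mX N + i : ℕ) : ℂ) / N) ∈ ball (1 / 3 : ℂ) (1 / 400) := by
  have := nodes hN i hi
  rw [mem_ball, dist_eq_norm]
  have e : (((mX N + i : ℕ) : ℂ) / N) - 1 / 3 = (mX N : ℂ) / N + i * (1 / N) - 1 / 3 := by
    push_cast; ring
  rw [e]
  refine this.trans_lt (by norm_num)

lemma D1_of {w ξ : ℂ} {x : ℝ} (hw : w ∈ ball (1 / 3 : ℂ) (1 / 400)) (hξ : ξ ∈ Bs) (h0 : 0 ≤ x)
    (h1 : x ≤ 1 / 200) : w + x + ξ ∈ D1 := by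
  unfold Bs at hξ
  rw [mem_ball_zero_iff] at hξ
  rw [mem_ball, dist_eq_norm] at hw
  unfold D1
  rw [mem_closedBall, dist_eq_norm]
  have e : w + x + ξ - 1 / 2 = (w - 1 / 3) + ((x - 1 / 6 : ℝ) : ℂ) + ξ := by push_cast; ring
  rw [e]
  refine (norm_add_le _ _).trans ?_
  have h2 := norm_add_le (w - 1 / 3) (((x - 1 / 6 : ℝ) : ℂ))
  rw [Complex.norm_real, Real.norm_eq_abs] at h2
  have h3 : |x - 1 / 6| ≤ 1 / 6 := by rw [abs_le]; constructor <;> linarith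
  linarith

/-- the Newton sum to all orders -/
theorem Nt_ord (K : ℕ) : ∃ C : ℝ, 0 < C ∧ ∀ᶠ N : ℕ in atTop, ∀ z ∈ ball (1 / 3 : ℂ) (1 / 80000),
    ∀ ξ ∈ Bs, ‖Nt N (mX N) (DX N) z ξ - (hK K N (z + ξ) - hK K N ((mX N : ℂ) / N + ξ))‖ ≤
      C / (N : ℝ) ^ K := by
  obtain ⟨C₁, hC₁, h1⟩ := one_step K
  obtain ⟨C₂, hC₂, h2⟩ := hK_bd K
  obtain ⟨C₃, hC₃, h3⟩ := pow_exp_bd (K + 1) (κ := Real.log 2 / 40000) (by
    have := Real.log_pos one_lt_two
    positivity)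
  refine ⟨C₂ * 2 * C₃ + 4 * C₁, by positivity, ?_⟩
  filter_upwards [eventually_ge_atTop 1000000, h3] with N hN h3 z hz ξ hξ
  have hN0 : 0 < N := by omega
  have hN' : (0 : ℝ) < N := by exact_mod_cast hN0
  have hNr : (1000000 : ℝ) ≤ N := by exact_mod_cast hN
  have hNc : (N : ℂ) ≠ 0 := by exact_mod_cast hN0.ne'
  have hB : ∀ w ∈ ball (1 / 3 : ℂ) (1 / 400), w + ξ ∈ D1 ∧ w + ξ + 1 / N ∈ D1 := by
    intro w hw
    have a1 := D1_of hw hξ le_rfl (by norm_num)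
    have a2 := D1_of (x := 1 / N) hw hξ (by positivity) (by
      rw [div_le_div_iff₀ hN' (by norm_num)]; linarith)
    rw [Complex.ofReal_zero, add_zero] at a1
    refine ⟨a1, ?_⟩
    have e : w + ξ + 1 / N = w + ((1 / N : ℝ) : ℂ) + ξ := by push_cast; ring
    rw [e]
    exact a2
  have hDB : ∀ w ∈ D1, w ∈ Bh := fun w hw => D1_sub hw
  have hBt : ball (1 / 3 : ℂ) (1 / 400) ⊆ Bt := ball_subset_ball (by norm_num)
  have hdh : DifferentiableOn ℂ (fun w => hK K N (w + ξ)) (ball (1 / 3) (1 / 400)) := by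
    intro w hw
    exact (DifferentiableAt.comp (g := hK K N) (f := fun w : ℂ => w + ξ) w
      (hK_diffAt K N (hDB _ (hB w hw).1)) (by fun_prop)).differentiableWithinAt
  have hdh1 : DifferentiableOn ℂ (fun w => hK K N (w + 1 / N + ξ)) (ball (1 / 3) (1 / 400)) := by
    intro w hw
    have e : w + 1 / N + ξ = w + ξ + 1 / N := by ring
    exact (DifferentiableAt.comp (g := hK K N) (f := fun w : ℂ => w + 1 / N + ξ) w
      (hK_diffAt K N (by show w + 1 / N + ξ ∈ Bh; rw [e]; exact hDB _ (hB w hw).2)) (by fun_prop)).differentiableWithinAt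
  have hdl : DifferentiableOn ℂ (fun w => ls (w + 1 / N + ξ)) (ball (1 / 3) (1 / 400)) := by
    intro w hw
    have e : w + 1 / N + ξ = w + ξ + 1 / N := by ring
    have hb : w + 1 / N + ξ ∈ Bh := by rw [e]; exact hDB _ (hB w hw).2
    exact (DifferentiableAt.comp (g := ls) (f := fun w : ℂ => w + 1 / N + ξ) w
      (ls_hasDerivAt (Bh_re hb).1 (Bh_re hb).2).differentiableAt (by fun_prop)).differentiableWithinAt
  have e1 : Nt N (mX N) (DX N) z ξ = NI N (mX N) (DX N) (lam N ξ) z := rfl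
  have e2 : NI N (mX N) (DX N) (lam N ξ) z = NI N (mX N) (DX N)
      (fun w => (hK K N (w + 1 / N + ξ) - hK K N (w + ξ)) +
        (ls (w + 1 / N + ξ) - (hK K N (w + 1 / N + ξ) - hK K N (w + ξ)))) z := by
    refine NI_congr (fun i hi => ?_) z
    rw [lam_mem (hBt (node_pt hN hi.le))]
    push_cast
    ring
  rw [e1, e2, NI_add]
  have d1 := NI_diff (h := fun w => hK K N (w + ξ)) (c := 1 / 3) (R := 1 / 400) (M := C₂ * N)
    (by norm_num) hdh (fun w hw => h2 N (by omega) _ (hB w hw).1) N (DX N) hN0 (mX N) (nodes hN) z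
    (by
      have : (1 / 400 / 200 : ℝ) = 1 / 80000 := by norm_num
      rw [this]; exact hz)
  have d2 := NI_bd (f := fun w => ls (w + 1 / N + ξ) - (hK K N (w + 1 / N + ξ) - hK K N (w + ξ)))
    (c := 1 / 3) (R := 1 / 400) (M := C₁ / (N : ℝ) ^ (K + 1)) (by norm_num) (by norm_num)
    (hdl.sub (hdh1.sub hdh)) (by
      intro w hw
      have e : w + 1 / N + ξ = w + ξ + 1 / N := by ring
      rw [e]
      exact h1 N (by omega) _ (hB w hw).1 (hB w hw).2) N (DX N) hN0 (mX N) (nodes hN) z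
    (by
      have : (1 / 400 / 200 : ℝ) = 1 / 80000 := by norm_num
      rw [this]; exact hz)
  have e3 : NI N (mX N) (DX N) (fun w => hK K N (w + 1 / N + ξ) - hK K N (w + ξ)) z =
      NI N (mX N) (DX N) (fun w => (fun w => hK K N (w + ξ)) (w + 1 / N) - (fun w => hK K N (w + ξ)) w) z := rfl
  rw [e3]
  have hpow : (1 / 2 : ℝ) ^ DX N ≤ 2 * Real.exp (-(Real.log 2 / 40000 * N)) := by
    have a1 : (1 / 20000 : ℝ) * N - 1 ≤ DX N := by
      have := Nat.lt_floor_add_one ((1 / 20000 : ℝ) * N)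
      unfold DX
      linarith
    have a2 : (1 / 2 : ℝ) ^ DX N = Real.exp (-(Real.log 2 * DX N)) := by
      rw [← Real.exp_log (show (0 : ℝ) < 1 / 2 by norm_num), ← Real.exp_nat_mul, one_div, Real.log_inv]
      congr 1
      ring
    rw [a2]
    have a3 : (2 : ℝ) * Real.exp (-(Real.log 2 / 40000 * N)) =
        Real.exp (Real.log 2 + -(Real.log 2 / 40000 * N)) := by
      rw [Real.exp_add, Real.exp_log two_pos]
    rw [a3]
    refine Real.exp_le_exp.2 ?_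
    have a4 := Real.log_pos one_lt_two
    nlinarith
  have hN1 : (N : ℝ) ^ (K + 1) = (N : ℝ) ^ K * N := pow_succ _ _
  have f1 : C₂ * N * (1 / 2 : ℝ) ^ DX N ≤ C₂ * 2 * C₃ / (N : ℝ) ^ K := by
    rw [le_div_iff₀ (by positivity)]
    calc C₂ * N * (1 / 2 : ℝ) ^ DX N * (N : ℝ) ^ K
        ≤ C₂ * N * (2 * Real.exp (-(Real.log 2 / 40000 * N))) * (N : ℝ) ^ K := by gcongr
      _ = C₂ * 2 * ((N : ℝ) ^ (K + 1) * Real.exp (-(Real.log 2 / 40000 * N))) := by rw [hN1]; ring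
      _ ≤ C₂ * 2 * C₃ := by gcongr
  have f2 : 4 * (C₁ / (N : ℝ) ^ (K + 1)) * N = 4 * C₁ / (N : ℝ) ^ K := by
    rw [hN1]; field_simp
  rw [f2] at d2
  have e4 : ∀ a b c : ℂ, a + b - c = (a - c) + b := by intro a b c; ring
  rw [e4]
  refine (norm_add_le _ _).trans ?_
  have := add_le_add (d1.trans f1) d2
  rw [← add_div] at this
  exact this

/-- the middle point -/
noncomputable def mu (N : ℕ) : ℂ := (((N - 1) / 2 : ℕ) : ℂ) / N

lemma mu_real (N : ℕ) : mu N = (((((N - 1) / 2 : ℕ) : ℝ) / N : ℝ) : ℂ) := by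
  unfold mu; push_cast; rfl

lemma mu_bd {N : ℕ} (hN : 1000000 ≤ N) : (1 / 2 - 1 / 1000000 : ℝ) ≤ (((N - 1) / 2 : ℕ) : ℝ) / N ∧
    (((N - 1) / 2 : ℕ) : ℝ) / N ≤ 1 / 2 := by
  have hN' : (0 : ℝ) < N := by
    have : 0 < N := by omega
    exact_mod_cast this
  have hNr : (1000000 : ℝ) ≤ N := by exact_mod_cast hN
  constructor
  · rw [le_div_iff₀ hN']
    have : (N : ℝ) ≤ 2 * (((N - 1) / 2 : ℕ) : ℝ) + 2 := by
      have : N ≤ 2 * ((N - 1) / 2) + 2 := by omega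
      exact_mod_cast this
    linarith
  · rw [div_le_iff₀ hN']
    have : 2 * (((N - 1) / 2 : ℕ) : ℝ) ≤ N := by
      have : 2 * ((N - 1) / 2) ≤ N := by omega
      exact_mod_cast this
    linarith

lemma D1_real {x : ℝ} {ξ : ℂ} (h0 : 26 / 100 ≤ x) (h1 : x ≤ 74 / 100) (h : ‖ξ‖ ≤ 1 / 100) :
    (x : ℂ) + ξ ∈ D1 := by
  unfold D1
  rw [mem_closedBall, dist_eq_norm]
  have e : (x : ℂ) + ξ - 1 / 2 = ((x - 1 / 2 : ℝ) : ℂ) + ξ := by push_cast; ring
  rw [e]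
  refine (norm_add_le _ _).trans ?_
  rw [Complex.norm_real, Real.norm_eq_abs]
  have : |x - 1 / 2| ≤ 1 / 4 - 1 / 100 := by rw [abs_le]; constructor <;> linarith
  linarith

/-- the interpolated products to all orders -/
theorem Wn_ord (K : ℕ) : ∃ C : ℝ, 0 < C ∧ ∀ᶠ N : ℕ in atTop, ∀ z ∈ ball (1 / 3 : ℂ) (1 / 80000),
    ∀ ξ ∈ Bs, ∃ e : ℂ, ‖e‖ ≤ C / (N : ℝ) ^ K ∧
      Wn N (mX N) (DX N) z ξ = Complex.exp (hK K N (mu N + ξ) - hK K N (z + ξ) + e) := by
  obtain ⟨C₁, hC₁, h1⟩ := Nt_ord K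
  obtain ⟨C₂, hC₂, h2⟩ := sums K
  refine ⟨C₁ + C₂, by positivity, ?_⟩
  filter_upwards [h1, eventually_ge_atTop 1000000] with N h1 hN z hz ξ hξ
  have hN0 : 0 < N := by omega
  have hN' : (0 : ℝ) < N := by exact_mod_cast hN0
  have hξn : ‖ξ‖ ≤ 1 / 100 := by
    unfold Bs at hξ
    rw [mem_ball_zero_iff] at hξ
    linarith
  obtain ⟨m1, m2⟩ := mX_bd hN
  obtain ⟨u1, u2⟩ := mu_bd hN
  have hmn : mX N ≤ (N - 1) / 2 := by
    have : (mX N : ℝ) / N ≤ (((N - 1) / 2 : ℕ) : ℝ) / N := by linarith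
    rw [div_le_div_iff_of_pos_right hN'] at this
    exact_mod_cast this
  have hs := h2 N (by omega) (mX N) ((N - 1) / 2) ξ hmn (by omega) (by
    intro t ht1 ht2
    have e : ((t : ℂ) / N + ξ) = (((t : ℝ) / N : ℝ) : ℂ) + ξ := by push_cast; rfl
    rw [e]
    have a1 : (mX N : ℝ) / N ≤ (t : ℝ) / N :=
      div_le_div_of_nonneg_right (by exact_mod_cast ht1) hN'.le
    have a2 : (t : ℝ) / N ≤ (((N - 1) / 2 : ℕ) : ℝ) / N :=
      div_le_div_of_nonneg_right (by exact_mod_cast ht2) hN'.le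
    exact D1_real (by linarith) (by linarith) hξn)
  refine ⟨((∑ t ∈ Ioc (mX N) ((N - 1) / 2), ls ((t : ℂ) / N + ξ)) -
    (hK K N ((((N - 1) / 2 : ℕ) : ℂ) / N + ξ) - hK K N ((mX N : ℂ) / N + ξ))) -
    (Nt N (mX N) (DX N) z ξ - (hK K N (z + ξ) - hK K N ((mX N : ℂ) / N + ξ))), ?_, ?_⟩
  · refine (norm_sub_le _ _).trans ?_
    have := add_le_add hs (h1 z hz ξ hξ)
    rw [← add_div, add_comm C₂ C₁] at this
    exact this
  · unfold Wn
    rw [Pn_exp (by omega) (by linarith) hξn, ← Complex.exp_add]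
    congr 1
    unfold mu
    ring

/-- interpolation at the lattice points -/
theorem interpX : ∀ᶠ N : ℕ in atTop, ∀ d : ℕ, |(d : ℝ) / N - 1 / 3| < 1 / 80000 →
    ∀ ξ ∈ ball (0 : ℂ) (1 / 80000), Pn N d ξ = Wn N (mX N) (DX N) ((d : ℂ) / N) ξ := by
  filter_upwards [eventually_ge_atTop 1000000] with N hN d hd ξ hξ
  have hN0 : 0 < N := by omega
  have hN' : (0 : ℝ) < N := by exact_mod_cast hN0
  have hNr : (1000000 : ℝ) ≤ N := by exact_mod_cast hN
  have hNc : (N : ℂ) ≠ 0 := by exact_mod_cast hN0.ne'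
  rw [mem_ball_zero_iff] at hξ
  have hξn : ‖ξ‖ ≤ 1 / 100 := by linarith
  obtain ⟨m1, m2⟩ := mX_bd hN
  rw [abs_lt] at hd
  have hmd : mX N ≤ d := by
    have : (mX N : ℝ) / N ≤ (d : ℝ) / N := by linarith
    rw [div_le_div_iff_of_pos_right hN'] at this
    exact_mod_cast this
  have hdn : d ≤ (N - 1) / 2 := by
    have h1 : (d : ℝ) < (1 / 3 + 1 / 80000) * N := by
      rw [← div_lt_iff₀ hN']; linarith [hd.2]
    have h3 : (2 * d + 2 : ℝ) ≤ N := by nlinarith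
    have h4 : 2 * d + 2 ≤ N := by exact_mod_cast h3
    omega
  have hD : d - mX N ≤ DX N := by
    apply Nat.le_floor
    rw [Nat.cast_sub hmd]
    have h1 : (d : ℝ) < (1 / 3 + 1 / 80000) * N := by
      rw [← div_lt_iff₀ hN']; linarith [hd.2]
    have h2 : (1 / 3 - 1 / 40000 - 1 / 1000000) * N ≤ (mX N : ℝ) := by
      rwa [← le_div_iff₀ hN']
    linarith
  have e1 : Nt N (mX N) (DX N) ((d : ℂ) / N) ξ = ∑ i ∈ range (d - mX N), lam N ξ (((mX N + i : ℕ) : ℂ) / N) := by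
    rw [Pool.Agent.W176.HTN.newton_sum (fun i => lam N ξ (((mX N + i : ℕ) : ℂ) / N)) (DX N) (d - mX N) hD]
    unfold Nt cf nw
    refine Finset.sum_congr rfl fun j _ => ?_
    rw [mul_div_cancel₀ _ hNc, Nat.cast_sub hmd]
  have e2 : ∑ i ∈ range (d - mX N), lam N ξ (((mX N + i : ℕ) : ℂ) / N) =
      ∑ t ∈ Ioc (mX N) d, ls ((t : ℂ) / N + ξ) := by
    rw [← Finset.sum_Ico_eq_sum_range (fun j => lam N ξ ((j : ℂ) / N))]
    have e3 : (Finset.Ico (mX N) d).image (fun j => j + 1) = Finset.Ioc (mX N) d := by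
      ext t
      simp only [Finset.mem_image, Finset.mem_Ico, Finset.mem_Ioc]
      constructor
      · rintro ⟨j, hj, rfl⟩; omega
      · intro ht; exact ⟨t - 1, by omega, by omega⟩
    rw [← e3, Finset.sum_image (by intro a _ b _ h; simpa using h)]
    refine Finset.sum_congr rfl fun j hj => ?_
    rw [Finset.mem_Ico] at hj
    have hjt : ((j : ℂ) / N) ∈ Bt := by
      have h1 := node_pt hN (i := j - mX N) (by omega)
      have : mX N + (j - mX N) = j := by omega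
      rw [this] at h1
      exact ball_subset_ball (by norm_num) h1
    rw [lam_mem hjt]
    congr 1
    push_cast
    field_simp
  unfold Wn
  rw [e1, e2, Pn_exp (m := d) (by omega) (by linarith [hd.1]) hξn,
    Pn_exp (m := mX N) (by omega) (by linarith) hξn, ← Complex.exp_add]
  congr 1
  have e5 : ∑ t ∈ Finset.Ioc (mX N) ((N - 1) / 2), ls ((t : ℂ) / N + ξ) =
      ∑ t ∈ Finset.Ioc (mX N) d, ls ((t : ℂ) / N + ξ) +
        ∑ t ∈ Finset.Ioc d ((N - 1) / 2), ls ((t : ℂ) / N + ξ) := by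
    rw [← Finset.sum_union]
    · rw [Finset.Ioc_union_Ioc_eq_Ioc hmd hdn]
    · rw [Finset.disjoint_left]
      intro t ht1 ht2
      rw [Finset.mem_Ioc] at ht1 ht2
      omega
  rw [e5]
  ring

end Run7.h260.VX
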