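import Pool.Agent.Run7.h260.VX.X7
import Pool.Agent.Run7.h260.VX.X4
import Pool.Agent.W67.AX.UX2

/-!
# The terms of the sum to all orders
-/

set_option autoImplicit false

namespace Run7.h260.VX

open Filter Topology Metric Function Finset
open Pool.Agent.W711.HT hiding bb
open Pool.Agent.Y472 Pool.Agent.Y472.K
open Pool.Agent.W571.FE.EM (bb)
open Pool.Agent.W719.AX (UX)
open Run7.h260.VC
open scoped Real Nat

lemma Bs_norm {ξ : ℂ} (h : ξ ∈ Bs) : ‖ξ‖ ≤ 1 / 100 := by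
  unfold Bs at h
  rw [mem_ball_zero_iff] at h
  linarith

lemma Bs_neg {ξ : ℂ} (h : ξ ∈ Bs) : -ξ ∈ Bs := by
  unfold Bs at h ⊢
  rw [mem_ball_zero_iff] at h ⊢
  rwa [norm_neg]

/-- the sum of the values at the middle -/
theorem mid0 (K : ℕ) (hK1 : 1 ≤ K) : ∃ C : ℝ, 0 < C ∧ ∀ N : ℕ, 1000000 ≤ N → ∀ ξ ∈ Bs, ∃ e : ℂ,
    ‖e‖ ≤ C / (N : ℝ) ^ K ∧ hK K N (mu N + ξ) + hK K N (mu N - ξ) =
      (if Even N then -ls (1 / 2 - ξ) else 0) + e := by
  obtain ⟨C₁, hC₁, h1⟩ := refl K hK1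
  obtain ⟨C₂, hC₂, h2⟩ := one_step K
  refine ⟨C₁ + C₂, by positivity, fun N hN ξ hξ => ?_⟩
  have hN0 : 0 < N := by omega
  have hN' : (0 : ℝ) < N := by exact_mod_cast hN0
  have hNr : (1000000 : ℝ) ≤ N := by exact_mod_cast hN
  have hNc : (N : ℂ) ≠ 0 := by exact_mod_cast hN0.ne'
  have hN1 : (1 : ℝ) ≤ N := by linarith
  have hξn := Bs_norm hξ
  have hξn' := Bs_norm (Bs_neg hξ)
  obtain ⟨u1, u2⟩ := mu_bd hN
  have hi : 1 / (N : ℝ) ≤ 1 / 1000000 := by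
    rw [div_le_div_iff₀ hN' (by norm_num)]; linarith
  have hi0 : 0 < 1 / (N : ℝ) := by positivity
  have d1 : mu N + ξ ∈ D1 := by
    rw [mu_real]; exact D1_real (by linarith) (by linarith) hξn
  have d1' : mu N + ξ + 1 / N ∈ D1 := by
    have e : mu N + ξ + 1 / N = (((((N - 1) / 2 : ℕ) : ℝ) / N + 1 / N : ℝ) : ℂ) + ξ := by
      rw [mu_real]; push_cast; ring
    rw [e]; exact D1_real (by linarith) (by linarith) hξn
  have d2 : mu N - ξ ∈ D1 := by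
    rw [mu_real, sub_eq_add_neg]; exact D1_real (by linarith) (by linarith) hξn'
  have d2' : mu N - ξ + 1 / N ∈ D1 := by
    have e : mu N - ξ + 1 / N = (((((N - 1) / 2 : ℕ) : ℝ) / N + 1 / N : ℝ) : ℂ) + -ξ := by
      rw [mu_real]; push_cast; ring
    rw [e]; exact D1_real (by linarith) (by linarith) hξn'
  have r1 := h1 N (by omega) _ d1 d1'
  have hle : ∀ C : ℝ, 0 < C → C / (N : ℝ) ^ (K + 1) ≤ C / (N : ℝ) ^ K := by
    intro C hC
    exact div_le_div_of_nonneg_left hC.le (by positivity) (pow_le_pow_right₀ hN1 (by omega))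
  rcases Nat.even_or_odd N with h | h
  · rw [if_pos h]
    obtain ⟨k, hk⟩ := h
    have hmu : mu N = 1 / 2 - 1 / N := by
      unfold mu
      have e1 : (N - 1) / 2 = k - 1 := by omega
      rw [e1, Nat.cast_sub (by omega)]
      have e2 : (N : ℂ) = 2 * k := by rw [hk]; push_cast; ring
      have hk0 : (k : ℂ) ≠ 0 := by
        have : k ≠ 0 := by omega
        exact_mod_cast this
      rw [e2]
      push_cast
      field_simp
    have r2 := h2 N (by omega) _ d2 d2'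
    have e3 : (1 : ℂ) - 1 / N - (mu N + ξ) = 1 / 2 - ξ := by rw [hmu]; ring
    have e4 : mu N - ξ + 1 / N = 1 / 2 - ξ := by rw [hmu]; ring
    rw [e3] at r1
    rw [e4] at r2
    refine ⟨(hK K N (1 / 2 - ξ) + hK K N (mu N + ξ)) +
      (ls (1 / 2 - ξ) - (hK K N (1 / 2 - ξ) - hK K N (mu N - ξ))), ?_, by ring⟩
    refine (norm_add_le _ _).trans ?_
    rw [add_div]
    exact add_le_add (r1.trans (hle _ hC₁)) (r2.trans (hle _ hC₂))
  · rw [if_neg (by rwa [Nat.not_even_iff_odd])]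
    obtain ⟨k, hk⟩ := h
    have hmu : mu N = 1 / 2 - 1 / (2 * N) := by
      unfold mu
      have e1 : (N - 1) / 2 = k := by omega
      rw [e1]
      have e2 : (N : ℂ) = 2 * k + 1 := by rw [hk]; push_cast; ring
      have hk0 : (2 * (k : ℂ) + 1) ≠ 0 := by rw [← e2]; exact hNc
      have hu := mul_inv_cancel₀ hk0
      rw [e2, div_eq_mul_inv, one_div, one_div, mul_inv]
      linear_combination (1 / 2) * hu
    have e3 : (1 : ℂ) - 1 / N - (mu N + ξ) = mu N - ξ := by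
      rw [hmu]; field_simp; ring
    rw [e3] at r1
    refine ⟨hK K N (mu N - ξ) + hK K N (mu N + ξ), ?_, by ring⟩
    refine r1.trans ((hle _ hC₁).trans ?_)
    exact div_le_div_of_nonneg_right (by linarith) (by positivity)

/-- the middle factor of the products of two sines -/
theorem mid1 (K : ℕ) (hK1 : 1 ≤ K) : ∃ C : ℝ, 0 < C ∧ ∀ N : ℕ, 1000000 ≤ N → ∀ ξ ∈ Bs, ∃ e : ℂ,
    ‖e‖ ≤ C / (N : ℝ) ^ K ∧ Md N (2 * π * ξ) *
      Complex.exp (2 * (hK K N (mu N + ξ) + hK K N (mu N - ξ))) = Complex.exp e := by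
  obtain ⟨C, hC, h⟩ := mid0 K hK1
  refine ⟨2 * C, by positivity, fun N hN ξ hξ => ?_⟩
  obtain ⟨e, he, heq⟩ := h N hN ξ hξ
  refine ⟨2 * e, ?_, ?_⟩
  · rw [norm_mul, mul_div_assoc]
    have : ‖(2 : ℂ)‖ = 2 := by simp
    rw [this]
    linarith
  rw [heq]
  split_ifs with hev
  · rw [Md_even (by omega) hev]
    have hw : (1 / 2 : ℂ) - ξ ∈ D1 := by
      have := D1_real (x := 1 / 2) (ξ := -ξ) (by norm_num) (by norm_num) (Bs_norm (Bs_neg hξ))
      have e2 : (((1 / 2 : ℝ)) : ℂ) = 1 / 2 := by norm_num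
      rw [e2, ← sub_eq_add_neg] at this
      exact this
    have hb := Bh_re (D1_sub hw)
    have h1 := ls_exp hb.1 hb.2
    have h2 : Complex.sin (π * (1 / 2 - ξ)) = Complex.cos (π * ξ) := by
      rw [mul_sub, mul_one_div, Complex.sin_pi_div_two_sub]
    rw [h2] at h1
    have h3 : 2 * Complex.cos (2 * π * ξ) + 2 = (2 * Complex.cos (π * ξ)) ^ 2 := by
      have : 2 * π * ξ = 2 * (π * ξ) := by ring
      rw [this, Complex.cos_two_mul]
      ring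
    have h4 : 2 * (-ls (1 / 2 - ξ) + e) = -(ls (1 / 2 - ξ) + ls (1 / 2 - ξ)) + 2 * e := by ring
    have h5 : (2 * Complex.cos (π * ξ)) ≠ 0 := by rw [← h1]; exact Complex.exp_ne_zero _
    have h6 : Complex.cos (π * ξ) ≠ 0 := fun h => h5 (by rw [h, mul_zero])
    rw [h3, h4, Complex.exp_add, Complex.exp_neg, Complex.exp_add, h1]
    field_simp
  · rw [Md_odd hev, one_mul, zero_add]

/-- the middle factor of the products of sines -/
theorem mid2 (K : ℕ) (hK1 : 1 ≤ K) : ∃ C : ℝ, 0 < C ∧ ∀ N : ℕ, 1000000 ≤ N → ∃ e : ℂ,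
    ‖e‖ ≤ C / (N : ℝ) ^ K ∧ ((N : ℂ) / (Sd N ((N - 1) / 2) : ℂ) ^ 2) *
      Complex.exp (2 * hK K N (mu N)) = Complex.exp e := by
  obtain ⟨C, hC, h⟩ := mid0 K hK1
  refine ⟨C, by positivity, fun N hN => ?_⟩
  obtain ⟨e, he, heq⟩ := h N hN 0 (mem_ball_self (by norm_num))
  refine ⟨e, he, ?_⟩
  have hN0 : 0 < N := by omega
  have hN' : (0 : ℝ) < N := by exact_mod_cast hN0
  have hNc : (N : ℂ) ≠ 0 := by exact_mod_cast hN0.ne'
  rw [add_zero, sub_zero] at heq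
  have h2 : 2 * hK K N (mu N) = hK K N (mu N) + hK K N (mu N) := by ring
  rw [h2, heq]
  have h0 := Pool.Agent.W346.HT.Sd_mul (N := N) (n := (N - 1) / 2) (by omega)
  split_ifs with hev
  · obtain ⟨k, hk⟩ := hev
    have e1 : (N - 1) / 2 = k - 1 := by omega
    have e2 : N - 1 - (k - 1) = (k - 1) + 1 := by omega
    rw [e1] at h0 ⊢
    rw [e2, Pool.Agent.Y941.TK.Sd_succ'] at h0
    have e3 : π * (((k - 1 : ℕ) : ℝ) + 1) / N = π / 2 := by
      have hk1 : 1 ≤ k := by omega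
      have hk' : (k : ℝ) ≠ 0 := by
        have : k ≠ 0 := by omega
        exact_mod_cast this
      rw [Nat.cast_sub hk1, hk]
      push_cast
      field_simp
      ring
    rw [e3, Real.sin_pi_div_two] at h0
    have h3 : (Sd N (k - 1)) ^ 2 = N / 2 := by nlinarith
    have h4 : ((Sd N (k - 1) : ℝ) : ℂ) ^ 2 = N / 2 := by
      have := congrArg (fun x : ℝ => (x : ℂ)) h3
      push_cast at this
      exact this
    have hb : 0 < ((1 / 2 : ℂ)).re ∧ ((1 / 2 : ℂ)).re < 1 := by norm_num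
    have h5 := ls_exp hb.1 hb.2
    have h6 : Complex.sin (π * (1 / 2)) = 1 := by
      rw [mul_one_div, Complex.sin_pi_div_two]
    rw [h6] at h5
    rw [h4, sub_zero, Complex.exp_add, Complex.exp_neg, h5]
    field_simp
  · have hodd : Odd N := by rwa [← Nat.not_even_iff_odd]
    obtain ⟨k, hk⟩ := hodd
    have e1 : N - 1 - (N - 1) / 2 = (N - 1) / 2 := by omega
    rw [e1] at h0
    have h4 : ((Sd N ((N - 1) / 2) : ℝ) : ℂ) ^ 2 = N := by
      have := congrArg (fun x : ℝ => (x : ℂ)) h0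
      push_cast at this
      rw [sq]
      exact this
    rw [h4, div_self hNc, one_mul, zero_add]

variable {n : ℕ}

/-- the derivatives of the log-sine, at one index -/
noncomputable def wt (k : ℕ) (A A' B ξ : ℂ) : ℂ :=
  iteratedDeriv k ls (A + B) + iteratedDeriv k ls (A' + B) - iteratedDeriv k ls (B + ξ) -
    iteratedDeriv k ls (B - ξ) - iteratedDeriv k ls (A + ξ) - iteratedDeriv k ls (A - ξ)

/-- the corrections -/
noncomputable def wk (n : ℕ) [NeZero n] (k : ℕ) (x : Ix n → ℂ) : ℂ :=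
  (bb 1 k : ℂ) * ∑ r : Fin n, wt k (Av x r) (Av x (r + 1)) (Bv x r) (Xv x)

/-- the points are in the region -/
lemma reg {A B ξ : ℂ} {δ : ℝ} (hδ : δ ≤ 1 / 400000) (hA : A ∈ ball (1 / 3 : ℂ) δ)
    (hB : B ∈ ball (1 / 3 : ℂ) δ) (hξ : ξ ∈ Bs) :
    A + B ∈ D1 ∧ A + ξ ∈ D1 ∧ A - ξ ∈ D1 := by
  have hξn := Bs_norm hξ
  rw [mem_ball, dist_eq_norm] at hA hB
  unfold D1
  simp only [mem_closedBall, dist_eq_norm]
  have h6 : ‖((-(1 / 6) : ℝ) : ℂ)‖ = 1 / 6 := by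
    rw [Complex.norm_real, Real.norm_eq_abs, abs_neg, abs_of_pos (by norm_num)]
  have h6' : ‖((1 / 6 : ℝ) : ℂ)‖ = 1 / 6 := by
    rw [Complex.norm_real, Real.norm_eq_abs, abs_of_pos (by norm_num)]
  refine ⟨?_, ?_, ?_⟩
  · have e : A + B - 1 / 2 = (A - 1 / 3) + (B - 1 / 3) + ((1 / 6 : ℝ) : ℂ) := by push_cast; ring
    rw [e]
    refine (norm_add_le _ _).trans ?_
    have := norm_add_le (A - 1 / 3) (B - 1 / 3)
    rw [h6']
    linarith
  · have e : A + ξ - 1 / 2 = (A - 1 / 3) + ξ + ((-(1 / 6) : ℝ) : ℂ) := by push_cast; ring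
    rw [e]
    refine (norm_add_le _ _).trans ?_
    have := norm_add_le (A - 1 / 3) ξ
    rw [h6]
    linarith
  · have e : A - ξ - 1 / 2 = (A - 1 / 3) - ξ + ((-(1 / 6) : ℝ) : ℂ) := by push_cast; ring
    rw [e]
    refine (norm_add_le _ _).trans ?_
    have := norm_sub_le (A - 1 / 3) ξ
    rw [h6]
    linarith

/-- one factor to all orders -/
theorem ft_ord (K : ℕ) (hK1 : 1 ≤ K) : ∃ C : ℝ, 0 < C ∧ ∀ᶠ N : ℕ in atTop,
    ∀ A ∈ ball (1 / 3 : ℂ) (1 / 400000), ∀ A' ∈ ball (1 / 3 : ℂ) (1 / 400000),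
    ∀ B ∈ ball (1 / 3 : ℂ) (1 / 400000), ∀ ξ ∈ Bs, ∃ e : ℂ, ‖e‖ ≤ C / (N : ℝ) ^ K ∧
      (N * Md N (2 * π * ξ) / (Sd N ((N - 1) / 2) : ℂ) ^ 2) * ft mX DX N A A' B ξ =
        Complex.exp (N * qt A A' B ξ + ∑ k ∈ range K, (bb 1 k : ℂ) * wt k A A' B ξ / (N : ℂ) ^ k + e) := by
  obtain ⟨C₁, hC₁, h1⟩ := Wn_ord K
  obtain ⟨C₂, hC₂, h2⟩ := mid1 K hK1
  obtain ⟨C₃, hC₃, h3⟩ := mid2 K hK1
  obtain ⟨C₄, hC₄, h4⟩ := refl K hK1
  refine ⟨6 * C₁ + C₂ + C₃ + 2 * C₄, by positivity, ?_⟩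
  filter_upwards [h1, eventually_ge_atTop 1000000] with N h1 hN A hA A' hA' B hB ξ hξ
  have hN0 : 0 < N := by omega
  have hN' : (0 : ℝ) < N := by exact_mod_cast hN0
  have hNr : (1000000 : ℝ) ≤ N := by exact_mod_cast hN
  have hNc : (N : ℂ) ≠ 0 := by exact_mod_cast hN0.ne'
  have hN1 : (1 : ℝ) ≤ N := by linarith
  have hi : 1 / (N : ℝ) ≤ 1 / 1000000 := by
    rw [div_le_div_iff₀ hN' (by norm_num)]; linarith
  have hi0 : 0 < 1 / (N : ℝ) := by positivity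
  have h0B : (0 : ℂ) ∈ Bs := mem_ball_self (by norm_num)
  have hξ' := Bs_neg hξ
  have hsm : ball (1 / 3 : ℂ) (1 / 400000) ⊆ ball (1 / 3 : ℂ) (1 / 80000) :=
    ball_subset_ball (by norm_num)
  have hcomp : ∀ A ∈ ball (1 / 3 : ℂ) (1 / 400000), 1 - 1 / N - A - B ∈ ball (1 / 3 : ℂ) (1 / 80000) ∧
      A + B + 1 / N ∈ D1 := by
    intro A hA
    rw [mem_ball, dist_eq_norm] at hA hB
    have h6' : ‖((1 / 6 + 1 / N : ℝ) : ℂ)‖ = 1 / 6 + 1 / N := by
      rw [Complex.norm_real, Real.norm_eq_abs, abs_of_pos (by positivity)]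
    have h7 : ‖((1 / N : ℝ) : ℂ)‖ = 1 / N := by
      rw [Complex.norm_real, Real.norm_eq_abs, abs_of_pos (by positivity)]
    constructor
    · rw [mem_ball, dist_eq_norm]
      have e : (1 : ℂ) - 1 / N - A - B - 1 / 3 = -((A - 1 / 3) + (B - 1 / 3) + ((1 / N : ℝ) : ℂ)) := by
        push_cast; ring
      rw [e, norm_neg]
      refine (norm_add_le _ _).trans_lt ?_
      have := norm_add_le (A - 1 / 3) (B - 1 / 3)
      rw [h7]
      linarith
    · unfold D1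
      rw [mem_closedBall, dist_eq_norm]
      have e : A + B + 1 / N - 1 / 2 = (A - 1 / 3) + (B - 1 / 3) + ((1 / 6 + 1 / N : ℝ) : ℂ) := by
        push_cast; ring
      rw [e]
      refine (norm_add_le _ _).trans ?_
      have := norm_add_le (A - 1 / 3) (B - 1 / 3)
      rw [h6']
      linarith
  obtain ⟨e1, f1, g1⟩ := h1 _ (hcomp A hA).1 0 h0B
  obtain ⟨e2, f2, g2⟩ := h1 _ (hcomp A' hA').1 0 h0B
  obtain ⟨e3, f3, g3⟩ := h1 _ (hsm hB) ξ hξ
  obtain ⟨e4, f4, g4⟩ := h1 _ (hsm hB) (-ξ) hξ'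
  obtain ⟨e5, f5, g5⟩ := h1 _ (hsm hA) ξ hξ
  obtain ⟨e6, f6, g6⟩ := h1 _ (hsm hA) (-ξ) hξ'
  obtain ⟨e7, f7, g7⟩ := h2 N hN ξ hξ
  obtain ⟨e8, f8, g8⟩ := h3 N hN
  have r1 := h4 N (by omega) (A + B) (reg le_rfl hA hB hξ).1 (hcomp A hA).2
  have r2 := h4 N (by omega) (A' + B) (reg le_rfl hA' hB hξ).1 (hcomp A' hA').2
  obtain ⟨e9, he9⟩ : ∃ e9 : ℂ, e9 = hK K N (1 - 1 / N - (A + B)) + hK K N (A + B) := ⟨_, rfl⟩
  obtain ⟨e10, he10⟩ : ∃ e10 : ℂ, e10 = hK K N (1 - 1 / N - (A' + B)) + hK K N (A' + B) := ⟨_, rfl⟩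
  rw [← he9] at r1
  rw [← he10] at r2
  have hle : C₄ / (N : ℝ) ^ (K + 1) ≤ C₄ / (N : ℝ) ^ K :=
    div_le_div_of_nonneg_left hC₄.le (by positivity) (pow_le_pow_right₀ hN1 (by omega))
  refine ⟨e1 + e2 + (e3 + e4) + (e5 + e6) + (e7 + e8) - (e9 + e10), ?_, ?_⟩
  · have n1 := norm_sub_le (e1 + e2 + (e3 + e4) + (e5 + e6) + (e7 + e8)) (e9 + e10)
    have n2 := norm_add_le (e1 + e2 + (e3 + e4) + (e5 + e6)) (e7 + e8)
    have n3 := norm_add_le (e1 + e2 + (e3 + e4)) (e5 + e6)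
    have n4 := norm_add_le (e1 + e2) (e3 + e4)
    have n5 := norm_add_le e1 e2
    have n6 := norm_add_le e3 e4
    have n7 := norm_add_le e5 e6
    have n8 := norm_add_le e7 e8
    have n9 := norm_add_le e9 e10
    have e : (6 * C₁ + C₂ + C₃ + 2 * C₄) / (N : ℝ) ^ K = 6 * (C₁ / (N : ℝ) ^ K) + C₂ / (N : ℝ) ^ K +
      C₃ / (N : ℝ) ^ K + 2 * (C₄ / (N : ℝ) ^ K) := by ring
    rw [e]
    linarith [r1.trans hle, r2.trans hle]
  · unfold ft
    rw [g1, g2, g3, g4, g5, g6]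
    simp only [add_zero, ← sub_eq_add_neg]
    have k1 : N * Md N (2 * π * ξ) / (Sd N ((N - 1) / 2) : ℂ) ^ 2 =
        (Complex.exp e7 * Complex.exp (-(2 * (hK K N (mu N + ξ) + hK K N (mu N - ξ))))) *
        (Complex.exp e8 * Complex.exp (-(2 * hK K N (mu N)))) := by
      rw [← g7, ← g8, mul_assoc (Md N (2 * π * ξ)), ← Complex.exp_add, add_neg_cancel, Complex.exp_zero,
        mul_one, mul_assoc ((N : ℂ) / (Sd N ((N - 1) / 2) : ℂ) ^ 2), ← Complex.exp_add, add_neg_cancel,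
        Complex.exp_zero, mul_one]
      ring
    rw [k1]
    simp only [← Complex.exp_add]
    congr 1
    have k2 : (1 : ℂ) - 1 / N - (A + B) = 1 - 1 / N - A - B := by ring
    have k3 : (1 : ℂ) - 1 / N - (A' + B) = 1 - 1 / N - A' - B := by ring
    rw [k2] at he9
    rw [k3] at he10
    have k4 : N * qt A A' B ξ + ∑ k ∈ range K, (bb 1 k : ℂ) * wt k A A' B ξ / (N : ℂ) ^ k =
        N * (π * Complex.I * (A' - A) * B) + hK K N (A + B) + hK K N (A' + B) - hK K N (B + ξ) -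
        hK K N (B - ξ) - hK K N (A + ξ) - hK K N (A - ξ) := by
      have k5 : ∑ k ∈ range K, (bb 1 k : ℂ) * wt k A A' B ξ / (N : ℂ) ^ k =
          (∑ k ∈ range K, (bb 1 k : ℂ) * iteratedDeriv k ls (A + B) / (N : ℂ) ^ k) +
          (∑ k ∈ range K, (bb 1 k : ℂ) * iteratedDeriv k ls (A' + B) / (N : ℂ) ^ k) -
          (∑ k ∈ range K, (bb 1 k : ℂ) * iteratedDeriv k ls (B + ξ) / (N : ℂ) ^ k) -
          (∑ k ∈ range K, (bb 1 k : ℂ) * iteratedDeriv k ls (B - ξ) / (N : ℂ) ^ k) -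
          (∑ k ∈ range K, (bb 1 k : ℂ) * iteratedDeriv k ls (A + ξ) / (N : ℂ) ^ k) -
          (∑ k ∈ range K, (bb 1 k : ℂ) * iteratedDeriv k ls (A - ξ) / (N : ℂ) ^ k) := by
        simp only [← Finset.sum_sub_distrib, ← Finset.sum_add_distrib]
        refine Finset.sum_congr rfl fun k _ => ?_
        unfold wt
        ring
      rw [k5]
      unfold qt hK
      ring
    rw [k4, he9, he10]
    ring

end Run7.h260.VX
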