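import Pool.Agent.Run7.h260.VX.X8

/-!
# The terms of the sum to all orders: the expansion
-/

set_option autoImplicit false

namespace Run7.h260.VX

open Filter Topology Metric Function Finset
open Pool.Agent.W711.HT hiding bb
open Pool.Agent.Y472 Pool.Agent.Y472.K
open Pool.Agent.W571.FE.EM (bb)
open Pool.Agent.W719.AX (UX)
open Run7.h260.VC
open scoped Real Nat

/-- expansions from expansions of the logarithm -/
theorem ux_of_exp {E : Type} {Y : ℕ → E → ℂ} {w : ℕ → E → ℂ} {S : Set E}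
    (hw : ∀ k, ∃ C : ℝ, 0 ≤ C ∧ ∀ p ∈ S, ‖w k p‖ ≤ C)
    (h : ∀ K : ℕ, 1 ≤ K → ∃ C : ℝ, 0 < C ∧ ∀ᶠ N : ℕ in atTop, ∀ p ∈ S, ∃ e : ℂ,
      ‖e‖ ≤ C / (N : ℝ) ^ K ∧ Y N p = Complex.exp (∑ k ∈ range K, w k p / (N : ℂ) ^ k + e)) :
    ∃ B : ℕ → E → ℂ, UX Y B S ∧ ∀ p, B 0 p = Complex.exp (w 0 p) := by
  choose Cw hCw0 hCw using hw
  set L : ℕ → E → ℂ := fun N p => w 0 p + Complex.log (Y N p * Complex.exp (-w 0 p)) with hL
  have hUX : UX L w S := by
    intro K
    obtain ⟨C, hC, hK⟩ := h (K + 1) (by omega)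
    obtain ⟨M, hM⟩ : ∃ M : ℝ, M = ∑ k ∈ range K, Cw (k + 1) + C := ⟨_, rfl⟩
    have hM0 : 0 < M := by
      have : 0 ≤ ∑ k ∈ range K, Cw (k + 1) := Finset.sum_nonneg fun k _ => hCw0 _
      rw [hM]; linarith
    refine ⟨Cw K + C, ?_⟩
    have t1 : ∀ᶠ N : ℕ in atTop, M / (N : ℝ) < 3 :=
      (tendsto_const_div_atTop_nhds_zero_nat M).eventually_lt_const (by norm_num)
    filter_upwards [hK, t1, eventually_ge_atTop 1] with N hK t1 hN p hp
    have hN' : (0 : ℝ) < N := by exact_mod_cast hN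
    have hN1 : (1 : ℝ) ≤ N := by exact_mod_cast hN
    obtain ⟨e, he, hY⟩ := hK p hp
    have hsplit : ∑ k ∈ range (K + 1), w k p / (N : ℂ) ^ k =
        w 0 p + ∑ k ∈ range K, w (k + 1) p / (N : ℂ) ^ (k + 1) := by
      rw [Finset.sum_range_succ', pow_zero, div_one, add_comm]
    have hle : C / (N : ℝ) ^ (K + 1) ≤ C / (N : ℝ) ^ K :=
      div_le_div_of_nonneg_left hC.le (by positivity) (pow_le_pow_right₀ hN1 (by omega))
    set u : ℂ := ∑ k ∈ range K, w (k + 1) p / (N : ℂ) ^ (k + 1) + e with hu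
    have hun : ‖u‖ ≤ M / N := by
      rw [hu, hM, add_div]
      refine (norm_add_le _ _).trans (add_le_add ?_ ?_)
      · rw [Finset.sum_div]
        refine norm_sum_le_of_le _ fun k _ => ?_
        rw [norm_div, norm_pow, Complex.norm_natCast]
        refine (div_le_div_of_nonneg_right (hCw _ p hp) (by positivity)).trans ?_
        refine div_le_div_of_nonneg_left (hCw0 _) hN' ?_
        calc (N : ℝ) = (N : ℝ) ^ 1 := (pow_one _).symm
          _ ≤ (N : ℝ) ^ (k + 1) := pow_le_pow_right₀ hN1 (by omega)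
      · refine he.trans ?_
        refine div_le_div_of_nonneg_left hC.le hN' ?_
        calc (N : ℝ) = (N : ℝ) ^ 1 := (pow_one _).symm
          _ ≤ (N : ℝ) ^ (K + 1) := pow_le_pow_right₀ hN1 (by omega)
    have hY2 : Y N p * Complex.exp (-w 0 p) = Complex.exp u := by
      rw [hY, ← Complex.exp_add, hsplit, hu]
      congr 1
      ring
    have him : |u.im| < 3 := (Complex.abs_im_le_norm u).trans_lt (hun.trans_lt t1)
    have hlog : Complex.log (Complex.exp u) = u := by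
      have := Real.pi_gt_three
      rw [abs_lt] at him
      exact Complex.log_exp (by linarith) (by linarith)
    have e1 : L N p - ∑ k ∈ range K, w k p / (N : ℂ) ^ k = w K p / (N : ℂ) ^ K + e := by
      simp only [hL]
      rw [hY2, hlog]
      have e2 : w 0 p + u = ∑ k ∈ range (K + 1), w k p / (N : ℂ) ^ k + e := by rw [hsplit, hu]; ring
      rw [e2, Finset.sum_range_succ]
      ring
    rw [e1, add_div]
    refine (norm_add_le _ _).trans (add_le_add ?_ (he.trans hle))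
    rw [norm_div, norm_pow, Complex.norm_natCast]
    exact div_le_div_of_nonneg_right (hCw _ p hp) (by positivity)
  obtain ⟨B, hB, hB0⟩ := Pool.Agent.W67.AX.uxexp Pool.Agent.W303.AX.uxbd Pool.Agent.W303.AX.uxmul
    E L w S hUX
  refine ⟨B, ux_congr hB ?_, hB0⟩
  obtain ⟨C, hC, hK⟩ := h 1 le_rfl
  filter_upwards [hK] with N hK p hp
  obtain ⟨e, he, hY⟩ := hK p hp
  have hne : Y N p * Complex.exp (-w 0 p) ≠ 0 := by
    rw [hY]
    exact mul_ne_zero (Complex.exp_ne_zero _) (Complex.exp_ne_zero _)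
  simp only [hL]
  rw [Complex.exp_add, Complex.exp_log hne, mul_comm, mul_assoc, ← Complex.exp_add, neg_add_cancel,
    Complex.exp_zero, mul_one]

variable {n : ℕ}

/-- the normalised terms -/
noncomputable def fX (n : ℕ) [NeZero n] (N : ℕ) (x : Ix n → ℂ) : ℂ :=
  (N * Md N (x none) / (Sd N ((N - 1) / 2) : ℂ) ^ 2) ^ n * f0 n mX DX N x

lemma pts {δ : ℝ} {x : Ix n → ℂ} (hx : x ∈ ball (0 : Ix n → ℂ) δ) (r : Fin n) :
    Av x r ∈ ball (1 / 3 : ℂ) δ ∧ Bv x r ∈ ball (1 / 3 : ℂ) δ := by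
  rw [mem_ball_zero_iff] at hx
  unfold Av Bv
  simp only [mem_ball, dist_eq_norm, add_sub_cancel_left]
  exact ⟨(norm_le_pi_norm x _).trans_lt hx, (norm_le_pi_norm x _).trans_lt hx⟩

lemma ptx {δ : ℝ} (hδ : δ ≤ 1 / 200) {x : Ix n → ℂ} (hx : x ∈ ball (0 : Ix n → ℂ) δ) : Xv x ∈ Bs := by
  rw [mem_ball_zero_iff] at hx
  unfold Bs
  rw [mem_ball_zero_iff]
  exact (Xv_norm x).trans_lt (hx.trans_le hδ)

theorem fX_ord [NeZero n] (K : ℕ) (hK1 : 1 ≤ K) : ∃ C : ℝ, 0 < C ∧ ∀ᶠ N : ℕ in atTop,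
    ∀ x ∈ ball (0 : Ix n → ℂ) (1 / 400000), ∃ e : ℂ, ‖e‖ ≤ C / (N : ℝ) ^ K ∧
      fX n N x = Complex.exp (N * Qp n x + ∑ k ∈ range K, wk n k x / (N : ℂ) ^ k + e) := by
  obtain ⟨C, hC, h⟩ := ft_ord K hK1
  have hn : (0 : ℝ) < n := by exact_mod_cast Nat.pos_of_ne_zero (NeZero.ne n)
  refine ⟨n * C, by positivity, ?_⟩
  filter_upwards [h] with N h x hx
  have hX := ptx (by norm_num) hx
  have key := fun r : Fin n => h _ (pts hx r).1 _ (pts hx (r + 1)).1 _ (pts hx r).2 _ hX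
  choose e he hee using key
  have hXe : 2 * π * Xv x = x none := by
    unfold Xv
    have : (2 * π : ℂ) ≠ 0 := by
      have : (π : ℂ) ≠ 0 := by exact_mod_cast Real.pi_ne_zero
      simp
    field_simp
  refine ⟨∑ r, e r, ?_, ?_⟩
  · refine (norm_sum_le_of_le _ fun r _ => he r).trans ?_
    rw [Finset.sum_const, Finset.card_univ, Fintype.card_fin, nsmul_eq_mul, mul_div_assoc]
  · unfold fX f0
    rw [hXe] at hee
    have h1 : (N * Md N (x none) / (Sd N ((N - 1) / 2) : ℂ) ^ 2) ^ n *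
        ∏ r : Fin n, ft mX DX N (Av x r) (Av x (r + 1)) (Bv x r) (Xv x) =
        ∏ r : Fin n, (N * Md N (x none) / (Sd N ((N - 1) / 2) : ℂ) ^ 2 *
          ft mX DX N (Av x r) (Av x (r + 1)) (Bv x r) (Xv x)) := by
      rw [Finset.prod_mul_distrib, Finset.prod_const, Finset.card_univ, Fintype.card_fin]
    rw [h1, Finset.prod_congr rfl fun r _ => hee r, ← Complex.exp_sum]
    congr 1
    have h2 : ∑ k ∈ range K, wk n k x / (N : ℂ) ^ k =
        ∑ r : Fin n, ∑ k ∈ range K, (bb 1 k : ℂ) * wt k (Av x r) (Av x (r + 1)) (Bv x r) (Xv x) /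
          (N : ℂ) ^ k := by
      rw [Finset.sum_comm]
      refine Finset.sum_congr rfl fun k _ => ?_
      unfold wk
      rw [Finset.mul_sum, Finset.sum_div]
    rw [h2]
    unfold Qp
    rw [Finset.mul_sum, ← Finset.sum_add_distrib, ← Finset.sum_add_distrib]

lemma iter_bd (k : ℕ) : ∃ C : ℝ, 0 ≤ C ∧ ∀ z ∈ D1, ‖iteratedDeriv k ls z‖ ≤ C := by
  obtain ⟨C, hC⟩ := (isCompact_closedBall (1 / 2 : ℂ) (1 / 4)).exists_bound_of_continuousOn
    (f := iteratedDeriv k ls) fun z hz => (iter_an k (D1_sub hz)).continuousAt.continuousWithinAt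
  exact ⟨max C 0, le_max_right _ _, fun z hz => (hC z hz).trans (le_max_left _ _)⟩

lemma wk_bd [NeZero n] (k : ℕ) : ∃ C : ℝ, 0 ≤ C ∧ ∀ x ∈ ball (0 : Ix n → ℂ) (1 / 400000),
    ‖wk n k x‖ ≤ C := by
  obtain ⟨C, hC0, hC⟩ := iter_bd k
  refine ⟨|bb 1 k| * (n * (6 * C)), by positivity, fun x hx => ?_⟩
  unfold wk
  rw [norm_mul, Complex.norm_real, Real.norm_eq_abs]
  refine mul_le_mul_of_nonneg_left ?_ (abs_nonneg _)
  have h1 : ∀ r ∈ (Finset.univ : Finset (Fin n)),
      ‖wt k (Av x r) (Av x (r + 1)) (Bv x r) (Xv x)‖ ≤ 6 * C := by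
    intro r _
    have hX := ptx (by norm_num) hx
    have p1 := reg le_rfl (pts hx r).1 (pts hx r).2 hX
    have p2 := reg le_rfl (pts hx (r + 1)).1 (pts hx r).2 hX
    have p3 := reg le_rfl (pts hx r).2 (pts hx r).2 hX
    unfold wt
    have n1 := norm_sub_le (iteratedDeriv k ls (Av x r + Bv x r) + iteratedDeriv k ls (Av x (r + 1) + Bv x r) -
      iteratedDeriv k ls (Bv x r + Xv x) - iteratedDeriv k ls (Bv x r - Xv x) -
      iteratedDeriv k ls (Av x r + Xv x)) (iteratedDeriv k ls (Av x r - Xv x))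
    have n2 := norm_sub_le (iteratedDeriv k ls (Av x r + Bv x r) + iteratedDeriv k ls (Av x (r + 1) + Bv x r) -
      iteratedDeriv k ls (Bv x r + Xv x) - iteratedDeriv k ls (Bv x r - Xv x))
      (iteratedDeriv k ls (Av x r + Xv x))
    have n3 := norm_sub_le (iteratedDeriv k ls (Av x r + Bv x r) + iteratedDeriv k ls (Av x (r + 1) + Bv x r) -
      iteratedDeriv k ls (Bv x r + Xv x)) (iteratedDeriv k ls (Bv x r - Xv x))
    have n4 := norm_sub_le (iteratedDeriv k ls (Av x r + Bv x r) + iteratedDeriv k ls (Av x (r + 1) + Bv x r))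
      (iteratedDeriv k ls (Bv x r + Xv x))
    have n5 := norm_add_le (iteratedDeriv k ls (Av x r + Bv x r)) (iteratedDeriv k ls (Av x (r + 1) + Bv x r))
    linarith [hC _ p1.1, hC _ p2.1, hC _ p3.2.1, hC _ p3.2.2, hC _ p1.2.1, hC _ p1.2.2]
  refine (norm_sum_le_of_le _ h1).trans ?_
  rw [Finset.sum_const, Finset.card_univ, Fintype.card_fin, nsmul_eq_mul]

lemma Qp_anx [NeZero n] {x : Ix n → ℂ} (hx : x ∈ ball (0 : Ix n → ℂ) (1 / 400000)) :
    AnalyticAt ℂ (Qp n) x := by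
  unfold Qp
  refine Finset.analyticAt_fun_sum _ fun r _ => ?_
  unfold qt
  have hX := ptx (by norm_num) hx
  have p1 := reg le_rfl (pts hx r).1 (pts hx r).2 hX
  have p2 := reg le_rfl (pts hx (r + 1)).1 (pts hx r).2 hX
  have p3 := reg le_rfl (pts hx r).2 (pts hx r).2 hX
  have c1 : ∀ {g : (Ix n → ℂ) → ℂ}, AnalyticAt ℂ g x → g x ∈ D1 →
      AnalyticAt ℂ (fun x => FF (g x)) x := fun hg h => AnalyticAt.fun_comp (FF_analytic (D1_sub h)) hg
  refine ((((((AnalyticAt.add ?_ ?_).add ?_).sub ?_).sub ?_).sub ?_).sub ?_)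
  · exact ((analyticAt_const.mul ((Av_an _ x).sub (Av_an _ x))).mul (Bv_an _ x))
  · exact c1 ((Av_an _ x).add (Bv_an _ x)) p1.1
  · exact c1 ((Av_an _ x).add (Bv_an _ x)) p2.1
  · exact c1 ((Bv_an _ x).add (Xv_an x)) p3.2.1
  · exact c1 ((Bv_an _ x).sub (Xv_an x)) p3.2.2
  · exact c1 ((Av_an _ x).add (Xv_an x)) p1.2.1
  · exact c1 ((Av_an _ x).sub (Xv_an x)) p1.2.2

lemma Md_diff (N : ℕ) : Differentiable ℂ (Md N) := by
  unfold Md
  refine Differentiable.fun_finsetProd fun t _ => ?_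
  fun_prop

theorem fX_ex (n : ℕ) [NeZero n] : ∃ A : ℕ → (Ix n → ℂ) → ℂ, EXn (1 / 400000) (Qp n) (fX n) A := by
  obtain ⟨B, hB, hB0⟩ := ux_of_exp (E := Ix n → ℂ) (Y := fun N x => Complex.exp (-(N * Qp n x)) * fX n N x)
    (w := wk n) (S := ball 0 (1 / 400000)) wk_bd (by
      intro K hK1
      obtain ⟨C, hC, h⟩ := fX_ord (n := n) K hK1
      refine ⟨C, hC, ?_⟩
      filter_upwards [h] with N h x hx
      obtain ⟨e, he, heq⟩ := h x hx
      refine ⟨e, he, ?_⟩
      rw [heq, ← Complex.exp_add]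
      congr 1
      ring)
  refine ⟨B, by norm_num, fun x hx => Qp_anx hx, hB, ?_, ?_⟩
  · filter_upwards [eventually_ge_atTop 200] with N hN x hx i
    have h1 : DifferentiableOn ℂ (fun w => f0 n mX DX N (update x i w)) (ball 0 (1 / 400000)) := by
      refine (f0_diff mX DX hN).comp (f := fun w : ℂ => update x i w) ?_ ?_
      · intro w _
        exact (hasDerivAt_update x i w).differentiableAt.differentiableWithinAt
      · intro w hw
        rw [mem_ball_zero_iff] at *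
        exact upd_norm (by norm_num) (hx.trans (by norm_num)) (hw.trans (by norm_num))
    have h2 : Differentiable ℂ (fun w : ℂ => update x i w none) := by
      by_cases hi : i = none
      · subst hi
        simp only [update_self]
        exact differentiable_id
      · have : ∀ w : ℂ, update x i w none = x none := fun w => update_of_ne (Ne.symm hi) _ _
        simp only [this]
        exact differentiable_const _
    have h3 : Differentiable ℂ (fun w : ℂ => (N * Md N (update x i w none) /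
        (Sd N ((N - 1) / 2) : ℂ) ^ 2) ^ n) :=
      (((((Md_diff N).comp h2).const_mul (N : ℂ)).div_const _).pow n)
    exact h3.differentiableOn.mul h1
  · obtain ⟨C, hC0, hC⟩ := wk_bd (n := n) 0
    refine ⟨Real.exp (-C), Real.exp_pos _, fun x hx => ?_⟩
    rw [hB0, Complex.norm_exp]
    refine Real.exp_le_exp.2 ?_
    have := (abs_le.1 ((Complex.abs_re_le_norm _).trans (hC x hx))).1
    exact this

end Run7.h260.VX
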