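import Pool.Agent.Run7.h260.VC.G4
import Pool.Agent.Y482.Cv.Blk

/-!
# The dilogarithms of the layered triangulation
-/

set_option autoImplicit false

namespace Run7.h260.VX

open Filter Topology Metric Function
open Run7.h260.VC
open GapVol (lob)
open Pool.Agent.TH563.CV (rog)
open Pool.Agent.Y482.Chi (Tri th)
open scoped Real

/-! ### The base value -/

lemma int_lc : (∫ t in (0 : ℝ)..(π / 3), Pool.Agent.TH563.CV.BaseAux.lc t) = lob (π / 6) := by
  have hpi := Real.pi_pos
  have h1 : (∫ t in (0 : ℝ)..(π / 3), Pool.Agent.TH563.CV.BaseAux.lc t) =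
      ∫ t in (0 : ℝ)..(π / 3), -GapVol.g (π / 2 - t) := by
    refine intervalIntegral.integral_congr fun t _ => ?_
    show Real.log (2 * Real.cos t) = - -Real.log (2 * Real.sin (π / 2 - t))
    rw [Real.sin_pi_div_two_sub, neg_neg]
  rw [h1, intervalIntegral.integral_neg, intervalIntegral.integral_comp_sub_left (fun x => GapVol.g x),
    ← GapVol.lob_sub, sub_zero, GapVol.lob_half]
  have e : π / 2 - π / 3 = π / 6 := by ring
  rw [e]
  ring

lemma cos_pos_third (t : ℝ) (ht : t ∈ Set.uIcc (0 : ℝ) (π / 3)) : 0 < Real.cos t := by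
  have hpi := Real.pi_pos
  rw [Set.uIcc_of_le (by positivity)] at ht
  exact Real.cos_pos_of_mem_Ioo ⟨by linarith [ht.1], by linarith [ht.2]⟩

open Pool.Agent.TH563.CV.BaseAux in
/-- the value at `e^{π i / 3}` -/
theorem rog_third : rog (Complex.exp (π * Complex.I / 3)) =
    -(π : ℂ) ^ 2 / 12 + 3 * Complex.I * (lob (π / 3) : ℂ) := by
  have hpi := Real.pi_pos
  have h := Pool.Agent.TH563.CV.der
  have h1 := Pool.Agent.TH563.CV.ref h
  have hI := intervalIntegral.integral_eq_sub_of_hasDerivAt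
    (a := 0) (b := π / 3) (f := HH) (f' := fun t => 2 * Complex.I * (lc t : ℂ))
    (fun t ht => by
      have hc := cos_pos_third t ht
      rw [Set.uIcc_of_le (by positivity)] at ht
      exact hasDerivAt_HH h t hc (by linarith [ht.1]) (by linarith [ht.2]))
    (ContinuousOn.intervalIntegrable (by
      have : ContinuousOn lc (Set.uIcc (0 : ℝ) (π / 3)) := fun t ht =>
        (hasDerivAt_lc t (cos_pos_third t ht)).continuousAt.continuousWithinAt
      exact continuousOn_const.mul (Complex.continuous_ofReal.comp_continuousOn this)))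
  rw [intervalIntegral.integral_const_mul, intervalIntegral.integral_ofReal, int_lc] at hI
  have hr : rog (1 / 2) = -(π : ℂ) ^ 2 / 12 := by
    have m1 : (1 / 2 : ℂ) ∈ Complex.slitPlane := by
      rw [Complex.mem_slitPlane_iff]; left; norm_num
    have e : (1 : ℂ) - 1 / 2 = 1 / 2 := by norm_num
    have := h1 (1 / 2) m1 (by rw [e]; exact m1)
    rw [e] at this
    linear_combination this / 2
  have hlc : lc (π / 3) = 0 := by
    unfold lc
    rw [Real.cos_pi_div_three]
    norm_num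
  have hz : zz (π / 3) = Complex.exp (π * Complex.I / 3) := by
    rw [zz_eq _ (cos_pos_third _ (by simp)), hlc]
    congr 1
    push_cast
    ring
  simp only [HH, hz, zz_zero, hlc] at hI
  rw [hr] at hI
  have hd : ((lob (π / 6) : ℝ) : ℂ) = 3 / 2 * ((lob (π / 3) : ℝ) : ℂ) := by
    have := GapVol.lob_dup
    have h2 : lob (π / 6) = 3 / 2 * lob (π / 3) := by linarith
    rw [h2]
    push_cast
    ring
  rw [hd] at hI
  push_cast at hI ⊢
  linear_combination -hI

/-! ### The data near the origin -/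

noncomputable def fa (χ : ℂ) : ℂ := 1 - 2 * (1 / 3 + bet χ)
noncomputable def fb (χ : ℂ) : ℂ := 1 / 3 + bet χ + χ / (2 * π)
noncomputable def fc (χ : ℂ) : ℂ := 1 / 3 + bet χ - χ / (2 * π)
noncomputable def fu (χ : ℂ) : ℂ := ls (fb χ) - ls (fa χ)

/-- what is known near the origin -/
structure NearD (n : ℕ) [NeZero n] (χ : ℂ) : Prop where
  shp : Shp (fa χ) (fb χ) (fc χ) (fu χ)
  pos : Shp.Pos (fa χ) (fb χ) (fc χ) (fu χ)
  pos' : Shp.Pos (fa χ) (fb χ) (fc χ) (-fu χ)
  an : AnalyticAt ℂ bet χ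
  anu : AnalyticAt ℂ fu χ
  hu : ∀ m : ℤ, Complex.I * m * χ / π + Complex.I + deriv (Gv n) χ = 0 →
    2 * n * fu χ = Complex.I * (m * χ + π)
  hG : Gv n χ = -(2 * n * (FF (fa χ) + FF (fb χ) + FF (fc χ)))

theorem nearD (n : ℕ) [NeZero n] : ∀ᶠ χ : ℂ in 𝓝 0, NearD n χ := by
  have hpi := Real.pi_pos
  have hpiC : (π : ℂ) ≠ 0 := by exact_mod_cast hpi.ne'
  have hq : Tendsto (fun χ : ℂ => χ / (2 * π)) (𝓝 0) (𝓝 0) := by
    have := (tendsto_id (x := 𝓝 (0 : ℂ))).div_const (2 * π : ℂ)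
    simpa using this
  have ta : Tendsto fa (𝓝 0) (𝓝 (1 / 3)) := by
    have := ((bet_tend.const_add (1 / 3)).const_mul 2).const_sub 1
    have e : (1 : ℂ) - 2 * (1 / 3 + 0) = 1 / 3 := by norm_num
    rwa [e] at this
  have tb : Tendsto fb (𝓝 0) (𝓝 (1 / 3)) := by
    have := (bet_tend.const_add (1 / 3)).add hq
    have e : (1 : ℂ) / 3 + 0 + 0 = 1 / 3 := by norm_num
    rwa [e] at this
  have tc : Tendsto fc (𝓝 0) (𝓝 (1 / 3)) := by
    have := (bet_tend.const_add (1 / 3)).sub hq
    have e : (1 : ℂ) / 3 + 0 - 0 = 1 / 3 := by norm_num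
    rwa [e] at this
  have hlc : ContinuousAt ls (1 / 3) :=
    (ls_hasDerivAt (Bh_re third_mem).1 (Bh_re third_mem).2).continuousAt
  have tu : Tendsto fu (𝓝 0) (𝓝 0) := by
    have := (hlc.tendsto.comp tb).sub (hlc.tendsto.comp ta)
    rw [sub_self] at this
    exact this
  have hnear : ∀ {f : ℂ → ℂ} {w : ℂ}, Tendsto f (𝓝 0) (𝓝 w) → ∀ {ε : ℝ}, 0 < ε →
      ∀ᶠ χ in 𝓝 0, ‖f χ - w‖ < ε := by
    intro f w hf ε hε
    have := Metric.tendsto_nhds.1 hf ε hε
    simpa [dist_eq_norm] using this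
  filter_upwards [hnear ta (show (0 : ℝ) < 1 / 24 by norm_num), hnear tb (show (0 : ℝ) < 1 / 24 by norm_num),
    hnear tc (show (0 : ℝ) < 1 / 24 by norm_num), hnear tu (show (0 : ℝ) < 1 / 24 by norm_num), bet_crit,
    Gv_deriv (n := n), Bh_open.eventually_mem third_mem |> ta.eventually,
    Bh_open.eventually_mem third_mem |> tb.eventually,
    Bh_open.eventually_mem third_mem |> tc.eventually,
    bet_an.eventually_analyticAt] with χ na nb nc nu hcr hGd ma mb mc han
  have hre : ∀ {x : ℂ}, ‖x - 1 / 3‖ < 1 / 24 → |x.re - 1 / 3| < 1 / 24 := by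
    intro x hx
    have h1 := (Complex.abs_re_le_norm (x - 1 / 3)).trans_lt hx
    have e : (x - 1 / 3).re = x.re - 1 / 3 := by
      rw [Complex.sub_re]; norm_num
    rwa [e] at h1
  have ra := hre na
  have rb := hre nb
  have rc := hre nc
  rw [abs_lt] at ra rb rc
  have ru : |(fu χ).im| < 1 / 24 := by
    have h1 := (Complex.abs_im_le_norm (fu χ - 0)).trans_lt nu
    rwa [sub_zero] at h1
  rw [abs_lt] at ru
  have hls2 : ls (fa χ) = ls (2 * (1 / 3 + bet χ)) := ls_symm _
  have hcr' : 2 * ls (fa χ) = ls (fb χ) + ls (fc χ) := by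
    rw [hls2]
    unfold Dd at hcr
    unfold fb fc
    linear_combination hcr
  have hS : Shp (fa χ) (fb χ) (fc χ) (fu χ) := by
    refine ⟨ma, mb, mc, by linarith, by linarith, by linarith, ?_, ?_, ?_⟩
    · rw [fa, fb, fc]; ring
    · rw [fu]; ring
    · rw [fu]; linear_combination -hcr'
  have hpi4 : π < 4 := by have := Real.pi_lt_d2; linarith
  have hpi3 := Real.pi_gt_three
  have pos : ∀ {v : ℂ}, |v.im| < 1 / 24 → Shp.Pos (fa χ) (fb χ) (fc χ) v := by
    intro v hv
    rw [abs_lt] at hv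
    have hm : ∀ {x : ℝ}, -(1 / 24) < x - 1 / 3 → x - 1 / 3 < 1 / 24 → 7 / 24 * π < π * x ∧ π * x < 9 / 24 * π := by
      intro x h1 h2
      constructor <;> nlinarith
    have pa := hm ra.1 ra.2
    have pb := hm rb.1 rb.2
    have pc := hm rc.1 rc.2
    refine ⟨?_, ?_, ?_⟩
    · unfold tA; constructor <;> linarith [pa.1, pa.2]
    · unfold tB; constructor <;> linarith [pb.1, pb.2]
    · unfold tB; constructor <;> linarith [pc.1, pc.2]
  refine ⟨hS, pos (v := fu χ) (abs_lt.2 ru), pos (v := -fu χ) (by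
    rw [Complex.neg_im, abs_neg]; exact abs_lt.2 ru), han, ?_, ?_, ?_⟩
  · have a1 : AnalyticAt ℂ fa χ := by
      unfold fa
      fun_prop
    have a2 : AnalyticAt ℂ fb χ := by
      unfold fb
      fun_prop
    unfold fu
    exact ((ls_analytic (Bh_re mb).1 (Bh_re mb).2).comp a2).sub
      ((ls_analytic (Bh_re ma).1 (Bh_re ma).2).comp a1)
  · intro m hcrit
    rw [hGd.deriv] at hcrit
    have e1 : ls (1 / 3 + bet χ + χ / (2 * π)) - ls (1 / 3 + bet χ - χ / (2 * π)) = 2 * fu χ := by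
      have : ls (fb χ) - ls (fc χ) = 2 * fu χ := by
        rw [fu]; linear_combination hcr'
      exact this
    rw [e1] at hcrit
    field_simp at hcrit
    linear_combination -hcrit
  · unfold Gv Qp
    simp only [Av_Up, Bv_Up, Xv_Up]
    rw [Finset.sum_const, Finset.card_univ, Fintype.card_fin, nsmul_eq_mul]
    unfold qt
    have hm2 : 2 * (1 / 3 + bet χ) ∈ Bh := by
      have := Bh_symm ma
      rw [fa] at this
      simpa using this
    have e1 : FF (fa χ) = -FF (2 * (1 / 3 + bet χ)) := FF_symm hm2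
    rw [e1]
    have e2 : (1 / 3 + bet χ + (1 / 3 + bet χ)) = 2 * (1 / 3 + bet χ) := by ring
    rw [e2]
    show (n : ℂ) * (π * Complex.I * (1 / 3 + bet χ - (1 / 3 + bet χ)) * (1 / 3 + bet χ) +
      FF (2 * (1 / 3 + bet χ)) + FF (2 * (1 / 3 + bet χ)) - FF (fb χ) - FF (fc χ) - FF (fb χ) - FF (fc χ)) = _
    ring

end Run7.h260.VX
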