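import Pool.Agent.Run7.h260.VX.Z1
import Pool.Agent.Y482.Cv.Tet

/-!
# The sum of the dilogarithms of the layered triangulation
-/

set_option autoImplicit false

namespace Run7.h260.VX

open Filter Topology Metric Function
open Run7.h260.VC
open GapVol (lob)
open Pool.Agent.TH563.CV (rog)
open Pool.Agent.Y482.Chi (Tri th)
open Pool.Agent.Y482.Cv (drog)
open scoped Real

lemma tri_of {a b c u : ℂ} (h : Shp a b c u) (hp : Shp.Pos a b c u) :
    Tri (2 * u + Complex.I * (π * a)) (-u + Complex.I * (π * b)) := by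
  have h1 := tsum h
  refine ⟨?_, ?_, ?_, ?_⟩
  · have e : -(-u + Complex.I * (π * b)) = u - Complex.I * (π * b) := by ring
    rw [e, ← h.w1]
    ring
  · rw [im_tA]; exact hp.A.1
  · rw [im_tB]; exact hp.B.1
  · rw [im_tA, im_tB]; linarith [hp.C.1]

lemma pos_swap {a b c u : ℂ} (h : Shp.Pos a b c u) : Shp.Pos a c b u := ⟨h.A, h.C, h.B⟩

/-- the two dilogarithms -/
noncomputable def S2 (χ : ℂ) : ℂ :=
  rog (Complex.exp (2 * fu χ + Complex.I * (π * fa χ))) +
    rog (Complex.exp (2 * -fu χ + Complex.I * (π * fa χ)))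

/-- their value -/
noncomputable def R2 (χ : ℂ) : ℂ :=
  Complex.I * χ * fu χ - 2 * π * Complex.I * (FF (fa χ) + FF (fb χ) + FF (fc χ)) -
    (π : ℂ) ^ 2 / 2 * fa χ

lemma S2_zero : S2 0 = R2 0 := by
  have hpi : (π : ℂ) ≠ 0 := by exact_mod_cast Real.pi_ne_zero
  have a0 : fa 0 = 1 / 3 := by rw [fa, bet_zero]; norm_num
  have b0 : fb 0 = 1 / 3 := by rw [fb, bet_zero]; norm_num
  have c0 : fc 0 = 1 / 3 := by rw [fc, bet_zero]; norm_num
  have u0 : fu 0 = 0 := by rw [fu, a0, b0, sub_self]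
  have hF : FF (1 / 3) = ((-(lob (π / 3) / π) : ℝ) : ℂ) := by
    have := FF_lob (x := 1 / 3) (by norm_num) (by norm_num)
    have e1 : ((1 / 3 : ℝ) : ℂ) = 1 / 3 := by push_cast; ring
    have e2 : π * (1 / 3) = π / 3 := by ring
    rw [e1, e2] at this
    exact this
  unfold S2 R2
  rw [u0, a0, b0, c0, hF]
  have e1 : 2 * (0 : ℂ) + Complex.I * (π * (1 / 3)) = π * Complex.I / 3 := by ring
  have e2 : 2 * -(0 : ℂ) + Complex.I * (π * (1 / 3)) = π * Complex.I / 3 := by ring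
  rw [e1, e2, rog_third]
  push_cast
  field_simp
  ring

theorem S2_eq (n : ℕ) [NeZero n] : ∀ᶠ χ : ℂ in 𝓝 0, S2 χ = R2 χ := by
  have hpiC : (π : ℂ) ≠ 0 := by exact_mod_cast Real.pi_ne_zero
  obtain ⟨r, hr, hb⟩ := Metric.eventually_nhds_iff_ball.1 (nearD n)
  refine Metric.eventually_nhds_iff_ball.2 ⟨r, hr, fun χ hχ => ?_⟩
  have hin : ∀ s ∈ Set.Icc (0 : ℝ) 1, NearD n (s * χ) := by
    intro s hs
    refine hb _ ?_
    rw [mem_ball_zero_iff] at hχ ⊢
    rw [norm_mul, Complex.norm_real, Real.norm_of_nonneg hs.1]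
    calc s * ‖χ‖ ≤ 1 * ‖χ‖ := by gcongr; exact hs.2
      _ < r := by rw [one_mul]; exact hχ
  have key : ∀ s ∈ Set.Icc (0 : ℝ) 1, HasDerivAt (fun s : ℝ => S2 (s * χ) - R2 (s * χ)) 0 s := by
    intro s hs
    have hN := hin s hs
    have hX : HasDerivAt (fun s : ℝ => (s : ℂ) * χ) χ s := by
      have h1 : HasDerivAt (fun s : ℝ => (s : ℂ)) 1 s := Complex.ofRealCLM.hasDerivAt
      have h2 := h1.mul_const χ
      rwa [one_mul] at h2
    obtain ⟨β, hβ⟩ : ∃ β : ℂ, HasDerivAt (fun s : ℝ => bet (s * χ)) β s :=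
      ⟨_, hN.an.differentiableAt.hasDerivAt.comp s hX⟩
    obtain ⟨U, hU⟩ : ∃ U : ℂ, HasDerivAt (fun s : ℝ => fu (s * χ)) U s := by
      have h1 : HasDerivAt (fu ∘ fun s : ℝ => (s : ℂ) * χ) (deriv fu (s * χ) * χ) s :=
        HasDerivAt.comp s hN.anu.differentiableAt.hasDerivAt hX
      exact ⟨_, h1⟩
    have hA : HasDerivAt (fun s : ℝ => fa (s * χ)) (-(2 * β)) s := by
      have := ((hβ.const_add (1 / 3)).const_mul 2).const_sub 1
      exact this
    have hB : HasDerivAt (fun s : ℝ => fb (s * χ)) (β + χ / (2 * π)) s := by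
      have := (hβ.const_add (1 / 3)).add (hX.div_const (2 * π))
      exact this
    have hC : HasDerivAt (fun s : ℝ => fc (s * χ)) (β - χ / (2 * π)) s := by
      have := (hβ.const_add (1 / 3)).sub (hX.div_const (2 * π))
      exact this
    have hh := hN.shp
    have fA : HasDerivAt (fun s : ℝ => FF (fa (s * χ))) (ls (fa (s * χ)) * -(2 * β)) s :=
      (FF_deriv hh.ma).comp s hA
    have fB : HasDerivAt (fun s : ℝ => FF (fb (s * χ))) (ls (fb (s * χ)) * (β + χ / (2 * π))) s :=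
      (FF_deriv hh.mb).comp s hB
    have fC : HasDerivAt (fun s : ℝ => FF (fc (s * χ))) (ls (fc (s * χ)) * (β - χ / (2 * π))) s :=
      (FF_deriv hh.mc).comp s hC
    have d1 := drog (s := s) (A := fun s : ℝ => 2 * fu (s * χ) + Complex.I * (π * fa (s * χ)))
      (B := fun s : ℝ => -fu (s * χ) + Complex.I * (π * fb (s * χ))) hs
      (fun t ht => tri_of (hin t ht).shp (hin t ht).pos)
      ((hU.const_mul 2).add ((hA.const_mul (π : ℂ)).const_mul Complex.I))
      (hU.neg.add ((hB.const_mul (π : ℂ)).const_mul Complex.I))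
    have d2 := drog (s := s) (A := fun s : ℝ => 2 * -fu (s * χ) + Complex.I * (π * fa (s * χ)))
      (B := fun s : ℝ => - -fu (s * χ) + Complex.I * (π * fc (s * χ))) hs
      (fun t ht => tri_of (hin t ht).shp.swap (pos_swap (hin t ht).pos'))
      ((hU.neg.const_mul 2).add ((hA.const_mul (π : ℂ)).const_mul Complex.I))
      (hU.neg.neg.add ((hC.const_mul (π : ℂ)).const_mul Complex.I))
    have d3 := (((hX.const_mul Complex.I).mul hU).sub
      (((fA.add fB).add fC).const_mul (2 * π * Complex.I))).sub (hA.const_mul ((π : ℂ) ^ 2 / 2))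
    refine ((d1.add d2).sub d3).congr_deriv ?_
    have e1 := hh.ub
    have e2 := hh.uc
    have e3 := hh.sum
    have e4 : fb (s * χ) - fc (s * χ) = s * χ / π := by
      rw [fb, fc]; field_simp; ring
    have e5 : (s : ℂ) * χ = π * (fb (s * χ) - fc (s * χ)) := by
      rw [e4]; field_simp
    have e6 : (χ : ℂ) / (2 * π) = χ / (2 * π) := rfl
    obtain ⟨κ, hκ⟩ : ∃ κ : ℂ, κ = χ / (2 * π) := ⟨_, rfl⟩
    have hκ' : χ = 2 * π * κ := by rw [hκ]; field_simp
    rw [e1, e2, ← hκ]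
    linear_combination (-(π : ℂ) ^ 2 * β * (fa (s * χ) + fb (s * χ) + fc (s * χ))) * Complex.I_sq +
      (π : ℂ) ^ 2 * β * e3 - Complex.I * U * e5 - Complex.I * fu (s * χ) * hκ'
  have h01 := constant_of_has_deriv_right_zero (f := fun s : ℝ => S2 (s * χ) - R2 (s * χ)) (a := 0)
    (b := 1) (fun s hs => (key s hs).continuousAt.continuousWithinAt)
    (fun s hs => (key s ⟨hs.1, hs.2.le⟩).hasDerivWithinAt) 1 ⟨zero_le_one, le_rfl⟩
  simp only [Complex.ofReal_one, one_mul, Complex.ofReal_zero, zero_mul] at h01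
  rw [S2_zero, sub_self] at h01
  exact sub_eq_zero.1 h01

end Run7.h260.VX
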