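import Pool.Agent.Run7.h260.VX.Z2

/-!
# The labels, and the sum of the dilogarithms
-/

set_option autoImplicit false

namespace Run7.h260.VX

open Filter Topology Metric Function Finset
open Run7.h260.VC
open Pool.Agent.TH563.CV (rog)
open Pool.Agent.Y482.Chi (Tri th)
open Pool.Agent.Y482.Cv (tet tet_eq rog_rot rp tc rot)
open scoped Real

variable {a b c u : ℂ}

noncomputable def lA (a u : ℂ) : ℂ := 2 * u + Complex.I * (π * a)
noncomputable def lB (b u : ℂ) : ℂ := -u + Complex.I * (π * b)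

lemma tc_eq (h : Shp a b c u) : tc (lA a u) (lB b u) = lB c u := by
  unfold tc lA lB
  linear_combination (-(π * Complex.I)) * h.sum

/-- the three triangles -/
lemma tris (h : Shp a b c u) (hp : Shp.Pos a b c u) :
    (Tri (lA a u) (lB b u) ∧ th (lA a u) (lB b u) = tB c u) ∧
    (Tri (lB b u) (lB c u) ∧ th (lB b u) (lB c u) = tA a u) ∧
    (Tri (lB c u) (lA a u) ∧ th (lB c u) (lA a u) = tB b u) := by
  have h1 : Tri (lA a u) (lB b u) := tri_of h hp
  obtain ⟨r1, r2, r3⟩ := rot h1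
  obtain ⟨s1, s2, s3⟩ := rot r1
  rw [r3] at s1 s2
  rw [tc_eq h] at r1 r2 s1 s2
  have iA : (lA a u).im = tA a u := im_tA a u
  have iB : (lB b u).im = tB b u := im_tB b u
  have hs := tsum h
  refine ⟨⟨h1, ?_⟩, ⟨r1, ?_⟩, ⟨s1, ?_⟩⟩
  · unfold th
    rw [iA, iB]
    linarith
  · rw [r2, iA]
  · rw [s2, iB]

/-- the even layers -/
noncomputable def evenT (a b c a' b' c' : ℝ) (A B C A' B' C' : ℤ) : ℂ :=
  tet a b c A B C 2 0 1 + tet a' b' c' A' B' C' 2 1 0

/-- the odd layers -/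
noncomputable def oddT (a b c a' b' c' : ℝ) (A B C A' B' C' : ℤ) : ℂ :=
  tet a c b A C B 0 1 2 + tet a' c' b' A' C' B' 0 2 1

lemma even_eq (h : Shp a b c u) (hp : Shp.Pos a b c u) {A B C A' B' C' : ℤ} (h1 : A + B + C = 1)
    (h2 : A' + B' + C' = 1) : evenT (tB c u) (tA a u) (tB b u) (tB b u) (tB c u) (tA a u)
      A B C A' B' C' = 2 * rog (Complex.exp (lA a u)) +
      π * Complex.I / 2 * ((A - 1 - A') * lA a u - B * lB c u + C' * lB b u) := by
  obtain ⟨⟨t1, e1⟩, ⟨t2, e2⟩, ⟨t3, e3⟩⟩ := tris h hp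
  have k1 := tet_eq t3 h1 2 0 1
  have k2 := tet_eq t2 h2 2 1 0
  have iA : (lA a u).im = tA a u := im_tA a u
  have iB : (lB b u).im = tB b u := im_tB b u
  have iC : (lB c u).im = tB c u := im_tB c u
  rw [e3, iA, iC] at k1
  rw [e2, iB, iC] at k2
  have r1 := rog_rot t3
  have r2 := rog_rot t1
  have hs := tc_eq h
  unfold tc at hs
  have h2' : (A' : ℂ) + B' + C' = 1 := by exact_mod_cast h2
  unfold evenT
  rw [k1, k2]
  unfold rp
  have o1 : Pool.Agent.Y482.Cv.off A B C 2 0 1 = 1 := by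
    unfold Pool.Agent.Y482.Cv.off
    norm_num
  have o2 : Pool.Agent.Y482.Cv.off A' B' C' 2 1 0 = -1 + 3 * A' := by
    unfold Pool.Agent.Y482.Cv.off
    norm_num
  rw [o1, o2, r2]
  push_cast
  linear_combination (-1 : ℂ) * r1 - (π * Complex.I / 2 * A') * hs -
    (π * Complex.I / 2 * lB b u) * h2' + ((π : ℂ) ^ 2 / 2 * A') * Complex.I_sq

lemma odd_eq (h : Shp a b c u) (hp : Shp.Pos a b c (-u)) {A B C A' B' C' : ℤ} (h1 : A + B + C = 1)
    (h2 : A' + B' + C' = 1) : oddT (tB c (-u)) (tA a (-u)) (tB b (-u)) (tB b (-u)) (tB c (-u))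
      (tA a (-u)) A B C A' B' C' = 2 * rog (Complex.exp (lA a (-u))) +
      π * Complex.I / 2 * (B * lB c (-u) + (A' - A - 1) * lA a (-u) - C' * lB b (-u)) := by
  obtain ⟨⟨t1, e1⟩, ⟨t2, e2⟩, ⟨t3, e3⟩⟩ := tris h.swap (pos_swap hp)
  have h1' : A + C + B = 1 := by omega
  have h2'' : A' + C' + B' = 1 := by omega
  have k1 := tet_eq t2 h1' 0 1 2
  have k2 := tet_eq t3 h2'' 0 2 1
  have iA : (lA a (-u)).im = tA a (-u) := im_tA a (-u)
  have iB : (lB b (-u)).im = tB b (-u) := im_tB b (-u)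
  have iC : (lB c (-u)).im = tB c (-u) := im_tB c (-u)
  rw [e2, iB, iC] at k1
  rw [e3, iA, iB] at k2
  have r1 := rog_rot t3
  have r2 := rog_rot t1
  have hs := tc_eq h.swap
  unfold tc at hs
  have h1c : (A : ℂ) + B + C = 1 := by exact_mod_cast h1
  unfold oddT
  rw [k1, k2]
  unfold rp
  have o1 : Pool.Agent.Y482.Cv.off A C B 0 1 2 = 3 * A := by
    unfold Pool.Agent.Y482.Cv.off
    norm_num
  have o2 : Pool.Agent.Y482.Cv.off A' C' B' 0 2 1 = 0 := by
    unfold Pool.Agent.Y482.Cv.off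
    norm_num
  rw [o1, o2, r2]
  push_cast
  linear_combination (-1 : ℂ) * r1 - (π * Complex.I / 2 * A) * hs -
    (π * Complex.I / 2 * lB c (-u)) * h1c + ((π : ℂ) ^ 2 / 2 * A) * Complex.I_sq

end Run7.h260.VX
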