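import Pool.Agent.Run7.h260.VX.Z3

/-!
# A flattening
-/

set_option autoImplicit false

namespace Run7.h260.VX

open Finset

/-- the labels of a layer -/
structure Lb where
  a : ℤ
  b : ℤ
  c : ℤ
  a' : ℤ
  b' : ℤ
  c' : ℤ

/-- `1` at the multiples of `2 n` -/
def dd (n k : ℕ) : ℤ := if 2 * n ∣ k then 1 else 0

/-- the labels -/
def lab (n k : ℕ) : Lb :=
  ⟨dd n (k + 2 * n - 1), 1 - dd n (k + 2 * n - 1) + dd n (k + 2 * n - 2), -dd n (k + 2 * n - 2),
    dd n (k + 2 * n - 1), -dd n k, 1 + dd n k - dd n (k + 2 * n - 1)⟩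

variable {n : ℕ}

lemma dd_add (n k : ℕ) : dd n (k + 2 * n) = dd n k := by
  unfold dd
  have : 2 * n ∣ k + 2 * n ↔ 2 * n ∣ k := Nat.dvd_add_self_right
  simp only [this]

lemma dd_zero (n : ℕ) : dd n 0 = 1 := by simp [dd]

section
variable (n)

lemma d1 (k : ℕ) : dd n (k + 1 + 2 * n - 1) = dd n k := by
  rw [show k + 1 + 2 * n - 1 = k + 2 * n by omega, dd_add]

lemma d2 (k : ℕ) : dd n (k + 2 + 2 * n - 2) = dd n k := by
  rw [show k + 2 + 2 * n - 2 = k + 2 * n by omega, dd_add]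

lemma d21 (k : ℕ) : dd n (k + 1 + 2 * n - 2) = dd n (k + 2 * n - 1) := by
  congr 1
  omega

lemma d12 (k : ℕ) : dd n (k + 2 + 2 * n - 1) = dd n (k + 1) := d1 n (k + 1)

lemma d13 (k : ℕ) : dd n (k + 3 + 2 * n - 1) = dd n (k + 2) := d1 n (k + 2)

lemma d23 (k : ℕ) : dd n (k + 3 + 2 * n - 2) = dd n (k + 1) := d2 n (k + 1)

end

lemma lab_per (n : ℕ) (hn : 1 ≤ n) (k : ℕ) : lab n (k + 2 * n) = lab n k := by
  unfold lab
  rw [show k + 2 * n + 2 * n - 1 = k + 2 * n - 1 + 2 * n by omega,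
    show k + 2 * n + 2 * n - 2 = k + 2 * n - 2 + 2 * n by omega, dd_add, dd_add, dd_add]

/-- the conditions, except those along the closure -/
theorem lab_local (n : ℕ) [NeZero n] (k : ℕ) :
    ((lab n k).a + (lab n k).b + (lab n k).c = 1 ∧ (lab n k).a' + (lab n k).b' + (lab n k).c' = 1) ∧
    (lab n k).a' + (lab n (k + 1)).c + (lab n (k + 1)).c' + (lab n (k + 2)).b + (lab n (k + 2)).b' +
      (lab n (k + 3)).a = 2 ∧
    (lab n k).a + (lab n (k + 1)).c + (lab n (k + 1)).c' + (lab n (k + 2)).b + (lab n (k + 2)).b' +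
      (lab n (k + 3)).a' = 2 ∧
    ((lab n k).a' + (lab n (k + 1)).c' - (lab n (k + 1)).b - (lab n (k + 2)).a' = 0 ∧
      (lab n k).a + (lab n (k + 1)).c - (lab n (k + 1)).b' - (lab n (k + 2)).a' = 0 ∧
      (lab n k).a + (lab n (k + 1)).c' - (lab n (k + 1)).b - (lab n (k + 2)).a = 0) ∧
    (lab n k).a' + (lab n (k + 1)).c - (lab n (k + 1)).b' - (lab n (k + 2)).a = 0 := by
  unfold lab
  simp only [d1, d2, d21, d12, d13, d23]
  refine ⟨⟨?_, ?_⟩, ?_, ?_, ⟨?_, ?_, ?_⟩, ?_⟩ <;> ring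

/-- sums over the even and the odd layers -/
lemma sum_pair {M : Type*} [AddCommMonoid M] (f : ℕ → M) (n : ℕ) :
    ∑ k ∈ range (2 * n), f k = ∑ t ∈ range n, (f (2 * t) + f (2 * t + 1)) := by
  induction n with
  | zero => simp
  | succ n ih =>
    rw [show 2 * (n + 1) = 2 * n + 1 + 1 by ring, sum_range_succ, sum_range_succ, ih,
      sum_range_succ, add_assoc]

/-- `1` at the multiples of `n` -/
def ee (n t : ℕ) : ℤ := if n ∣ t then 1 else 0

lemma dd_even (n t : ℕ) : dd n (2 * t) = ee n t := by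
  unfold dd ee
  have : 2 * n ∣ 2 * t ↔ n ∣ t := Nat.mul_dvd_mul_iff_left (by norm_num)
  simp only [this]

lemma dd_odd (n t : ℕ) : dd n (2 * t + 1) = 0 := by
  unfold dd
  rw [if_neg]
  intro h
  have h1 : 2 ∣ 2 * t + 1 := (Dvd.intro n rfl).trans h
  omega

lemma ee_add (n t : ℕ) : ee n (t + n) = ee n t := by
  unfold ee
  have : n ∣ t + n ↔ n ∣ t := Nat.dvd_add_self_right
  simp only [this]

lemma ee_sum (n : ℕ) (hn : 1 ≤ n) : ∑ t ∈ range n, ee n t = 1 := by
  rw [sum_eq_single 0]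
  · simp [ee]
  · intro t ht h0
    unfold ee
    rw [if_neg]
    intro h
    have := Nat.le_of_dvd (Nat.pos_of_ne_zero h0) h
    rw [mem_range] at ht
    omega
  · intro h
    rw [mem_range] at h
    omega

lemma ee_sum' (n : ℕ) (hn : 1 ≤ n) : ∑ t ∈ range n, ee n (t + n - 1) = 1 := by
  obtain ⟨m, rfl⟩ : ∃ m, n = m + 1 := ⟨n - 1, by omega⟩
  have h1 : ∀ t, t + (m + 1) - 1 = t + m := fun t => by omega
  simp only [h1]
  rw [sum_range_succ']
  have h3 : ∀ t, ee (m + 1) (t + 1 + m) = ee (m + 1) t := fun t => by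
    rw [show t + 1 + m = t + (m + 1) by ring, ee_add]
  simp only [h3]
  rw [zero_add, ← sum_range_succ]
  exact ee_sum (m + 1) hn

/-- the labels of the even and the odd layers -/
lemma lab_even (n : ℕ) [NeZero n] (t : ℕ) : lab n (2 * t) =
    ⟨0, 1 + ee n (t + n - 1), -ee n (t + n - 1), 0, -ee n t, 1 + ee n t⟩ := by
  have hn : n ≠ 0 := NeZero.ne n
  unfold lab
  have e1 : dd n (2 * t + 2 * n - 1) = 0 := by
    rw [show 2 * t + 2 * n - 1 = 2 * (t + n - 1) + 1 by omega, dd_odd]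
  have e2 : dd n (2 * t + 2 * n - 2) = ee n (t + n - 1) := by
    rw [show 2 * t + 2 * n - 2 = 2 * (t + n - 1) by omega, dd_even]
  rw [e1, e2, dd_even]
  simp

lemma lab_odd (n : ℕ) [NeZero n] (t : ℕ) : lab n (2 * t + 1) =
    ⟨ee n t, 1 - ee n t, 0, ee n t, 0, 1 - ee n t⟩ := by
  have hn : n ≠ 0 := NeZero.ne n
  unfold lab
  have e1 : dd n (2 * t + 1 + 2 * n - 1) = ee n t := by
    rw [show 2 * t + 1 + 2 * n - 1 = 2 * (t + n) by omega, dd_even, ee_add]
  have e2 : dd n (2 * t + 1 + 2 * n - 2) = 0 := by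
    rw [show 2 * t + 1 + 2 * n - 2 = 2 * (t + n - 1) + 1 by omega, dd_odd]
  rw [e1, e2, dd_odd]
  simp

/-- the filling curve -/
theorem lab_fill (n : ℕ) [NeZero n] : ∑ k ∈ range (2 * n), (-1) ^ k * (lab n k).b = 2 := by
  have hn : 1 ≤ n := Nat.one_le_iff_ne_zero.2 (NeZero.ne n)
  rw [sum_pair]
  have : ∀ t, (-1 : ℤ) ^ (2 * t) * (lab n (2 * t)).b + (-1) ^ (2 * t + 1) * (lab n (2 * t + 1)).b =
      ee n (t + n - 1) + ee n t := by
    intro t
    rw [lab_even, lab_odd, pow_succ, pow_mul]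
    ring
  simp only [this]
  rw [sum_add_distrib, ee_sum n hn, ee_sum' n hn]
  norm_num



/-! ### The curves along the closure -/

/-- the partial sums of `(-1)^k [k = j mod 3]` -/
def ps (j k : ℕ) : ℤ := ∑ i ∈ range (k % 6), if i % 3 = j then (-1) ^ i else 0

lemma ps_step (j k : ℕ) (hj : j < 3) : ps j (k + 1) = ps j k + if k % 3 = j then (-1) ^ k else 0 := by
  have h6 : k % 6 < 6 := Nat.mod_lt _ (by norm_num)
  have e1 : k % 3 = (k % 6) % 3 := by omega
  have e2 : (-1 : ℤ) ^ k = (-1) ^ (k % 6) := by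
    conv_lhs => rw [← Nat.div_add_mod k 6, pow_add, pow_mul]
    norm_num
  have e3 : (k + 1) % 6 = (k % 6 + 1) % 6 := by omega
  unfold ps
  rw [e1, e2, e3]
  generalize k % 6 = r at *
  interval_cases r <;> interval_cases j <;> decide

/-- the correction -/
def pc (n j k : ℕ) : ℤ := (-1) ^ k * (dd n (k + 2 * n - 1) * (1 - if (k + 2) % 3 = j then 1 else 0) -
  dd n (k + 2 * n - 2) * (if k % 3 = j then 1 else 0))

lemma pc_step (n : ℕ) [NeZero n] (j k : ℕ) (hj : j < 3) : ps j (k + 1) + pc n j (k + 1) =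
    ps j k + pc n j k + (-1) ^ k * (if k % 3 = j then (lab n k).b else (lab n k).b') := by
  rw [ps_step j k hj]
  unfold pc lab
  simp only [d1, d21]
  have h3 : k % 3 < 3 := Nat.mod_lt _ (by norm_num)
  have e1 : (k + 2) % 3 = (k % 3 + 2) % 3 := by omega
  have e2 : (k + 1) % 3 = (k % 3 + 1) % 3 := by omega
  have e3 : (k + 1 + 2) % 3 = k % 3 := by omega
  rw [e1, e2, e3, pow_succ]
  generalize k % 3 = r at *
  interval_cases r <;> interval_cases j <;> norm_num <;> ring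

theorem lab_along (n : ℕ) [NeZero n] (j : ℕ) (hj : j < 3) :
    ∑ k ∈ range (6 * n), (-1) ^ k * (if k % 3 = j then (lab n k).b else (lab n k).b') = 0 := by
  have h : ∀ K, ∑ k ∈ range K, (-1) ^ k * (if k % 3 = j then (lab n k).b else (lab n k).b') =
      ps j K + pc n j K - (ps j 0 + pc n j 0) := by
    intro K
    induction K with
    | zero => simp
    | succ K ih =>
      rw [sum_range_succ, ih, pc_step n j K hj]
      ring
  rw [h]
  have e1 : (6 * n) % 6 = 0 := by omega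
  have e2 : (6 * n + 2) % 3 = (0 + 2) % 3 := by omega
  have e3 : (6 * n) % 3 = 0 % 3 := by omega
  have e4 : dd n (6 * n + 2 * n - 1) = dd n (0 + 2 * n - 1) := by
    have hn : 1 ≤ n := Nat.one_le_iff_ne_zero.2 (NeZero.ne n)
    rw [show 6 * n + 2 * n - 1 = 0 + 2 * n - 1 + 2 * n + 2 * n + 2 * n by omega, dd_add, dd_add,
      dd_add]
  have e5 : dd n (6 * n + 2 * n - 2) = dd n (0 + 2 * n - 2) := by
    have hn : 1 ≤ n := Nat.one_le_iff_ne_zero.2 (NeZero.ne n)
    rw [show 6 * n + 2 * n - 2 = 0 + 2 * n - 2 + 2 * n + 2 * n + 2 * n by omega, dd_add, dd_add,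
      dd_add]
  have e6 : (-1 : ℤ) ^ (6 * n) = 1 := by
    rw [pow_mul]
    norm_num
  unfold ps pc
  rw [e1, e2, e3, e4, e5, e6]
  simp

end Run7.h260.VX
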